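import Pool.Agent.H37PS.Stm

/-!
Project PS: the theorem of Bombieri and Vinogradov in the form used there (stub BVS).
-/

set_option autoImplicit false

namespace Pool.Agent.H37PS.BVS

open Finset Filter Pool.Agent

theorem log_pow_lt (B : ℕ) {δ : ℝ} (hδ : 0 < δ) {ε : ℝ} (hε : 0 < ε) :
    ∀ᶠ X : ℕ in atTop, Real.log X ^ B ≤ ε * (X : ℝ) ^ δ := by
  have h := (isLittleO_log_rpow_rpow_atTop (B : ℝ) hδ).bound hε
  have h2 := tendsto_natCast_atTop_atTop.eventually h
  filter_upwards [h2, eventually_ge_atTop 1] with X hX h1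
  have hX1 : (1 : ℝ) ≤ X := by exact_mod_cast h1
  have hl : 0 ≤ Real.log X := Real.log_nonneg hX1
  rw [Real.rpow_natCast, Real.norm_of_nonneg (pow_nonneg hl _),
    Real.norm_of_nonneg (Real.rpow_nonneg (by linarith) _)] at hX
  exact hX

theorem t : BVS := by
  intro β U hβ0 hβ
  obtain ⟨B, x0, hB⟩ := H96R2.EQP.weighted 4 (by norm_num) (U + 1)
  obtain ⟨k, hk⟩ := H398R2.BV.sum_pow_omega_div_totient 4 (by norm_num)
  obtain ⟨c, hc⟩ : ∃ c : ℕ, c = 2 ^ k := ⟨_, rfl⟩
  rw [← hc] at hk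
  have e1 := log_pow_lt B (by linarith : 0 < 1 - 2 * β) (by norm_num : (0 : ℝ) < 1 / 2)
  have e2 := log_pow_lt (c + U) (by linarith : 0 < 1 - β) (by positivity : (0 : ℝ) < 1 / 2 ^ (c + 1))
  have e3 : ∀ᶠ X : ℕ in atTop, (2 : ℝ) ≤ Real.log X :=
    (Real.tendsto_log_atTop.comp tendsto_natCast_atTop_atTop).eventually
      (eventually_ge_atTop (2 : ℝ))
  obtain ⟨X0, h0⟩ := eventually_atTop.1 (e1.and (e2.and (e3.and (eventually_ge_atTop (max x0 3)))))
  refine ⟨X0, fun X hX => ?_⟩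
  obtain ⟨f1, f2, f3, f4⟩ := h0 X hX
  have hx0 : x0 ≤ X := (le_max_left _ _).trans f4
  have hx3 : 3 ≤ X := (le_max_right _ _).trans f4
  have hXr : (3 : ℝ) ≤ X := by exact_mod_cast hx3
  have hXp : (0 : ℝ) < X := by linarith
  have hX1 : (1 : ℝ) ≤ X := by linarith
  obtain ⟨M, hM0, hM, hsum⟩ := hB X hx0
  set ℓ := Real.log X with hℓ
  have hℓ0 : 0 < ℓ := by linarith
  refine ⟨M, hM0, fun D hD => ⟨fun q hq a ha => ?_, ?_⟩⟩
  · rw [mem_Icc] at hq
    have hqD : (q : ℝ) ≤ (X : ℝ) ^ β := le_trans (by exact_mod_cast hq.2) hD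
    have hq0 : (0 : ℝ) ≤ q := Nat.cast_nonneg _
    have hqq : (q : ℝ) ^ 2 ≤ (X : ℝ) ^ (2 * β) := by
      calc (q : ℝ) ^ 2 ≤ ((X : ℝ) ^ β) ^ 2 := pow_le_pow_left₀ hq0 hqD 2
        _ = (X : ℝ) ^ (2 * β) := by
            rw [← Real.rpow_natCast, ← Real.rpow_mul hXp.le]
            congr 1
            push_cast
            ring
    have hqX : q ≤ X := by
      have : (q : ℝ) ≤ (X : ℝ) ^ (1 : ℝ) :=
        hqD.trans (Real.rpow_le_rpow_of_exponent_le hX1 (by linarith))
      rw [Real.rpow_one] at this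
      exact_mod_cast this
    refine hM q a hq.1 ha ?_ hqX
    calc ℓ ^ B * (q : ℝ) ^ 2 ≤ (1 / 2 * (X : ℝ) ^ (1 - 2 * β)) * (X : ℝ) ^ (2 * β) := by
          have := Real.rpow_nonneg hXp.le (1 - 2 * β)
          exact mul_le_mul f1 hqq (by positivity) (by positivity)
      _ = 1 / 2 * X := by
          rw [mul_assoc, ← Real.rpow_add hXp]
          have : 1 - 2 * β + 2 * β = 1 := by ring
          rw [this, Real.rpow_one]
      _ < X := by linarith
  · have hDX : D ≤ X := by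
      have : (D : ℝ) ≤ (X : ℝ) ^ (1 : ℝ) :=
        hD.trans (Real.rpow_le_rpow_of_exponent_le hX1 (by linarith))
      rw [Real.rpow_one] at this
      exact_mod_cast this
    have s0 : ES M D = ∑ q ∈ Icc 1 D, (4 : ℝ) ^ q.primeFactors.card * M q
        + ∑ q ∈ Icc 1 D, (4 : ℝ) ^ q.primeFactors.card := by
      unfold ES
      rw [← sum_add_distrib]
      exact sum_congr rfl fun q _ => by ring
    have s1 : ∑ q ∈ Icc 1 D, (4 : ℝ) ^ q.primeFactors.card * M q ≤ X / ℓ ^ (U + 1) := by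
      refine le_trans ?_ hsum
      refine sum_le_sum_of_subset_of_nonneg (Icc_subset_Icc_right hDX) fun q _ _ => ?_
      exact mul_nonneg (by positivity) (hM0 q)
    have s2 : ∑ q ∈ Icc 1 D, (4 : ℝ) ^ q.primeFactors.card ≤ D * (1 + Real.log D) ^ c := by
      refine le_trans ?_ (mul_le_mul_of_nonneg_left (hk D) (Nat.cast_nonneg D))
      rw [mul_sum]
      refine sum_le_sum fun q hq => ?_
      rw [mem_Icc] at hq
      have hφ : (0 : ℝ) < Nat.totient q := by exact_mod_cast Nat.totient_pos.mpr (by omega)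
      have hφD : (Nat.totient q : ℝ) ≤ D := by exact_mod_cast (Nat.totient_le q).trans hq.2
      rw [mul_div_assoc', le_div_iff₀ hφ, mul_comm (D : ℝ)]
      exact mul_le_mul_of_nonneg_left hφD (by positivity)
    have s3 : (D : ℝ) * (1 + Real.log D) ^ c ≤ (X : ℝ) ^ β * (2 * ℓ) ^ c := by
      have hlD : Real.log D ≤ ℓ := by
        rcases Nat.eq_zero_or_pos D with h | h
        · rw [h, Nat.cast_zero, Real.log_zero]; exact hℓ0.le
        · exact Real.log_le_log (by exact_mod_cast h) (by exact_mod_cast hDX)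
      have hlD0 : 0 ≤ Real.log D := Real.log_natCast_nonneg D
      refine mul_le_mul hD (pow_le_pow_left₀ (by linarith) (by linarith) _) (by positivity)
        (Real.rpow_nonneg hXp.le _)
    have s4 : (X : ℝ) ^ β * (2 * ℓ) ^ c ≤ (1 / 2) * (X / ℓ ^ U) := by
      rw [mul_div_assoc', le_div_iff₀ (by positivity)]
      calc (X : ℝ) ^ β * (2 * ℓ) ^ c * ℓ ^ U = (X : ℝ) ^ β * (2 ^ c * ℓ ^ (c + U)) := by
            rw [mul_pow, pow_add]; ring
        _ ≤ (X : ℝ) ^ β * (2 ^ c * (1 / 2 ^ (c + 1) * (X : ℝ) ^ (1 - β))) := by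
            have := Real.rpow_nonneg hXp.le β
            gcongr
        _ = 1 / 2 * ((X : ℝ) ^ β * (X : ℝ) ^ (1 - β)) := by
            rw [pow_succ]
            field_simp
        _ = 1 / 2 * X := by
            rw [← Real.rpow_add hXp]
            have : β + (1 - β) = 1 := by ring
            rw [this, Real.rpow_one]
    have s5 : (X : ℝ) / ℓ ^ (U + 1) ≤ (1 / 2) * (X / ℓ ^ U) := by
      rw [pow_succ, ← div_div]
      have : 0 ≤ (X : ℝ) / ℓ ^ U := by positivity
      rw [div_le_iff₀ hℓ0]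
      nlinarith
    rw [s0]
    linarith

end Pool.Agent.H37PS.BVS
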