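import Pool.Agent.H37PS.Stm

/-!
# Project PS: counting primes with conditions modulo several primes
-/

set_option autoImplicit false

namespace Pool.Agent.H37PS.CNT

open Finset Pool.Agent.H373R2.T7

open Classical in
/-- the Chinese remainder theorem for the number of classes -/
lemma crt_card (R : ℕ → ℕ → Prop) (A : Finset ℕ) : (∀ p ∈ A, p.Prime) →
    ((range (∏ p ∈ A, p)).filter (fun a => ∀ p ∈ A, R p (a % p))).card = ∏ p ∈ A, nuB R p := by
  induction A using Finset.induction_on with
  | empty =>
    intro _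
    rw [prod_empty, prod_empty]
    simp
  | insert p A hp ih =>
    intro hA
    have hpp := hA p (mem_insert_self _ _)
    have hA' : ∀ p' ∈ A, p'.Prime := fun p' h => hA p' (mem_insert_of_mem h)
    have hcop : p.Coprime (∏ p' ∈ A, p') := by
      apply Nat.Coprime.prod_right
      intro p' hp'
      rw [Nat.coprime_primes hpp (hA' p' hp')]
      rintro rfl
      exact hp hp'
    have hq0 : 0 < ∏ p' ∈ A, p' := prod_pos fun p' hp' => (hA' p' hp').pos
    have ih' := ih hA'
    rw [prod_insert hp, prod_insert hp, ← ih']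
    unfold nuB
    rw [← card_product]
    have hdvd : ∀ p' ∈ A, p' ∣ ∏ p' ∈ A, p' := fun p' hp' => dvd_prod_of_mem _ hp'
    generalize ∏ p' ∈ A, p' = q at *
    refine card_nbij' (fun a => (a % p, a % q))
      (fun x => (Nat.chineseRemainder hcop x.1 x.2 : ℕ)) ?_ ?_ ?_ ?_
    · intro a ha
      simp only [coe_filter, mem_range, mem_insert, forall_eq_or_imp, Set.mem_ofPred_eq] at ha
      simp only [coe_product, coe_filter, Set.mem_prod, mem_range, Set.mem_ofPred_eq]
      refine ⟨⟨Nat.mod_lt _ hpp.pos, ha.2.1⟩, Nat.mod_lt _ hq0, fun p' hp' => ?_⟩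
      rw [Nat.mod_mod_of_dvd _ (hdvd p' hp')]
      exact ha.2.2 p' hp'
    · rintro ⟨r, s⟩ hx
      simp only [coe_product, coe_filter, Set.mem_prod, mem_range, Set.mem_ofPred_eq] at hx
      simp only [coe_filter, mem_range, mem_insert, forall_eq_or_imp, Set.mem_ofPred_eq]
      have k1 := (Nat.chineseRemainder hcop r s).2.1
      have k2 := (Nat.chineseRemainder hcop r s).2.2
      refine ⟨Nat.chineseRemainder_lt_mul hcop r s hpp.pos.ne' hq0.ne', ?_, fun p' hp' => ?_⟩
      · have : (Nat.chineseRemainder hcop r s : ℕ) % p = r := by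
          rw [k1, Nat.mod_eq_of_lt hx.1.1]
        rw [this]
        exact hx.1.2
      · have : (Nat.chineseRemainder hcop r s : ℕ) % p' = s % p' := k2.of_dvd (hdvd p' hp')
        rw [this]
        exact hx.2.2 p' hp'
    · intro a ha
      simp only [coe_filter, mem_range, Set.mem_ofPred_eq] at ha
      have k3 : a ≡ (Nat.chineseRemainder hcop (a % p) (a % q) : ℕ) [MOD p * q] :=
        Nat.chineseRemainder_modEq_unique hcop (Nat.mod_modEq _ _).symm (Nat.mod_modEq _ _).symm
      have k4 := Nat.chineseRemainder_lt_mul hcop (a % p) (a % q) hpp.pos.ne' hq0.ne'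
      have := Nat.ModEq.eq_of_lt_of_lt k3 ha.1 k4
      exact this.symm
    · rintro ⟨r, s⟩ hx
      simp only [coe_product, coe_filter, Set.mem_prod, mem_range, Set.mem_ofPred_eq] at hx
      have k1 := (Nat.chineseRemainder hcop r s).2.1
      have k2 := (Nat.chineseRemainder hcop r s).2.2
      simp only [Prod.mk.injEq]
      constructor
      · rw [k1, Nat.mod_eq_of_lt hx.1.1]
      · rw [k2, Nat.mod_eq_of_lt hx.2.1]

lemma totient_prod (A : Finset ℕ) : (∀ p ∈ A, p.Prime) →
    (Nat.totient (∏ p ∈ A, p) : ℝ) = ∏ p ∈ A, ((p : ℝ) - 1) := by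
  induction A using Finset.induction_on with
  | empty => intro _; simp
  | insert p A hp ih =>
    intro hA
    have hpp := hA p (mem_insert_self _ _)
    have hA' : ∀ p' ∈ A, p'.Prime := fun p' h => hA p' (mem_insert_of_mem h)
    have hcop : p.Coprime (∏ p' ∈ A, p') := by
      apply Nat.Coprime.prod_right
      intro p' hp'
      rw [Nat.coprime_primes hpp (hA' p' hp')]
      rintro rfl
      exact hp hp'
    rw [prod_insert hp, prod_insert hp, Nat.totient_mul hcop, Nat.totient_prime hpp, Nat.cast_mul,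
      ih hA', Nat.cast_sub hpp.one_lt.le, Nat.cast_one]

lemma coprime_iff (A : Finset ℕ) (hA : ∀ p ∈ A, p.Prime) (a : ℕ) :
    a.Coprime (∏ p ∈ A, p) ↔ ∀ p ∈ A, a % p ≠ 0 := by
  rw [Nat.coprime_prod_right_iff]
  refine forall₂_congr fun p hp => ?_
  rw [Nat.coprime_comm, (hA p hp).coprime_iff_not_dvd, Nat.dvd_iff_mod_eq_zero]

theorem t : Pool.Agent.H37PS.CNT := by
  classical
  intro X A R m hA hm hE
  set q := ∏ p ∈ A, p with hq
  have hq0 : 0 < q := prod_pos fun p' hp' => (hA p' hp').pos
  have hdvd : ∀ p ∈ A, p ∣ q := fun p' hp' => dvd_prod_of_mem _ hp'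
  set S := (range q).filter (fun a => ∀ p ∈ A, R p (a % p)) with hS
  have hScard : (S.card : ℝ) = ∏ p ∈ A, (nuB R p : ℝ) := by
    rw [hS, hq]
    have := crt_card R A hA
    rw [← Nat.cast_prod, ← this]
  have hS'card : (((S.filter (fun a => a.Coprime q)).card : ℕ) : ℝ) = ∏ p ∈ A, (nS R p : ℝ) := by
    have h1 := crt_card (fun p r => r ≠ 0 ∧ R p r) A hA
    have h2 : S.filter (fun a => a.Coprime q) =
        (range (∏ p ∈ A, p)).filter (fun a => ∀ p ∈ A, (a % p ≠ 0 ∧ R p (a % p))) := by
      ext a
      rw [hS, mem_filter, mem_filter, mem_filter, hq, coprime_iff A hA]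
      constructor
      · rintro ⟨⟨k1, k2⟩, k3⟩
        exact ⟨k1, fun p hp => ⟨k3 p hp, k2 p hp⟩⟩
      · rintro ⟨k1, k2⟩
        exact ⟨⟨k1, fun p hp => (k2 p hp).2⟩, fun p hp => (k2 p hp).1⟩
    have h3 : ∀ p, nuB (fun p r => r ≠ 0 ∧ R p r) p = nS R p := by
      intro p
      unfold nuB nS
      apply congrArg Finset.card
      ext r
      simp only [mem_filter]
    rw [h2, ← Nat.cast_prod]
    congr 1
    refine Eq.trans ?_ (h1.trans (prod_congr rfl fun p _ => h3 p))
    apply congrArg Finset.card
    ext a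
    simp only [mem_filter]
  have hcount : (((Icc 1 X).filter (fun n => n.Prime ∧ ∀ p ∈ A, R p (n % p))).card : ℝ) =
      ∑ a ∈ S, H343E.piAP X q a := by
    rw [card_eq_sum_card_fiberwise (f := fun n => n % q) (t := S)]
    · push_cast
      refine sum_congr rfl fun a ha => ?_
      rw [hS, mem_filter, mem_range] at ha
      unfold H343E.piAP
      congr 2
      ext n
      simp only [mem_filter]
      have hmod : n ≡ a [MOD q] ↔ n % q = a := by
        unfold Nat.ModEq
        rw [Nat.mod_eq_of_lt ha.1]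
      rw [hmod]
      constructor
      · rintro ⟨⟨k1, k2, k3⟩, k4⟩
        exact ⟨k1, k2, k4⟩
      · rintro ⟨k1, k2, k4⟩
        refine ⟨⟨k1, k2, fun p hp => ?_⟩, k4⟩
        rw [← Nat.mod_mod_of_dvd n (hdvd p hp), k4]
        exact ha.2 p hp
    · intro n hn
      simp only [coe_filter, mem_Icc, Set.mem_ofPred_eq] at hn
      rw [hS]
      simp only [coe_filter, mem_range, Set.mem_ofPred_eq]
      refine ⟨Nat.mod_lt _ hq0, fun p hp => ?_⟩
      rw [Nat.mod_mod_of_dvd n (hdvd p hp)]
      exact hn.2.2 p hp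
  have hmain : H343E.pi1 X * ∏ p ∈ A, ((nS R p : ℝ) / ((p : ℝ) - 1)) =
      ∑ a ∈ S, (if a.Coprime q then H343E.pi1 X / (Nat.totient q : ℝ) else 0) := by
    rw [← sum_filter, sum_const, nsmul_eq_mul, hS'card, hq, totient_prod A hA, prod_div_distrib]
    ring
  rw [hcount, hmain, ← sum_sub_distrib, ← hScard]
  refine (abs_sum_le_sum_abs _ _).trans ?_
  calc ∑ a ∈ S, |H343E.piAP X q a - (if a.Coprime q then H343E.pi1 X / (Nat.totient q : ℝ) else 0)|
      ≤ ∑ a ∈ S, (m + 1) := by
        refine sum_le_sum fun a ha => ?_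
        split_ifs with hc
        · linarith [hE a hc]
        · rw [sub_zero]
          have h1 : H343E.piAP X q a ≤ 1 := by
            have hex : ∃ p ∈ A, p ∣ a := by
              by_contra hcon
              apply hc
              rw [hq, coprime_iff A hA]
              intro p hp h0
              exact hcon ⟨p, hp, Nat.dvd_of_mod_eq_zero h0⟩
            obtain ⟨p, hp, hpa⟩ := hex
            unfold H343E.piAP
            have h2 : (Icc 1 X).filter (fun n => n.Prime ∧ n ≡ a [MOD q]) ⊆ {p} := by
              intro n hn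
              rw [mem_filter] at hn
              rw [mem_singleton]
              have h3 : n ≡ a [MOD p] := hn.2.2.of_dvd (hdvd p hp)
              have h4 : p ∣ n := (h3.dvd_iff dvd_rfl).2 hpa
              exact ((Nat.prime_dvd_prime_iff_eq (hA p hp) hn.2.1).1 h4).symm
            have h5 := card_le_card h2
            rw [card_singleton] at h5
            exact_mod_cast h5
          have h2 : 0 ≤ H343E.piAP X q a := by
            unfold H343E.piAP
            exact Nat.cast_nonneg _
          rw [abs_of_nonneg h2]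
          linarith
    _ = S.card * (m + 1) := by rw [sum_const, nsmul_eq_mul]

end Pool.Agent.H37PS.CNT
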