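import Pool.Agent.H37PS.Stm
import Pool.Agent.H37EP.Lem2
import Pool.Agent.H37SQ.Main3

/-!
# Integers with few prime factors above the squares of primes: lemmas for the assembly
-/

set_option autoImplicit false

namespace Pool.Agent.H37PS

open Finset Filter Pool.Agent.H373R2.T7 Pool.Agent.Y486.SQ Pool.Agent.Y882 Pool.Agent.W23.DC Pool.Agent.Y882.KW
open Pool.Agent.H37SQ
open Pool.Agent.Y862.SQ (rH leg z2 V1)

lemma pi1_eq (x : ℕ) : H343E.pi1 x = Nat.primeCounting x := by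
  unfold H343E.pi1
  rw [Nat.primeCounting, Nat.primeCounting', Nat.count_eq_card_filter_range]
  congr 2
  ext p
  simp only [mem_filter, mem_Icc, mem_range]
  constructor
  · rintro ⟨⟨h1, h2⟩, h3⟩; exact ⟨by omega, h3⟩
  · rintro ⟨h1, h2⟩; exact ⟨⟨h2.one_le, by omega⟩, h2⟩

lemma pi_low : ∀ᶠ X : ℕ in atTop, (X : ℝ) / (2 * Real.log X) ≤ H343E.pi1 X := by
  have h0 := ev_log 1 100 1 (by norm_num) (by norm_num)
  filter_upwards [h0, eventually_ge_atTop 3] with X hX hX3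
  have hXr : (3 : ℝ) ≤ X := by exact_mod_cast hX3
  have hX0 : (0 : ℝ) < X := by linarith
  have hl : 0 < Real.log X := Real.log_pos (by linarith)
  have h1 := Chebyshev.pi_ge X
  rw [← pi1_eq] at h1
  refine le_trans ?_ h1
  rw [div_le_div_iff₀ (by positivity) hl]
  rw [pow_one, Real.rpow_one] at hX
  have h2 : Real.log ((X : ℝ) + 1) ≤ 2 * Real.log X := by
    have h3 : Real.log ((X : ℝ) + 1) ≤ Real.log ((X : ℝ) ^ 2) := by
      apply Real.log_le_log (by linarith)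
      nlinarith
    rw [Real.log_pow] at h3
    exact_mod_cast h3
  have h4 := Real.log_two_gt_d9
  have h5 : (X : ℝ) ≤ (X * Real.log 2 - Real.log (X + 1)) * 2 := by
    have h6 : (X : ℝ) * 0.6931471803 ≤ X * Real.log 2 := mul_le_mul_of_nonneg_left h4.le hX0.le
    linarith
  calc (X : ℝ) * Real.log X ≤ ((X * Real.log 2 - Real.log (X + 1)) * 2) * Real.log X :=
        mul_le_mul_of_nonneg_right h5 hl.le
    _ = _ := by ring

/-- many large values from the first two moments -/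
lemma manyS (A0 : Finset ℕ) (f : ℕ → ℝ) (s q t : ℝ) (hq : 0 < q)
    (hs : 0 ≤ s) (ht : 0 ≤ t) (h1 : s + A0.card * t ≤ ∑ n ∈ A0, f n) (h2 : ∑ n ∈ A0, f n ^ 2 ≤ q) :
    s ^ 2 / q ≤ ((A0.filter (fun n => 0 < f n ∧ t ≤ f n)).card : ℝ) := by
  classical
  set A := A0.filter (fun n => 0 < f n ∧ t ≤ f n) with hA
  have h3 : ∑ n ∈ A0, f n ≤ ∑ n ∈ A, f n + A0.card * t := by
    have e := sum_filter_add_sum_filter_not A0 (fun n => 0 < f n ∧ t ≤ f n) f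
    rw [← hA] at e
    rw [← e]
    apply add_le_add le_rfl
    calc ∑ n ∈ A0.filter (fun n => ¬ (0 < f n ∧ t ≤ f n)), f n ≤
        ∑ _n ∈ A0.filter (fun n => ¬ (0 < f n ∧ t ≤ f n)), t := by
          apply sum_le_sum
          intro n hn
          have h := (mem_filter.1 hn).2
          by_cases h0 : 0 < f n
          · push Not at h
            exact (h h0).le
          · linarith [not_lt.1 h0]
      _ ≤ ∑ _n ∈ A0, t := sum_le_sum_of_subset_of_nonneg (filter_subset _ _) fun _ _ _ => ht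
      _ = A0.card * t := by rw [sum_const, nsmul_eq_mul]
  have h4 : s ≤ ∑ n ∈ A, f n := by linarith
  have h5 : (∑ n ∈ A, f n) ^ 2 ≤ A.card * ∑ n ∈ A, f n ^ 2 := sq_sum_le_card_mul_sum_sq
  have h6 : ∑ n ∈ A, f n ^ 2 ≤ q :=
    (sum_le_sum_of_subset_of_nonneg (filter_subset _ _) fun _ _ _ => sq_nonneg _).trans h2
  rw [div_le_iff₀ hq]
  calc s ^ 2 ≤ (∑ n ∈ A, f n) ^ 2 := pow_le_pow_left₀ hs h4 2
    _ ≤ A.card * ∑ n ∈ A, f n ^ 2 := h5
    _ ≤ A.card * q := mul_le_mul_of_nonneg_left h6 (Nat.cast_nonneg _)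

open Classical in
/-- the number of the almost primes `m ^ 2 + j` with `j ∈ J` -/
noncomputable def cJ (r : ℕ) (w : ℝ) (J : Finset ℕ) (m : ℕ) : ℕ :=
  (J.filter (fun j : ℕ => (m ^ 2 + j).primeFactorsList.length ≤ r ∧
    ∀ p : ℕ, p.Prime → p ∣ m ^ 2 + j → w ≤ p)).card

lemma cJ_le_cn (r : ℕ) (w : ℝ) (J : Finset ℕ) (T m : ℕ) (hJ : J ⊆ Icc 1 T) : cJ r w J m ≤ cn r w T m := by
  classical
  unfold cJ cn
  exact card_le_card (filter_subset_filter _ hJ)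

lemma cJ_le_ok (r : ℕ) (w : ℝ) (J : Finset ℕ) (y n : ℕ) (hw : (y : ℝ) < w) :
    (cJ r w J n : ℝ) ≤ ∑ j ∈ J, ok 0 y j n := by
  classical
  unfold cJ
  have e : ((J.filter (fun j : ℕ => (n ^ 2 + j).primeFactorsList.length ≤ r ∧
      ∀ p : ℕ, p.Prime → p ∣ n ^ 2 + j → w ≤ p)).card : ℝ) =
      ∑ j ∈ J, (if (n ^ 2 + j).primeFactorsList.length ≤ r ∧
        ∀ p : ℕ, p.Prime → p ∣ n ^ 2 + j → w ≤ p then (1 : ℝ) else 0) := by
    rw [Finset.sum_ite, sum_const_zero, add_zero, sum_const, nsmul_eq_mul, mul_one]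
  rw [e]
  apply sum_le_sum
  intro j _
  split_ifs with h
  · unfold ok
    rw [if_pos]
    intro p hp hd
    have hp2 : p.Prime ∧ p ≤ y := by
      unfold pz at hp
      simp only [mem_filter, mem_Icc, mem_range] at hp
      constructor
      · exact hp.2
      · omega
    have h1 := h.2 p hp2.1 hd
    have h2 : (p : ℝ) ≤ y := by exact_mod_cast hp2.2
    linarith
  · exact ok_nonneg _ _ _ _

open Classical in
/-- the number of the almost primes from the weights -/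
lemma detJ (Y : ℕ) (hY : 2 ≤ Y) (ε₁ ζ υ lam S : ℝ) (r : ℕ) (hζυ : ζ ≤ υ) (hυ0 : 0 < υ) (hυ1 : υ ≤ 1)
    (hlam : 0 < lam) (hr : 1 / lam + S / υ ≤ r + 1) (y : ℕ)
    (hy : y = ⌈(Y : ℝ) ^ ε₁⌉₊ - 1) (c : Finset ℕ → ℝ)
    (hc : ∀ N : ℕ, VV (pr Y ε₁ υ) c (fun p => if p ∣ N then 1 else 0) ≤ WB Y ε₁ ζ υ lam (lam / υ) N)
    (J : Finset ℕ) (T n : ℕ) (hJ : J ⊆ Icc 1 T) (hN : ∀ j ∈ Icc 1 T, (((n + 0) ^ 2 + j : ℕ) : ℝ) ≤ (Y : ℝ) ^ S)
    (hsq : ∀ j ∈ Icc 1 T, ∀ q ∈ pr Y ζ υ, ¬ q ^ 2 ∣ (n + 0) ^ 2 + j) :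
    ∑ j ∈ J, ok 0 y j n * wj (pr Y ε₁ υ) c 0 j n ≤ cJ r ((Y : ℝ) ^ ζ) J n := by
  calc ∑ j ∈ J, ok 0 y j n * wj (pr Y ε₁ υ) c 0 j n ≤
      ∑ j ∈ J, (if 0 < WW Y ζ υ lam (lam / υ) ((n + 0) ^ 2 + j) then (1 : ℝ) else 0) :=
        sum_le_sum fun j _ => ok_w_le Y hY ε₁ ζ υ lam (lam / υ) (by positivity)
          (by rw [div_mul_cancel₀ _ hυ0.ne']) y hy c hc 0 j n
    _ = ((J.filter (fun j => 0 < WW Y ζ υ lam (lam / υ) ((n + 0) ^ 2 + j))).card : ℝ) := by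
        rw [Finset.sum_ite, sum_const_zero, add_zero, sum_const, nsmul_eq_mul, mul_one]
    _ ≤ cJ r ((Y : ℝ) ^ ζ) J n := by
        unfold cJ
        apply Nat.cast_le.2
        apply card_le_card
        intro j hj
        rw [mem_filter] at hj ⊢
        have hj0 := hJ hj.1
        have hj1 := (mem_Icc.1 hj0).1
        exact ⟨hj.1, almost Y hY ζ υ lam S r hζυ hυ0 hυ1 hlam hr _ (by omega) (hN j hj0) hj.2 (hsq j hj0)⟩

lemma e1P (X T Sc C a1 ly E1 l κ g p ν : ℝ) (hl : 1 ≤ l) (hX : 0 < X) (hT : 0 < T) (hS0 : 0 ≤ Sc) (hST : Sc ≤ T)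
    (hly0 : 0 ≤ ly) (hly : ly ≤ l) (hE0 : 0 ≤ E1) (hE : E1 ≤ X / l ^ 6) (hp : X / (2 * l) ≤ p)
    (hν : κ * T / l ≤ ν) (hC : 0 ≤ C) (ha1 : 0 ≤ a1) (hκ : 0 < κ) (hg : 0 < g)
    (v : 64 * a1 * C / (g * κ) ≤ l) : Sc * (a1 * (C * ly * E1)) ≤ g / 32 * (p * ν) := by
  have hl0 : 0 < l := by linarith
  have h1 : Sc * (a1 * (C * ly * E1)) ≤ T * (a1 * (C * l * (X / l ^ 6))) := by gcongr
  have h2 : (X / (2 * l)) * (κ * T / l) ≤ p * ν := mul_le_mul hp hν (by positivity) (le_trans (by positivity) hp)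
  rw [div_le_iff₀ (by positivity)] at v
  have h3 : 64 * a1 * C ≤ g * κ * l ^ 3 := by
    have h4 : l ≤ l ^ 3 := le_self_pow₀ hl (by norm_num)
    have h5 : g * κ * l ≤ g * κ * l ^ 3 := mul_le_mul_of_nonneg_left h4 (by positivity)
    linarith
  have h4 : T * (a1 * (C * l * (X / l ^ 6))) ≤ g / 32 * ((X / (2 * l)) * (κ * T / l)) := by
    have e1 : T * (a1 * (C * l * (X / l ^ 6))) = (64 * a1 * C) * (X * T / (64 * l ^ 5)) := by field_simp
    have e2 : g / 32 * ((X / (2 * l)) * (κ * T / l)) = (g * κ * l ^ 3) * (X * T / (64 * l ^ 5)) := by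
      field_simp
      ring
    rw [e1, e2]
    exact mul_le_mul_of_nonneg_right h3 (by positivity)
  refine h1.trans (h4.trans ?_)
  exact mul_le_mul_of_nonneg_left h2 (by positivity)

lemma e2P (X T Sc C ly E1 l κ p ν : ℝ) (hl : 1 ≤ l) (hX : 0 < X) (hT : 0 < T) (hS0 : 0 ≤ Sc) (hST : Sc ≤ T)
    (hly0 : 0 ≤ ly) (hly : ly ≤ l) (hE0 : 0 ≤ E1) (hE : E1 ≤ X / l ^ 6) (hp : X / (2 * l) ≤ p)
    (hν : κ * T / l ≤ ν) (hC : 0 ≤ C) (hκ : 0 < κ)
    (v : 2 * C / κ ^ 2 ≤ l) : Sc ^ 2 * (C * ly * E1) ≤ p * ν ^ 2 := by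
  have hl0 : 0 < l := by linarith
  have h1 : Sc ^ 2 * (C * ly * E1) ≤ T ^ 2 * (C * l * (X / l ^ 6)) := by gcongr
  have h2 : (X / (2 * l)) * (κ * T / l) ^ 2 ≤ p * ν ^ 2 :=
    mul_le_mul hp (pow_le_pow_left₀ (by positivity) hν 2) (by positivity) (le_trans (by positivity) hp)
  rw [div_le_iff₀ (by positivity)] at v
  have h3 : 2 * C ≤ κ ^ 2 * l ^ 2 := by
    have h4 : l ≤ l ^ 2 := le_self_pow₀ hl (by norm_num)
    have h5 : κ ^ 2 * l ≤ κ ^ 2 * l ^ 2 := mul_le_mul_of_nonneg_left h4 (by positivity)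
    linarith
  refine h1.trans (le_trans ?_ h2)
  have e1 : T ^ 2 * (C * l * (X / l ^ 6)) = (2 * C) * (X * T ^ 2 / (2 * l ^ 5)) := by field_simp
  have e2 : (X / (2 * l)) * (κ * T / l) ^ 2 = (κ ^ 2 * l ^ 2) * (X * T ^ 2 / (2 * l ^ 5)) := by
    field_simp
  rw [e1, e2]
  exact mul_le_mul_of_nonneg_right h3 (by positivity)

lemma e3P (X : ℕ) (T B Yζ Yυ l κ g p ν ζ υ Bc : ℝ) (hX1 : (1 : ℝ) ≤ X) (hl : 1 ≤ l) (hT : 0 < T) (hTl : T ≤ l ^ 49)
    (hB : 0 < B) (h1 : Yζ = (X : ℝ) ^ (2 * ζ)) (h2 : Yυ = (X : ℝ) ^ (2 * υ)) (hp : X / (2 * l) ≤ p)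
    (hν : κ * T / l ≤ ν) (hκ : 0 < κ) (hg : 0 < g) (v12 : 512 * B / (g * κ) * l ^ 51 ≤ (X : ℝ) ^ (2 * ζ))
    (v13 : 256 * B / (g * κ) * l ^ 51 ≤ (X : ℝ) ^ (1 - 2 * υ)) (hBc : Bc ≤ T * (4 * X / Yζ + 2 * Yυ)) :
    Bc * (T * B) ≤ g / 32 * (p * ν) := by
  have hX0 : (0 : ℝ) < X := by linarith
  have hl0 : 0 < l := by linarith
  rw [h1, h2] at hBc
  have hXζ : (0 : ℝ) < (X : ℝ) ^ (2 * ζ) := by positivity
  have hTl2 : T * l ^ 2 ≤ l ^ 51 := by
    calc T * l ^ 2 ≤ l ^ 49 * l ^ 2 := mul_le_mul_of_nonneg_right hTl (by positivity)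
      _ = l ^ 51 := by ring
  have hpν : (X / (2 * l)) * (κ * T / l) ≤ p * ν := mul_le_mul hp hν (by positivity) (le_trans (by positivity) hp)
  have k1 : T * B * (4 * X / (X : ℝ) ^ (2 * ζ)) ≤ g * κ * X / (128 * l ^ 2) := by
    have h1 : 512 * B * l ^ 51 ≤ g * κ * (X : ℝ) ^ (2 * ζ) := by
      have := mul_le_mul_of_nonneg_left v12 (show 0 ≤ g * κ by positivity)
      have e : g * κ * (512 * B / (g * κ) * l ^ 51) = 512 * B * l ^ 51 := by field_simp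
      rwa [e] at this
    have h2 : 512 * B * (T * l ^ 2) ≤ g * κ * (X : ℝ) ^ (2 * ζ) :=
      (mul_le_mul_of_nonneg_left hTl2 (by positivity)).trans h1
    rw [mul_div_assoc', div_le_div_iff₀ hXζ (by positivity)]
    have h3 := mul_le_mul_of_nonneg_right h2 hX0.le
    linarith
  have k2 : T * B * (2 * (X : ℝ) ^ (2 * υ)) ≤ g * κ * X / (128 * l ^ 2) := by
    have h1 : 256 * B * l ^ 51 ≤ g * κ * (X : ℝ) ^ (1 - 2 * υ) := by
      have := mul_le_mul_of_nonneg_left v13 (show 0 ≤ g * κ by positivity)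
      have e : g * κ * (256 * B / (g * κ) * l ^ 51) = 256 * B * l ^ 51 := by field_simp
      rwa [e] at this
    have h2 : 256 * B * (T * l ^ 2) ≤ g * κ * (X : ℝ) ^ (1 - 2 * υ) :=
      (mul_le_mul_of_nonneg_left hTl2 (by positivity)).trans h1
    have h3 : 256 * B * (T * l ^ 2) * (X : ℝ) ^ (2 * υ) ≤ g * κ * X := by
      calc 256 * B * (T * l ^ 2) * (X : ℝ) ^ (2 * υ) ≤ g * κ * (X : ℝ) ^ (1 - 2 * υ) * (X : ℝ) ^ (2 * υ) :=
            mul_le_mul_of_nonneg_right h2 (by positivity)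
        _ = g * κ * X := by
            rw [mul_assoc, ← Real.rpow_add hX0]
            have e : (1 - 2 * υ + 2 * υ : ℝ) = 1 := by ring
            rw [e, Real.rpow_one]
    rw [le_div_iff₀ (by positivity)]
    linarith
  have k3 : T * B * (4 * X / (X : ℝ) ^ (2 * ζ) + 2 * (X : ℝ) ^ (2 * υ)) ≤ g * κ * X / (64 * l ^ 2) := by
    have e : g * κ * X / (64 * l ^ 2) = g * κ * X / (128 * l ^ 2) + g * κ * X / (128 * l ^ 2) := by
      field_simp
      ring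
    rw [mul_add, e]
    exact add_le_add k1 k2
  calc Bc * (T * B) ≤ T * (4 * X / (X : ℝ) ^ (2 * ζ) + 2 * (X : ℝ) ^ (2 * υ)) * (T * B) :=
        mul_le_mul_of_nonneg_right hBc (by positivity)
    _ = T * (T * B * (4 * X / (X : ℝ) ^ (2 * ζ) + 2 * (X : ℝ) ^ (2 * υ))) := by ring
    _ ≤ T * (g * κ * X / (64 * l ^ 2)) := mul_le_mul_of_nonneg_left k3 hT.le
    _ = g / 32 * ((X / (2 * l)) * (κ * T / l)) := by
        field_simp
        ring
    _ ≤ g / 32 * (p * ν) := mul_le_mul_of_nonneg_left hpν (by positivity)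

/-- the last step -/
lemma e4P (X T l κ g K p ν N : ℝ) (hX : 0 < X) (hT : 0 < T) (hl : 0 < l) (hκ : 0 < κ) (hg : 0 < g) (hK : 0 < K)
    (hp : X / (2 * l) ≤ p) (hν : κ * T / l ≤ ν)
    (hN : (g / 32 * (p * ν)) ^ 2 / (K * (p * (ν ^ 2 + ν))) ≤ N) :
    g ^ 2 / (2048 * K) * min κ 1 * (X / l) * (T / (T + l)) ≤ N := by
  have hp0 : 0 < p := lt_of_lt_of_le (by positivity) hp
  have hν0 : 0 < ν := lt_of_lt_of_le (by positivity) hν
  refine le_trans ?_ hN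
  have e : (g / 32 * (p * ν)) ^ 2 / (K * (p * (ν ^ 2 + ν))) = g ^ 2 / (1024 * K) * p * (ν / (ν + 1)) := by
    have : ν + 1 ≠ 0 := by positivity
    field_simp
    ring
  rw [e]
  have hm : 0 < min κ 1 := lt_min hκ one_pos
  have hfrac : min κ 1 * (T / (T + l)) ≤ ν / (ν + 1) := by
    rw [mul_div_assoc', div_le_div_iff₀ (by positivity) (by positivity)]
    have h1 : min κ 1 * T ≤ ν * l := by
      rw [div_le_iff₀ hl] at hν
      exact (mul_le_mul_of_nonneg_right (min_le_left κ 1) hT.le).trans hν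
    have h2 : min κ 1 * T * ν ≤ ν * T := by
      have h3 := mul_le_mul_of_nonneg_right (min_le_right κ 1) (show 0 ≤ T * ν by positivity)
      linarith
    linarith
  calc g ^ 2 / (2048 * K) * min κ 1 * (X / l) * (T / (T + l)) =
      g ^ 2 / (1024 * K) * (X / (2 * l)) * (min κ 1 * (T / (T + l))) := by
        field_simp
        ring
    _ ≤ g ^ 2 / (1024 * K) * p * (ν / (ν + 1)) := by gcongr

end Pool.Agent.H37PS
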