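import Pool.Agent.H37PS.Stm

/-!
# Stub M1P: the first moment of the weights over primes
-/

set_option autoImplicit false

namespace Pool.Agent.H37PS

open Finset Pool.Agent.H373R2.T7 Pool.Agent.Y862.SQ Pool.Agent.Y486.SQ Pool.Agent.Y882 Pool.Agent.W23.DC
open Pool.Agent.H37SQ

namespace M1P

/-- the density of `E` -/
noncomputable def gE (j : ℕ) (E : Finset ℕ) : ℝ := ∏ p ∈ E, ((rS {j} p : ℝ) / ((p : ℝ) - 1))

lemma rS_le (H : Finset ℕ) (p : ℕ) (hp : 1 ≤ p) : (rS H p : ℝ) ≤ (p : ℝ) - 1 := by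
  classical
  have h1 : rS H p ≤ ((range p).erase 0).card := by
    unfold rS nS
    apply card_le_card
    intro r hr
    rw [mem_filter] at hr
    rw [mem_erase]
    exact ⟨hr.2.1, hr.1⟩
  rw [card_erase_of_mem (by rw [mem_range]; omega), card_range] at h1
  have h2 : (rS H p : ℝ) ≤ ((p - 1 : ℕ) : ℝ) := by exact_mod_cast h1
  rw [Nat.cast_sub hp] at h2
  simpa using h2

lemma VS_nonneg (H : Finset ℕ) (y : ℕ) : 0 ≤ VS H y := by
  unfold VS
  apply prod_nonneg
  intro p hp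
  unfold pz at hp
  rw [mem_filter, mem_Icc] at hp
  have h2 := hp.2.two_le
  have h3 : (2 : ℝ) ≤ p := by exact_mod_cast h2
  have h1 := rS_le H p hp.1.1
  have h4 : (rS H p : ℝ) / ((p : ℝ) - 1) ≤ 1 := by
    rw [div_le_one (by linarith)]
    exact h1
  linarith

lemma gE_nonneg (j : ℕ) (E : Finset ℕ) (hE : ∀ p ∈ E, p.Prime) : 0 ≤ gE j E := by
  unfold gE
  apply prod_nonneg
  intro p hp
  have h3 : (2 : ℝ) ≤ p := by exact_mod_cast (hE p hp).two_le
  apply div_nonneg (Nat.cast_nonneg _)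
  linarith

lemma sum_gE (P : Finset ℕ) (j : ℕ) : ∑ E ∈ P.powerset, gE j E = PiS P j := by
  unfold gE PiS
  rw [Finset.prod_one_add]

open Classical in
/-- the count for one set of primes -/
lemma sum_ind (X y j : ℕ) (E : Finset ℕ) :
    ∑ n ∈ (Icc 1 X).filter Nat.Prime, ok 0 y j n * H37SQ.ind 0 j E n =
      (((Icc 1 X).filter (fun n => n.Prime ∧ (∀ p ∈ pz y, ¬ Qz 0 {j} p n) ∧
        ∀ p ∈ E, Qz 0 {j} p (n % p))).card : ℝ) := by
  rw [card_filter, sum_filter]
  push_cast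
  apply sum_congr rfl
  intro n _
  have e1 : (∀ p ∈ pz y, ¬ Qz 0 {j} p n) ↔ (∀ p ∈ pz y, ¬ p ∣ (n + 0) ^ 2 + j) :=
    forall₂_congr fun p _ => not_congr (Qz_single 0 j p n)
  have e2 : (∀ p ∈ E, Qz 0 {j} p (n % p)) ↔ (∀ p ∈ E, p ∣ (n + 0) ^ 2 + j) :=
    forall₂_congr fun p _ => (Qz_per 0 {j} p n).symm.trans (Qz_single 0 j p n)
  unfold ok Pool.Agent.H37SQ.ind
  by_cases h1 : n.Prime
  · by_cases h2 : ∀ p ∈ pz y, ¬ p ∣ (n + 0) ^ 2 + j
    · by_cases h3 : ∀ p ∈ E, p ∣ (n + 0) ^ 2 + j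
      · rw [if_pos h1, if_pos h2, if_pos h3, if_pos ⟨h1, e1.2 h2, e2.2 h3⟩, one_mul]
      · rw [if_pos h1, if_pos h2, if_neg h3, if_neg (fun h => h3 (e2.1 h.2.2)), mul_zero]
    · rw [if_pos h1, if_neg h2, zero_mul, if_neg (fun h => h2 (e1.1 h.2.1))]
  · rw [if_neg h1, if_neg (fun h => h1 h.1)]

lemma prod_primes_factors (E : Finset ℕ) (hE : ∀ p ∈ E, p.Prime) : (∏ p ∈ E, p).primeFactors = E :=
  Nat.primeFactors_prod hE

lemma prod_sqf (E : Finset ℕ) (hE : ∀ p ∈ E, p.Prime) : Squarefree (∏ p ∈ E, p) := by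
  classical
  induction E using Finset.induction_on with
  | empty => simp
  | insert p s hps ih =>
    rw [prod_insert hps]
    have hs : ∀ q ∈ s, q.Prime := fun q hq => hE q (mem_insert_of_mem hq)
    have hp := hE p (mem_insert_self _ _)
    rw [Nat.squarefree_mul]
    · exact ⟨hp.squarefree, ih hs⟩
    · rw [Nat.Prime.coprime_iff_not_dvd hp]
      intro hd
      have h1 : p ∈ (∏ q ∈ s, q).primeFactors := by
        rw [Nat.mem_primeFactors]
        exact ⟨hp, hd, prod_ne_zero_iff.2 fun q hq => (hs q hq).ne_zero⟩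
      rw [prod_primes_factors s hs] at h1
      exact hps h1

lemma cop (y D : ℕ) (E : Finset ℕ) (hE : ∀ p ∈ E, p.Prime ∧ y < p) (e : ℕ) (he : e ∈ SQe y D) :
    Nat.Coprime e (∏ p ∈ E, p) := by
  unfold SQe at he
  rw [mem_filter, mem_Icc] at he
  rw [Nat.coprime_prod_right_iff]
  intro p hp
  rw [Nat.coprime_comm, Nat.Prime.coprime_iff_not_dvd (hE p hp).1]
  intro hd
  have := he.2.2 p (Nat.mem_primeFactors.2 ⟨(hE p hp).1, hd, by omega⟩)
  have := (hE p hp).2
  omega

/-- the double sum of the errors -/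
lemma double (y D L : ℕ) (P : Finset ℕ) (hP : ∀ p ∈ P, p.Prime ∧ y < p) (Mf : ℕ → ℝ) (hMf : ∀ q, 0 ≤ Mf q) :
    ∑ E ∈ P.powerset.filter (fun E => ∏ p ∈ E, p ≤ L), (2 : ℝ) ^ E.card *
      ∑ e ∈ SQe y D, (4 : ℝ) ^ e.primeFactors.card * (Mf (e * ∏ p ∈ E, p) + 1) ≤ ES Mf (D * L) := by
  classical
  have hL : ∀ E ∈ P.powerset.filter (fun E => ∏ p ∈ E, p ≤ L), (∀ p ∈ E, p.Prime ∧ y < p) ∧
      1 ≤ ∏ p ∈ E, p ∧ ∏ p ∈ E, p ≤ L := by
    intro E hE
    rw [mem_filter, mem_powerset] at hE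
    refine ⟨fun p hp => hP p (hE.1 hp), ?_, hE.2⟩
    exact Nat.pos_of_ne_zero (prod_ne_zero_iff.2 fun p hp => (hP p (hE.1 hp)).1.ne_zero)
  calc ∑ E ∈ P.powerset.filter (fun E => ∏ p ∈ E, p ≤ L), (2 : ℝ) ^ E.card *
      ∑ e ∈ SQe y D, (4 : ℝ) ^ e.primeFactors.card * (Mf (e * ∏ p ∈ E, p) + 1)
      ≤ ∑ E ∈ P.powerset.filter (fun E => ∏ p ∈ E, p ≤ L), ∑ e ∈ SQe y D,
        (4 : ℝ) ^ (e * ∏ p ∈ E, p).primeFactors.card * (Mf (e * ∏ p ∈ E, p) + 1) := by
        apply sum_le_sum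
        intro E hE
        obtain ⟨h1, h2, h3⟩ := hL E hE
        rw [mul_sum]
        apply sum_le_sum
        intro e he
        have hc := cop y D E h1 e he
        rw [hc.primeFactors_mul, card_union_of_disjoint hc.disjoint_primeFactors,
          prod_primes_factors E (fun p hp => (h1 p hp).1), pow_add, ← mul_assoc]
        apply mul_le_mul_of_nonneg_right _ (by have := hMf (e * ∏ p ∈ E, p); linarith)
        rw [mul_comm]
        apply mul_le_mul_of_nonneg_left _ (by positivity)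
        exact pow_le_pow_left₀ (by norm_num) (by norm_num) _
    _ = ∑ q ∈ (P.powerset.filter (fun E => ∏ p ∈ E, p ≤ L) ×ˢ SQe y D).image
          (fun x : Finset ℕ × ℕ => x.2 * ∏ p ∈ x.1, p), (4 : ℝ) ^ q.primeFactors.card * (Mf q + 1) := by
        rw [sum_image, sum_product]
        rintro ⟨E, e⟩ hx ⟨E', e'⟩ hx' heq
        rw [mem_coe, mem_product] at hx hx'
        obtain ⟨h1, h2, h3⟩ := hL E hx.1
        obtain ⟨h1', h2', h3'⟩ := hL E' hx'.1
        have key : ∀ (E : Finset ℕ) (e : ℕ), (∀ p ∈ E, p.Prime ∧ y < p) → e ∈ SQe y D →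
            (e * ∏ p ∈ E, p).primeFactors.filter (fun p => y < p) = E := by
          intro E e hE he
          have hc := cop y D E hE e he
          rw [hc.primeFactors_mul, prod_primes_factors E (fun p hp => (hE p hp).1)]
          unfold SQe at he
          rw [mem_filter] at he
          ext p
          rw [mem_filter, mem_union]
          constructor
          · rintro ⟨h | h, h4⟩
            · have := he.2.2 p h
              omega
            · exact h
          · intro h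
            exact ⟨Or.inr h, (hE p h).2⟩
        have hEE : E = E' := by
          rw [← key E e h1 hx.2, ← key E' e' h1' hx'.2]
          simp only at heq
          rw [heq]
        subst hEE
        have : e = e' := Nat.eq_of_mul_eq_mul_right h2 heq
        rw [this]
    _ ≤ ES Mf (D * L) := by
        unfold ES
        apply sum_le_sum_of_subset_of_nonneg
        · intro q hq
          rw [mem_image] at hq
          obtain ⟨⟨E, e⟩, hx, rfl⟩ := hq
          rw [mem_product] at hx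
          obtain ⟨h1, h2, h3⟩ := hL E hx.1
          have he := hx.2
          unfold SQe at he
          rw [mem_filter, mem_Icc] at he
          rw [mem_Icc]
          exact ⟨Nat.mul_pos he.1.1 h2, Nat.mul_le_mul he.1.2 h3⟩
        · intro q _ _
          have := hMf q
          positivity

end M1P

open M1P in
open Classical in
theorem M1P.t (h : SYS) : M1P := by
  obtain ⟨C, x0, hC, H⟩ := h 4 (by norm_num)
  refine ⟨C, x0, hC, ?_⟩
  intro b hb y D hy hyD X Mf hMf S P c a1 L Pb G0 hP hc hcL hEQ hPb hG hG0 hsmall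
  have ha1 : 0 ≤ a1 := (abs_nonneg _).trans (hc ∅)
  set δ : ℝ := (1 / 2 : ℝ) ^ b with hδ
  have hδ0 : 0 ≤ δ := by positivity
  have hπ : 0 ≤ H343E.pi1 X := by unfold H343E.pi1; positivity
  have hlog : 0 ≤ Real.log y := Real.log_natCast_nonneg _
  set K : ℝ := C * Real.log y with hK
  have hK0 : 0 ≤ K := by positivity
  -- the error of one set
  let Er : Finset ℕ → ℝ := fun E => (2 : ℝ) ^ E.card *
      ∑ e ∈ SQe y D, (4 : ℝ) ^ e.primeFactors.card * (Mf (e * ∏ p ∈ E, p) + 1)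
  have hEr0 : ∀ E, 0 ≤ Er E := by
    intro E
    apply mul_nonneg (by positivity)
    apply sum_nonneg
    intro e _
    have := hMf (e * ∏ p ∈ E, p)
    positivity
  have key : ∀ (j : ℕ) (E : Finset ℕ), (∀ p ∈ E, p.Prime ∧ y < p) → ∏ p ∈ E, p ≤ L →
      |∑ n ∈ (Icc 1 X).filter Nat.Prime, ok 0 y j n * H37SQ.ind 0 j E n - H343E.pi1 X * VS {j} y * gE j E| ≤
        δ * (H343E.pi1 X * VS {j} y * gE j E) + K * Er E := by
    intro j E hE hEL
    have hE1 : 1 ≤ ∏ p ∈ E, p := Nat.pos_of_ne_zero (prod_ne_zero_iff.2 fun p hp => (hE p hp).1.ne_zero)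
    have hQ : PerB (Qz 0 {j}) 4 := by
      have h := Qz_perB 0 {j}
      refine ⟨h.per, fun p hp => (h.few p hp).trans ?_⟩
      simp
    have h1 := H b hb y D hy hyD (Qz 0 {j}) hQ E hE (Qz 0 {j}) X Mf hMf (by
      intro e he
      have hcop := cop y D E hE e he
      have he' := he
      unfold SQe at he'
      rw [mem_filter, mem_Icc] at he'
      apply hEQ
      · rw [mem_Icc]
        exact ⟨Nat.mul_pos he'.1.1 hE1, Nat.mul_le_mul he'.1.2 hEL⟩
      · rw [Nat.squarefree_mul hcop]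
        exact ⟨he'.2.1, prod_sqf E (fun p hp => (hE p hp).1)⟩)
    have e1 : H343E.pi1 X * (∏ p ∈ E, ((nS (Qz 0 {j}) p : ℝ) / ((p : ℝ) - 1))) *
        ∏ p ∈ pz y, (1 - (nS (Qz 0 {j}) p : ℝ) / ((p : ℝ) - 1)) = H343E.pi1 X * VS {j} y * gE j E := by
      unfold VS gE rS
      ring
    rw [e1] at h1
    rw [sum_ind]
    refine h1.trans (add_le_add le_rfl ?_)
    have h2 : ∏ p ∈ E, (nuB (Qz 0 {j}) p : ℝ) ≤ (2 : ℝ) ^ E.card := by
      calc ∏ p ∈ E, (nuB (Qz 0 {j}) p : ℝ) ≤ ∏ _p ∈ E, (2 : ℝ) := by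
            apply prod_le_prod (fun _ _ => Nat.cast_nonneg _)
            intro p hp
            rw [nuB_Qz]
            exact_mod_cast rH_le_two j p (hE p hp).1
        _ = _ := by rw [prod_const]
    have h3 : 0 ≤ ∑ e ∈ SQe y D, (4 : ℝ) ^ e.primeFactors.card * (Mf (e * ∏ p ∈ E, p) + 1) := by
      apply sum_nonneg
      intro e _
      have := hMf (e * ∏ p ∈ E, p)
      positivity
    calc (∏ p ∈ E, (nuB (Qz 0 {j}) p : ℝ)) * (C * Real.log y *
          ∑ e ∈ SQe y D, ((4 : ℕ) : ℝ) ^ e.primeFactors.card * (Mf (e * ∏ p ∈ E, p) + 1))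
        ≤ (2 : ℝ) ^ E.card * (C * Real.log y *
          ∑ e ∈ SQe y D, ((4 : ℕ) : ℝ) ^ e.primeFactors.card * (Mf (e * ∏ p ∈ E, p) + 1)) := by
          apply mul_le_mul_of_nonneg_right h2
          push_cast
          exact mul_nonneg hK0 h3
      _ = K * Er E := by
          simp only [Er]
          push_cast
          ring
  -- one `j`
  have one : ∀ j ∈ S, G0 / 2 * (H343E.pi1 X * VS {j} y) - a1 * (K * ES Mf (D * L)) ≤
      ∑ n ∈ (Icc 1 X).filter Nat.Prime, ok 0 y j n * wj P c 0 j n := by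
    intro j hj
    have hW0 : 0 ≤ H343E.pi1 X * VS {j} y := mul_nonneg hπ (VS_nonneg _ _)
    set W : ℝ := H343E.pi1 X * VS {j} y with hW
    have e0 : ∑ n ∈ (Icc 1 X).filter Nat.Prime, ok 0 y j n * wj P c 0 j n =
        ∑ E ∈ P.powerset, c E * ∑ n ∈ (Icc 1 X).filter Nat.Prime, ok 0 y j n * H37SQ.ind 0 j E n := by
      simp only [wj_eq, mul_sum]
      rw [sum_comm]
      apply sum_congr rfl
      intro E _
      apply sum_congr rfl
      intro n _
      ring
    have hterm : ∀ E ∈ P.powerset, W * (c E * gE j E) - (a1 * (δ * (W * gE j E)) +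
        a1 * K * (if ∏ p ∈ E, p ≤ L then Er E else 0)) ≤
        c E * ∑ n ∈ (Icc 1 X).filter Nat.Prime, ok 0 y j n * H37SQ.ind 0 j E n := by
      intro E hE
      rw [mem_powerset] at hE
      have h0 := gE_nonneg j E (fun p hp => (hP p (hE hp)).1)
      have hi2 : (0 : ℝ) ≤ (if ∏ p ∈ E, p ≤ L then Er E else 0) := by
        split_ifs
        · exact hEr0 E
        · exact le_rfl
      by_cases hcE : c E = 0
      · rw [hcE, zero_mul, zero_mul, mul_zero, zero_sub, neg_nonpos]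
        positivity
      · have m2 := hcL E hE hcE
        rw [if_pos m2]
        have k1 := key j E (fun p hp => hP p (hE hp)) m2
        have k2 : |c E * (∑ n ∈ (Icc 1 X).filter Nat.Prime, ok 0 y j n * H37SQ.ind 0 j E n - W * gE j E)| ≤
            a1 * (δ * (W * gE j E) + K * Er E) := by
          rw [abs_mul]
          exact mul_le_mul (hc E) k1 (abs_nonneg _) ha1
        have k3 := (abs_le.1 k2).1
        linarith
    have hsum := sum_le_sum hterm
    rw [← e0] at hsum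
    refine le_trans ?_ hsum
    have s3 : ∑ E ∈ P.powerset, (if ∏ p ∈ E, p ≤ L then Er E else 0) ≤ ES Mf (D * L) := by
      rw [← sum_filter]
      exact double y D L P hP Mf hMf
    have e1 : ∑ E ∈ P.powerset, (W * (c E * gE j E) - (a1 * (δ * (W * gE j E)) +
        a1 * K * (if ∏ p ∈ E, p ≤ L then Er E else 0))) =
        W * vS P c j - (a1 * δ * PiS P j * W + a1 * K * ∑ E ∈ P.powerset, (if ∏ p ∈ E, p ≤ L then Er E else 0)) := by
      rw [sum_sub_distrib, sum_add_distrib, ← mul_sum, ← mul_sum, ← mul_sum, ← mul_sum, ← mul_sum, sum_gE]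
      have h2 : vS P c j = ∑ E ∈ P.powerset, c E * gE j E := rfl
      rw [h2]
      ring
    rw [e1]
    have h1 : a1 * δ * PiS P j ≤ G0 / 2 := by
      refine le_trans ?_ hsmall
      exact mul_le_mul_of_nonneg_left (hPb j hj) (by positivity)
    have h2 : a1 * δ * PiS P j * W ≤ G0 / 2 * W := mul_le_mul_of_nonneg_right h1 hW0
    have h3 : W * G0 ≤ W * vS P c j := mul_le_mul_of_nonneg_left (hG j hj) hW0
    have h4 : a1 * K * ∑ E ∈ P.powerset, (if ∏ p ∈ E, p ≤ L then Er E else 0) ≤ a1 * K * ES Mf (D * L) :=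
      mul_le_mul_of_nonneg_left s3 (by positivity)
    linarith
  have h2 := sum_le_sum one
  rw [sum_comm] at h2
  refine le_trans (le_of_eq ?_) h2
  rw [sum_sub_distrib, ← mul_sum, ← mul_sum, sum_const, nsmul_eq_mul]

end Pool.Agent.H37PS
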