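import Pool.Agent.H37PS.Stm

/-!
Stub M2P: the second moment of the numbers of the sifted integers over primes.
-/

set_option autoImplicit false

namespace Pool.Agent.H37PS.M2P

open Finset Pool.Agent.H373R2.T7 Pool.Agent.Y862.SQ Pool.Agent.Y486.SQ Pool.Agent.Y882 Pool.Agent.W23.DC
open Pool.Agent.H37SQ Pool.Agent.H37PS

open Classical in
lemma ok_mul (y j k n : ℕ) :
    ok 0 y j n * ok 0 y k n = if (∀ p ∈ pz y, ¬ Qz 0 {j, k} p n) then (1 : ℝ) else 0 := by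
  have hiff : (∀ p ∈ pz y, ¬ Qz 0 {j, k} p n) ↔
      ((∀ p ∈ pz y, ¬ p ∣ (n + 0) ^ 2 + j) ∧ ∀ p ∈ pz y, ¬ p ∣ (n + 0) ^ 2 + k) := by
    unfold Qz
    constructor
    · intro h
      exact ⟨fun p hp hd => h p hp ⟨j, by simp, hd⟩, fun p hp hd => h p hp ⟨k, by simp, hd⟩⟩
    · rintro ⟨h1, h2⟩ p hp ⟨h, hh, hd⟩
      rw [mem_insert, mem_singleton] at hh
      rcases hh with rfl | rfl
      · exact h1 p hp hd
      · exact h2 p hp hd
  unfold ok
  by_cases h1 : ∀ p ∈ pz y, ¬ p ∣ (n + 0) ^ 2 + j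
  · by_cases h2 : ∀ p ∈ pz y, ¬ p ∣ (n + 0) ^ 2 + k
    · rw [if_pos h1, if_pos h2, if_pos (hiff.2 ⟨h1, h2⟩), one_mul]
    · rw [if_neg h2, mul_zero, if_neg (fun h => h2 (hiff.1 h).2)]
  · rw [if_neg h1, zero_mul, if_neg (fun h => h1 (hiff.1 h).1)]

open Classical in
lemma sum_pair (X y j k : ℕ) (s : Finset ℕ)
    (hs : ∀ n, n ∈ s ↔ n ∈ Icc 1 X ∧ n.Prime ∧ ∀ p ∈ pz y, ¬ Qz 0 {j, k} p n) :
    ∑ n ∈ (Icc 1 X).filter Nat.Prime, ok 0 y j n * ok 0 y k n = (s.card : ℝ) := by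
  simp only [ok_mul]
  rw [← sum_filter, filter_filter, sum_const, nsmul_eq_mul, mul_one]
  congr 2
  ext n
  rw [hs, mem_filter]

lemma perB4 (j k : ℕ) : PerB (Qz 0 {j, k}) 4 := by
  have h := Qz_perB 0 {j, k}
  refine ⟨h.per, fun p hp => (h.few p hp).trans ?_⟩
  have := Finset.card_le_two (a := j) (b := k)
  omega

lemma nS_le (Q : ℕ → ℕ → Prop) {p : ℕ} (hp : p.Prime) : nS Q p ≤ p - 1 := by
  classical
  unfold nS
  have h1 : (range p).filter (fun r => r ≠ 0 ∧ Q p r) ⊆ (range p).erase 0 := by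
    intro r hr
    rw [mem_filter] at hr
    exact mem_erase.2 ⟨hr.2.1, hr.1⟩
  have h2 := card_le_card h1
  rw [card_erase_of_mem (mem_range.2 hp.pos), card_range] at h2
  convert h2

lemma VS_nonneg (H : Finset ℕ) (y : ℕ) : 0 ≤ VS H y := by
  unfold VS
  refine prod_nonneg fun p hp => ?_
  have hp' := (mem_pz.1 hp).2
  have h1 : (1 : ℝ) < p := by exact_mod_cast hp'.one_lt
  have h2 : (rS H p : ℝ) ≤ (p : ℝ) - 1 := by
    have h3 := nS_le (Qz 0 H) hp'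
    have h4 : rS H p + 1 ≤ p := by
      unfold rS
      have := hp'.pos
      omega
    have h5 : ((rS H p + 1 : ℕ) : ℝ) ≤ p := by exact_mod_cast h4
    push_cast at h5
    linarith
  have h3 : (rS H p : ℝ) / ((p : ℝ) - 1) ≤ 1 := by
    rw [div_le_one (by linarith)]
    exact h2
  linarith

theorem t (h : SYS) : M2P := by
  classical
  obtain ⟨C1, x0, hC1, H⟩ := h 4 (by norm_num)
  refine ⟨C1 * C1, max x0 1, Nat.mul_pos hC1 hC1, ?_⟩
  intro y D hy hyD X Mf hMf hEQ S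
  have hy0 : x0 ≤ y := (le_max_left _ _).trans hy
  have hy1 : 1 ≤ y := (le_max_right _ _).trans hy
  have hC1' : (1 : ℝ) ≤ C1 := by exact_mod_cast hC1
  have hlog : 0 ≤ Real.log y := Real.log_natCast_nonneg y
  set π := H343E.pi1 X with hπ
  have hπ0 : 0 ≤ π := by
    rw [hπ]
    unfold H343E.pi1
    exact Nat.cast_nonneg _
  set E : ℝ := ((C1 * C1 : ℕ) : ℝ) * Real.log y * ES Mf D with hE
  have hsub : SQe y D ⊆ Icc 1 D := filter_subset _ _
  have hEnn : ∀ q, 0 ≤ (4 : ℝ) ^ q.primeFactors.card * (Mf q + 1) := by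
    intro q
    have := hMf q
    positivity
  have hbound : ∀ j k : ℕ, ∑ n ∈ (Icc 1 X).filter Nat.Prime, ok 0 y j n * ok 0 y k n ≤
      2 * (π * VS {j, k} y) + E := by
    intro j k
    have h1 := H C1 le_rfl y D hy0 hyD (Qz 0 {j, k}) (perB4 j k) ∅ (by simp) (fun _ _ => True) X Mf hMf
      (by
        intro e he
        have he' : e ∈ SQe y D := he
        rw [prod_empty, mul_one]
        refine hEQ e (hsub he') ?_
        unfold SQe at he'
        exact (mem_filter.1 he').2.1)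
    simp only [prod_empty, mul_one, one_mul] at h1
    have h3 : (∏ p ∈ pz y, (1 - (nS (Qz 0 {j, k}) p : ℝ) / ((p : ℝ) - 1))) = VS {j, k} y := rfl
    rw [h3, ← hπ] at h1
    obtain ⟨s, hs, h1'⟩ : ∃ s : Finset ℕ, (∀ n, n ∈ s ↔ n ∈ Icc 1 X ∧ n.Prime ∧ ∀ p ∈ pz y, ¬ Qz 0 {j, k} p n) ∧
        |(s.card : ℝ) - π * VS {j, k} y| ≤ (1 / 2 : ℝ) ^ C1 * (π * VS {j, k} y) +
          (C1 : ℝ) * Real.log y * ∑ e ∈ SQe y D, ((4 : ℕ) : ℝ) ^ e.primeFactors.card * (Mf e + 1) :=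
      ⟨_, fun n => by simp only [mem_filter, notMem_empty, implies_true, and_true], h1⟩
    rw [sum_pair X y j k s hs]
    have h2 := (abs_le.1 h1').2
    have h4 : 0 ≤ π * VS {j, k} y := mul_nonneg hπ0 (VS_nonneg _ _)
    have h5 : (1 / 2 : ℝ) ^ C1 ≤ 1 := pow_le_one₀ (by norm_num) (by norm_num)
    have h6 : (1 / 2 : ℝ) ^ C1 * (π * VS {j, k} y) ≤ π * VS {j, k} y := by nlinarith
    have h7 : (C1 : ℝ) * Real.log y * ∑ e ∈ SQe y D, ((4 : ℕ) : ℝ) ^ e.primeFactors.card * (Mf e + 1) ≤ E := by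
      have h8 : ∑ e ∈ SQe y D, ((4 : ℕ) : ℝ) ^ e.primeFactors.card * (Mf e + 1) ≤ ES Mf D := by
        unfold ES
        push_cast
        exact sum_le_sum_of_subset_of_nonneg hsub fun q _ _ => hEnn q
      have h9 : 0 ≤ ES Mf D := sum_nonneg fun q _ => hEnn q
      have h10 : (C1 : ℝ) * Real.log y ≤ ((C1 * C1 : ℕ) : ℝ) * Real.log y := by
        refine mul_le_mul_of_nonneg_right ?_ hlog
        push_cast
        nlinarith
      have h11 : 0 ≤ (C1 : ℝ) * Real.log y := by positivity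
      calc _ ≤ (C1 : ℝ) * Real.log y * ES Mf D := mul_le_mul_of_nonneg_left h8 h11
        _ ≤ E := mul_le_mul_of_nonneg_right h10 h9
    calc (s.card : ℝ) ≤ (1 / 2 : ℝ) ^ C1 * (π * VS {j, k} y) +
          (C1 : ℝ) * Real.log y * ∑ e ∈ SQe y D, ((4 : ℕ) : ℝ) ^ e.primeFactors.card * (Mf e + 1) +
          π * VS {j, k} y := sub_le_iff_le_add.1 h2
      _ ≤ π * VS {j, k} y + E + π * VS {j, k} y := add_le_add (add_le_add h6 h7) le_rfl
      _ = 2 * (π * VS {j, k} y) + E := by ring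
  have hexp : ∑ n ∈ (Icc 1 X).filter Nat.Prime, (∑ j ∈ S, ok 0 y j n) ^ 2 =
      ∑ j ∈ S, ∑ k ∈ S, ∑ n ∈ (Icc 1 X).filter Nat.Prime, ok 0 y j n * ok 0 y k n := by
    have e1 : ∀ n ∈ (Icc 1 X).filter Nat.Prime, (∑ j ∈ S, ok 0 y j n) ^ 2 =
        ∑ j ∈ S, ∑ k ∈ S, ok 0 y j n * ok 0 y k n := by
      intro n _
      rw [sq, sum_mul_sum]
    rw [sum_congr rfl e1, sum_comm]
    refine sum_congr rfl fun j _ => ?_
    rw [sum_comm]
  rw [hexp]
  calc ∑ j ∈ S, ∑ k ∈ S, ∑ n ∈ (Icc 1 X).filter Nat.Prime, ok 0 y j n * ok 0 y k n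
      ≤ ∑ j ∈ S, ∑ k ∈ S, (2 * (π * VS {j, k} y) + E) :=
        sum_le_sum fun j _ => sum_le_sum fun k _ => hbound j k
    _ = ∑ j ∈ S, ((2 * (π * VS {j} y)) + ∑ k ∈ S.erase j, 2 * (π * VS {j, k} y)) + (S.card : ℝ) ^ 2 * E := by
        have e2 : ∀ j ∈ S, ∑ k ∈ S, (2 * (π * VS {j, k} y) + E) =
            ((2 * (π * VS {j} y)) + ∑ k ∈ S.erase j, 2 * (π * VS {j, k} y)) + S.card * E := by
          intro j hj
          rw [sum_add_distrib, sum_const, nsmul_eq_mul, ← add_sum_erase S _ hj, Finset.pair_eq_singleton]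
        rw [sum_congr rfl e2, sum_add_distrib, sum_const, nsmul_eq_mul]
        ring
    _ = _ := by
        congr 1
        rw [sum_add_distrib]
        simp only [← mul_sum]
        ring

end Pool.Agent.H37PS.M2P
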