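import Pool.Agent.H37PS.Lem

/-!
# Integers with few prime factors above the squares of primes: assembly
-/

set_option autoImplicit false

namespace Pool.Agent.H37PS

open Finset Filter Pool.Agent.H373R2.T7 Pool.Agent.Y486.SQ Pool.Agent.Y882 Pool.Agent.W23.DC Pool.Agent.Y882.KW
open Pool.Agent.H37SQ Pool.Agent.H37EP
open Pool.Agent.Y862.SQ (rH leg z2 V1)
open Pool.Agent.T6.H57 (Lam lev_of)

open Classical in
/-- **Integers with few prime factors above the squares of a positive proportion of the primes.** -/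
theorem mainP (hM1 : M1P) (hM2 : M2P) (hREG : REGP) (hVAV : VAV) (hBVS : BVS) (r : ℕ) (hr : 1 ≤ r)
    (hL : 4 < Lam r) :
    ∃ c δ : ℝ, 0 < c ∧ 0 < δ ∧ ∃ T₀ X₀ : ℕ, ∀ X : ℕ, X₀ ≤ X → ∀ T : ℕ, T₀ ≤ T → (T : ℝ) ≤ Real.log X ^ 49 →
      c * (X / Real.log X) * (T / (T + Real.log X)) ≤ (((Icc 1 X).filter (fun n => n.Prime ∧
        1 ≤ cn r ((X : ℝ) ^ δ) T n ∧ c * T / Real.log X ≤ (cn r ((X : ℝ) ^ δ) T n : ℝ))).card : ℝ) := by
  -- parameters of the weighted sieve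
  obtain ⟨Λ, hΛ⟩ : ∃ Λ : ℝ, Λ = Lam r := ⟨_, rfl⟩
  rw [← hΛ] at hL
  have hΛ0 : 0 < Λ := by linarith
  obtain ⟨τ, hτd⟩ : ∃ τ : ℝ, τ = (1 / Λ + 1 / 4) / 2 := ⟨_, rfl⟩
  have hθΛ : 1 / Λ < 1 / 4 := by
    rw [div_lt_div_iff₀ hΛ0 (by norm_num)]
    linarith
  have hinv : 0 < 1 / Λ := by positivity
  have hτ0 : 0 < τ := by rw [hτd]; linarith
  have hτθ : τ < 1 / 4 := by rw [hτd]; linarith
  have hτL : 1 < τ * Lam r := by
    have h1 : 1 / Λ < τ := by rw [hτd]; linarith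
    rw [div_lt_iff₀ hΛ0] at h1
    rw [← hΛ]
    exact h1
  obtain ⟨υ, lam, S, hυ1, hυτ, hlam, hS, hJ, hrr⟩ := lev_of r hr τ hτ0 hτL
  obtain ⟨ζ, hζ⟩ : ∃ ζ : ℝ, ζ = τ / 4 := ⟨_, rfl⟩
  rw [← hζ] at hυ1 hJ
  have hζ0 : 0 < ζ := by rw [hζ]; linarith
  have hυ0 : 0 < υ := hζ0.trans_le hυ1
  have hυ1' : υ ≤ 1 := by linarith
  obtain ⟨f0, F0, hf0, hF0, HL⟩ := lsw4 τ ζ υ lam (lam / υ) hζ0 (by rw [hζ]; linarith) (by rw [hζ]; linarith)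
    (by linarith) hυ1 hυτ hlam.le (by positivity) (by rw [div_mul_cancel₀ _ hυ0.ne']) hJ
  obtain ⟨a1, ha1⟩ : ∃ a1 : ℝ, a1 = 1 + lam := ⟨_, rfl⟩
  have ha10 : 0 < a1 := by rw [ha1]; linarith
  obtain ⟨C, x0, hC, HM1⟩ := hM1
  obtain ⟨C', x0', hC', HM2⟩ := hM2
  obtain ⟨w, c2, C2, hc2, hC2, T0, y0, HV⟩ := hVAV
  obtain ⟨c1, C1, hc1, hC1, hV⟩ := Pool.Agent.Y810.SQ.V1_bounds
  obtain ⟨σ, hσ⟩ : ∃ σ : ℝ, σ = (1 / 2 - 2 * τ) / 4 := ⟨_, rfl⟩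
  have hσ0 : 0 < σ := by rw [hσ]; linarith
  obtain ⟨κ0, hκ0⟩ : ∃ κ0 : ℝ, κ0 = f0 / (6 * a1) := ⟨_, rfl⟩
  have hκ00 : 0 < κ0 := by rw [hκ0]; positivity
  obtain ⟨e0, he0⟩ : ∃ e0 : ℝ, e0 = min ζ (τ - υ) := ⟨_, rfl⟩
  have he00 : 0 < e0 := by rw [he0]; exact lt_min hζ0 (by linarith)
  obtain ⟨Cm, hCm⟩ : ∃ Cm : ℕ, Cm = max C C' := ⟨_, rfl⟩
  have hCCm : C ≤ Cm := by rw [hCm]; exact le_max_left _ _
  have hCCm' : C' ≤ Cm := by rw [hCm]; exact le_max_right _ _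
  have hCC : 1 ≤ Cm := hC.trans hCCm
  obtain ⟨b, hbC, hb1, hbe, hbκ⟩ := pick_b Cm σ e0 κ0 hCC hσ0 he00 hκ00
  have hC0 : (0 : ℝ) < Cm := by exact_mod_cast hCC
  have hb0 : (0 : ℝ) < b := by exact_mod_cast hb1
  obtain ⟨ε₁, hε₁d⟩ : ∃ ε₁ : ℝ, ε₁ = σ / (Cm * b) := ⟨_, rfl⟩
  rw [← hε₁d] at hbe hbκ
  have hε₁ : 0 < ε₁ := by rw [hε₁d]; positivity
  rw [he0] at hbe
  have hε₁ζ : ε₁ ≤ ζ := hbe.trans (min_le_left _ _)
  have hε₁τ : ε₁ ≤ τ - υ := hbe.trans (min_le_right _ _)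
  have hε₁1 : ε₁ ≤ 1 := by linarith
  have hε₁Cb : ε₁ * (Cm * b) = σ := by rw [hε₁d]; field_simp
  obtain ⟨η, hη, HL2⟩ := HL ε₁ hε₁ hε₁ζ hε₁τ
  obtain ⟨m, hm⟩ : ∃ m : ℕ, m = ⌈S / ε₁⌉₊ := ⟨_, rfl⟩
  have hmS : S / ε₁ ≤ m := by rw [hm]; exact Nat.le_ceil _
  obtain ⟨G0, hG0⟩ : ∃ G0 : ℝ, G0 = ε₁ * f0 := ⟨_, rfl⟩
  have hG00 : 0 < G0 := by rw [hG0]; positivity
  obtain ⟨Pb, hPb⟩ : ∃ Pb : ℝ, Pb = 3 / ε₁ := ⟨_, rfl⟩
  have hsmall : a1 * (1 / 2 : ℝ) ^ b * Pb ≤ G0 / 2 := by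
    have h1 : (1 / 2 : ℝ) ^ b ≤ κ0 * ε₁ ^ 2 := by
      refine hbκ.trans (mul_le_mul_of_nonneg_left ?_ hκ00.le)
      exact pow_le_pow_of_le_one hε₁.le hε₁1 (by norm_num)
    rw [hPb]
    calc a1 * (1 / 2 : ℝ) ^ b * (3 / ε₁) ≤ a1 * (κ0 * ε₁ ^ 2) * (3 / ε₁) := by gcongr
      _ = G0 / 2 := by
          rw [hκ0, hG0]
          field_simp
          norm_num
  obtain ⟨B, hB⟩ : ∃ B : ℝ, B = a1 * 2 ^ m := ⟨_, rfl⟩
  have hB0 : 0 < B := by rw [hB]; positivity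
  obtain ⟨κ, hκ⟩ : ∃ κ : ℝ, κ = 1 / (2 * ε₁) := ⟨_, rfl⟩
  have hκp : 0 < κ := by rw [hκ]; positivity
  obtain ⟨g, hg⟩ : ∃ g : ℝ, g = G0 * c2 := ⟨_, rfl⟩
  have hg0 : 0 < g := by rw [hg]; positivity
  obtain ⟨K, hK⟩ : ∃ K : ℝ, K = 2 * C2 + 1 := ⟨_, rfl⟩
  have hK0 : 0 < K := by rw [hK]; positivity
  refine ⟨min (g / 32 * κ) (g ^ 2 / (2048 * K) * min κ 1), 2 * ζ, ?_, by linarith, ?_⟩
  · apply lt_min (by positivity)
    have : 0 < min κ 1 := lt_min hκp one_pos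
    positivity
  obtain ⟨Yr, HR⟩ := hREG ε₁ υ η hε₁ (hε₁ζ.trans hυ1) hυ1' hη
  obtain ⟨Xb, HB⟩ := hBVS (2 * σ + 2 * τ) 6 (by linarith) (by rw [hσ]; linarith)
  -- the conditions on `X`
  have hlogt : Tendsto (fun X : ℕ => Real.log X) atTop atTop :=
    Real.tendsto_log_atTop.comp tendsto_natCast_atTop_atTop
  have ev1 : ∀ᶠ X : ℕ in atTop, 64 * a1 * C / (g * κ) ≤ Real.log X := hlogt.eventually_ge_atTop _
  have ev1' : ∀ᶠ X : ℕ in atTop, 2 * (C' : ℝ) / κ ^ 2 ≤ Real.log X := hlogt.eventually_ge_atTop _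
  have ev2 : ∀ᶠ X : ℕ in atTop, (x0 : ℝ) + x0' + y0 + 3 ≤ (X : ℝ) ^ (2 * ε₁) :=
    ((tendsto_rpow_atTop (by linarith)).comp tendsto_natCast_atTop_atTop).eventually_ge_atTop _
  have ev6 : ∀ᶠ X : ℕ in atTop, (5 : ℝ) ≤ (X : ℝ) ^ (2 * S - 2) :=
    ((tendsto_rpow_atTop (by linarith)).comp tendsto_natCast_atTop_atTop).eventually_ge_atTop _
  have ev7 := ev_log 49 3 (2 * ζ) (by norm_num) (by linarith)
  have ev12 := ev_log 51 (512 * B / (g * κ)) (2 * ζ) (by positivity) (by linarith)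
  have ev13 := ev_log 51 (256 * B / (g * κ)) (1 - 2 * υ) (by positivity) (by linarith)
  obtain ⟨X1, hX1⟩ := eventually_atTop.1 (((ev1.and ev1').and (ev2.and ev6)).and
    ((ev7.and (ev12.and ev13)).and (((eventually_ge_atTop 3).and (eventually_ge_atTop Yr)).and
      ((eventually_ge_atTop Xb).and pi_low))))
  refine ⟨max T0 1, X1, fun X hX T hTT hTX => ?_⟩
  obtain ⟨⟨⟨v1, v1'⟩, v2, v6⟩, ⟨v7, v12, v13⟩, ⟨vX3, vXr⟩, vXb, vpi⟩ := hX1 X hX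
  have hTT0 : T0 ≤ T := (le_max_left _ _).trans hTT
  have hT1 : 1 ≤ T := (le_max_right _ _).trans hTT
  obtain ⟨l, hl⟩ : ∃ l : ℝ, l = Real.log X := ⟨_, rfl⟩
  rw [← hl] at v1 v1' v7 v12 v13 vpi hTX ⊢
  have hq1 : (0 : ℝ) ≤ x0 := Nat.cast_nonneg _
  have hq2 : (0 : ℝ) ≤ x0' := Nat.cast_nonneg _
  have hq3 : (0 : ℝ) ≤ y0 := Nat.cast_nonneg _
  obtain ⟨y, x, Y, hSc⟩ := scale X ε₁ σ c1 (Cm * b) vX3 hε₁ hc1 (fun y hy => (hV y hy).1)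
    (by linarith only [v2, hq1, hq2, hq3]) (by push_cast; exact hε₁Cb.le)
  have hXr := hSc.X3
  have hX0 : (0 : ℝ) < X := by linarith only [hXr]
  have hX1r : (1 : ℝ) ≤ X := by linarith only [hXr]
  have hl1 : 1 ≤ l := by
    rw [hl, ← Real.log_exp 1]
    apply Real.log_le_log (Real.exp_pos _)
    linarith only [Real.exp_one_lt_d9, hXr]
  have hl0 : 0 < l := by linarith only [hl1]
  have hl49 : 1 ≤ l ^ 49 := one_le_pow₀ hl1
  have hY2 := hSc.Y2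
  have hYp := hSc.Yp
  have hyx0 : x0 ≤ y := hSc.ge x0 _ v2 (by linarith only [hq1, hq2, hq3])
  have hyx0' : x0' ≤ y := hSc.ge x0' _ v2 (by linarith only [hq1, hq2, hq3])
  have hyy0 : y0 ≤ y := hSc.ge y0 _ v2 (by linarith only [hq1, hq2, hq3])
  have hy2 := hSc.y2
  have hyCb : y ^ (C * b) ≤ x :=
    (Nat.pow_le_pow_right (by omega) (Nat.mul_le_mul_right b hCCm)).trans hSc.yx
  have hyC' : y ^ C' ≤ x :=
    (Nat.pow_le_pow_right (by omega) (hCCm'.trans (Nat.le_mul_of_pos_right Cm (by omega)))).trans hSc.yx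
  have hT1r : (1 : ℝ) ≤ T := by exact_mod_cast hT1
  have hT0r : (0 : ℝ) < T := by linarith only [hT1r]
  -- the expected number
  have hy2r : (2 : ℝ) ≤ y := by exact_mod_cast hy2
  have hy0 : (0 : ℝ) < y := by linarith only [hy2r]
  have hY0 : (0 : ℝ) < Y := by exact_mod_cast (by omega : 0 < Y)
  have hlogy : Real.log y ≤ 2 * ε₁ * l := by
    have h1 : Real.log y ≤ Real.log ((Y : ℝ) ^ ε₁) := Real.log_le_log hy0 hSc.ylt.le
    rw [Real.log_rpow hY0, hSc.lY, ← hl] at h1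
    linarith only [h1]
  have hlogy0 : 0 < Real.log y := Real.log_pos (by linarith only [hy2r])
  have hlogyl : Real.log y ≤ l := by
    have : 2 * ε₁ ≤ 1 := by linarith only [hε₁ζ, hζ, hτθ]
    have h2 := mul_le_mul_of_nonneg_right this hl0.le
    linarith only [h2, hlogy]
  obtain ⟨ν, hν⟩ : ∃ ν : ℝ, ν = T / Real.log y := ⟨_, rfl⟩
  have hνge : κ * T / l ≤ ν := by
    rw [hν, hκ]
    calc 1 / (2 * ε₁) * T / l = T / (2 * ε₁ * l) := by field_simp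
      _ ≤ T / Real.log y := div_le_div_of_nonneg_left hT0r.le hlogy0 hlogy
  have hν0 : 0 < ν := by rw [hν]; positivity
  obtain ⟨hVV1, hVV2, hVV3⟩ := HV T y hTT0 hyy0
  rw [← hν] at hVV1 hVV2 hVV3
  obtain ⟨J, hJd⟩ : ∃ J : Finset ℕ, J = JS w T := ⟨_, rfl⟩
  rw [← hJd] at hVV1 hVV2 hVV3
  have hJT : J ⊆ Icc 1 T := by rw [hJd]; exact filter_subset _ _
  have hJcard : (J.card : ℝ) ≤ T := by
    have h1 := card_le_card hJT
    rw [Nat.card_Icc, Nat.add_sub_cancel] at h1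
    exact_mod_cast h1
  -- the weights
  obtain ⟨cU, cL, hcb, hcsup, hcWB, hcval⟩ := HL2 Y hY2
  have hreg : ∀ j ∈ J, Mer (pr Y ε₁ υ) (tt Y) (fun p => (rS {j} p : ℝ) / ((p : ℝ) - 1)) ε₁ υ η ∧
      PiS (pr Y ε₁ υ) j ≤ 3 / ε₁ := by
    intro j hj
    have hj1 := mem_Icc.1 (hJT hj)
    apply HR Y (vXr.trans hSc.XY) j hj1.1
    have hlY : Real.log Y = 2 * l := by rw [hSc.lY, hl]
    have h1 : (j : ℝ) ≤ T := by exact_mod_cast hj1.2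
    calc (j : ℝ) ≤ T := h1
      _ ≤ l ^ 49 := hTX
      _ ≤ (Real.log Y) ^ 49 := pow_le_pow_left₀ hl0.le (by rw [hlY]; linarith only [hl0]) 49
      _ ≤ (Real.log Y) ^ 50 := pow_le_pow_right₀ (by rw [hlY]; linarith only [hl1]) (by norm_num)
  have hPp : ∀ p ∈ pr Y ε₁ υ, p.Prime ∧ y < p := by
    intro p hp
    obtain ⟨h1, h2, _⟩ := Pool.Agent.Y882.PX.pr_mem Y p ε₁ υ hY2 hp
    refine ⟨h1, ?_⟩
    have : (y : ℝ) < p := hSc.ylt.trans_le h2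
    exact_mod_cast this
  have hvlow : ∀ j ∈ J, G0 ≤ vS (pr Y ε₁ υ) cL j := by
    intro j hj
    rw [hG0]
    refine (hcval _ (fun p hp => ?_) (hreg j hj).1).1
    have h1 : (1 : ℝ) ≤ p := by exact_mod_cast (hPp p hp).1.one_le
    exact div_nonneg (Nat.cast_nonneg _) (by linarith only [h1])
  have hPi : ∀ j ∈ J, PiS (pr Y ε₁ υ) j ≤ Pb := fun j hj => by rw [hPb]; exact (hreg j hj).2
  have hclabs : ∀ D, |cL D| ≤ a1 := fun D => by rw [ha1]; exact (hcb D).2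
  obtain ⟨L, hLd⟩ : ∃ L : ℕ, L = ⌊(X : ℝ) ^ (2 * τ)⌋₊ := ⟨_, rfl⟩
  have hLr : (L : ℝ) ≤ (X : ℝ) ^ (2 * τ) := by rw [hLd]; exact Nat.floor_le (by positivity)
  have hcLm : ∀ D ⊆ pr Y ε₁ υ, cL D ≠ 0 → ∏ p ∈ D, p ≤ L := by
    intro D hD hne
    have h1 := hcsup D hD (Or.inr hne)
    rw [hLd]
    apply Nat.le_floor
    rw [← hYp]
    exact h1
  -- the primes in arithmetic progressions
  obtain ⟨Mf, hMf, HB2⟩ := HB X vXb
  have hxr : (x : ℝ) ≤ (X : ℝ) ^ (2 * σ) := by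
    have h1 : (x : ℝ) = √(x : ℝ) ^ 2 := (Real.sq_sqrt (Nat.cast_nonneg _)).symm
    rw [h1]
    calc √(x : ℝ) ^ 2 ≤ ((X : ℝ) ^ σ) ^ 2 := pow_le_pow_left₀ (Real.sqrt_nonneg _) hSc.sx 2
      _ = (X : ℝ) ^ (2 * σ) := by
          rw [← Real.rpow_natCast, ← Real.rpow_mul hX0.le]
          congr 1
          push_cast
          ring
  have hxL : ((x * L : ℕ) : ℝ) ≤ (X : ℝ) ^ (2 * σ + 2 * τ) := by
    push_cast
    rw [Real.rpow_add hX0]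
    exact mul_le_mul hxr hLr (Nat.cast_nonneg _) (by positivity)
  have hxx : (x : ℝ) ≤ (X : ℝ) ^ (2 * σ + 2 * τ) := by
    refine hxr.trans (Real.rpow_le_rpow_of_exponent_le hX1r ?_)
    linarith only [hτ0]
  obtain ⟨hEQ1, hES1⟩ := HB2 (x * L) hxL
  obtain ⟨hEQ2, hES2⟩ := HB2 x hxx
  rw [← hl] at hES1 hES2
  have hES0 : ∀ D : ℕ, 0 ≤ ES Mf D := by
    intro D
    unfold ES
    apply sum_nonneg
    intro q _
    have := hMf q
    positivity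
  obtain ⟨A0, hA0⟩ : ∃ A0 : Finset ℕ, A0 = (Icc 1 X).filter Nat.Prime := ⟨_, rfl⟩
  have key1 := HM1 b (hCCm.trans hbC) y x hyx0 hyCb X Mf hMf J (pr Y ε₁ υ) cL a1 L Pb G0 hPp hclabs hcLm
    (fun q hq _ => hEQ1 q hq) hPi hvlow hG00.le hsmall
  have key2 := HM2 y x hyx0' hyC' X Mf hMf (fun q hq _ => hEQ2 q hq) J
  rw [← hA0] at key1 key2
  obtain ⟨π, hπ⟩ : ∃ π : ℝ, π = H343E.pi1 X := ⟨_, rfl⟩
  rw [← hπ] at key1 key2 vpi
  have hπ0 : 0 < π := lt_of_lt_of_le (by positivity) vpi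
  have hA0card : (A0.card : ℝ) = π := by
    rw [hA0, hπ]
    unfold H343E.pi1
    congr 2
  -- the bad `n`
  have hXX : 0 + X ≤ 2 * X := by omega
  have hTX2 : (T : ℝ) < (Y : ℝ) ^ ζ := by
    rw [hYp]
    linarith only [v7, hl49, hTX]
  have hTXn : T ≤ X := by
    have h1 : (T : ℝ) < X := by
      refine hTX2.trans_le ?_
      rw [hYp]
      calc (X : ℝ) ^ (2 * ζ) ≤ (X : ℝ) ^ (1 : ℝ) := by
            apply Real.rpow_le_rpow_of_exponent_le hX1r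
            linarith only [hζ, hτθ]
        _ = X := Real.rpow_one _
    exact_mod_cast h1.le
  have hNle := N_le X Y 0 X T S hXr hYp hXX hTXn v6
  have hw : ∀ j ∈ Icc 1 T, ∀ n ∈ Icc 1 X, |wj (pr Y ε₁ υ) cL 0 j n| ≤ B := by
    intro j hj n hn
    have hj1 := (mem_Icc.1 hj).1
    rw [hB]
    exact wj_le Y hY2 ε₁ υ S hε₁ cL a1 hclabs m hmS 0 j n (by omega) (hNle n hn j hj)
  have hE3 := few_sq Y hY2 ζ υ 0 X T (by rw [hYp]; linarith only [v7, hl49]) hTX2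
  obtain ⟨Bd, hBd⟩ : ∃ Bd : Finset ℕ, Bd = (Icc 1 X).filter (fun n => ∃ j ∈ Icc 1 T, ∃ q ∈ pr Y ζ υ,
    q ^ 2 ∣ (n + 0) ^ 2 + j) := ⟨_, rfl⟩
  have hBdmem : ∀ n ∈ Icc 1 X, n ∉ Bd → ∀ j ∈ Icc 1 T, ∀ q ∈ pr Y ζ υ, ¬ q ^ 2 ∣ (n + 0) ^ 2 + j := by
    intro n hn hnB j hj q hq hd
    apply hnB
    rw [hBd, mem_filter]
    exact ⟨hn, j, hj, q, hq, hd⟩
  have hBdc : (Bd.card : ℝ) ≤ T * (4 * X / (Y : ℝ) ^ ζ + 2 * (Y : ℝ) ^ υ) := by
    refine le_trans (le_of_eq ?_) hE3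
    rw [hBd]
  have r4 : (Bd.card : ℝ) * (T * B) ≤ g / 32 * (π * ν) :=
    e3P X T B ((Y : ℝ) ^ ζ) ((Y : ℝ) ^ υ) l κ g π ν ζ υ Bd.card hX1r hl1 hT0r hTX hB0 (hYp ζ) (hYp υ) vpi hνge hκp
      hg0 v12 v13 hBdc
  -- the first moment
  obtain ⟨W, hWd⟩ : ∃ W : ℕ → ℝ, W = fun n => ∑ j ∈ J, ok 0 y j n * wj (pr Y ε₁ υ) cL 0 j n := ⟨_, rfl⟩
  obtain ⟨f, hf⟩ : ∃ f : ℕ → ℝ, f = fun n => (cJ r ((X : ℝ) ^ (2 * ζ)) J n : ℝ) := ⟨_, rfl⟩
  have hfnn : ∀ n, 0 ≤ f n := fun n => by rw [hf]; exact Nat.cast_nonneg _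
  have hWB : ∀ n ∈ Icc 1 X, W n ≤ T * B := by
    intro n hn
    rw [hWd]
    simp only
    calc ∑ j ∈ J, ok 0 y j n * wj (pr Y ε₁ υ) cL 0 j n ≤ ∑ _j ∈ J, B := by
          apply sum_le_sum
          intro j hj
          have h1 := hw j (hJT hj) n hn
          have h2 := (abs_le.1 h1).2
          have h3 : ok 0 y j n ≤ 1 := by unfold ok; split_ifs <;> norm_num
          have h4 := ok_nonneg 0 y j n
          calc ok 0 y j n * wj (pr Y ε₁ υ) cL 0 j n ≤ ok 0 y j n * B := mul_le_mul_of_nonneg_left h2 h4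
            _ ≤ 1 * B := mul_le_mul_of_nonneg_right h3 hB0.le
            _ = B := one_mul B
      _ = J.card * B := by rw [sum_const, nsmul_eq_mul]
      _ ≤ T * B := mul_le_mul_of_nonneg_right hJcard hB0.le
  have hWf : ∀ n ∈ Icc 1 X, n ∉ Bd → W n ≤ f n := by
    intro n hn hnB
    have hdet := detJ Y hY2 ε₁ ζ υ lam S r hυ1 hυ0 hυ1' hlam hrr y hSc.hy cL (fun N => (hcWB N).1) J T n hJT
      (hNle n hn) (hBdmem n hn hnB)
    rw [hYp] at hdet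
    rw [hWd, hf]
    exact hdet
  have hA0sub : A0 ⊆ Icc 1 X := by rw [hA0]; exact filter_subset _ _
  have hsumW : ∑ n ∈ A0, W n ≤ ∑ n ∈ A0, f n + Bd.card * (T * B) := by
    have hpt : ∀ n ∈ A0, W n ≤ f n + (if n ∈ Bd then T * B else 0) := by
      intro n hn
      by_cases hnB : n ∈ Bd
      · rw [if_pos hnB]
        have h1 := hWB n (hA0sub hn)
        have h2 := hfnn n
        linarith only [h1, h2]
      · rw [if_neg hnB, add_zero]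
        exact hWf n (hA0sub hn) hnB
    refine (sum_le_sum hpt).trans ?_
    rw [sum_add_distrib]
    apply add_le_add le_rfl
    rw [← sum_filter, sum_const, nsmul_eq_mul]
    apply mul_le_mul_of_nonneg_right _ (by positivity)
    apply Nat.cast_le.2
    apply card_le_card
    intro n hn
    exact (mem_filter.1 hn).2
  have r1 := e1P X T J.card C a1 (Real.log y) (ES Mf (x * L)) l κ g π ν hl1 hX0 hT0r (Nat.cast_nonneg _) hJcard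
    hlogy0.le hlogyl (hES0 _) hES1 vpi hνge (Nat.cast_nonneg _) ha10.le hκp hg0 v1
  have hfirst : g / 32 * (π * ν) + A0.card * (g / 32 * ν) ≤ ∑ n ∈ A0, f n := by
    rw [hA0card]
    have h1 : g / 2 * (π * ν) ≤ G0 / 2 * (π * ∑ j ∈ J, VS {j} y) := by
      have h2 := mul_le_mul_of_nonneg_left hVV1 (show 0 ≤ G0 / 2 * π by positivity)
      have e1 : G0 / 2 * π * (c2 * ν) = g / 2 * (π * ν) := by rw [hg]; ring
      have e2 : G0 / 2 * π * ∑ j ∈ J, VS {j} y = G0 / 2 * (π * ∑ j ∈ J, VS {j} y) := by ring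
      rw [e1, e2] at h2
      exact h2
    have h2 : ∑ n ∈ A0, ∑ j ∈ J, ok 0 y j n * wj (pr Y ε₁ υ) cL 0 j n = ∑ n ∈ A0, W n := by rw [hWd]
    rw [h2] at key1
    have h3 : 0 < g * (π * ν) := by positivity
    have e : π * (g / 32 * ν) = g / 32 * (π * ν) := by ring
    rw [e]
    linarith only [h1, key1, hsumW, r1, r4, h3]
  -- the second moment
  have r2 := e2P X T J.card C' (Real.log y) (ES Mf x) l κ π ν hl1 hX0 hT0r (Nat.cast_nonneg _) hJcard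
    hlogy0.le hlogyl (hES0 _) hES2 vpi hνge (Nat.cast_nonneg _) hκp v1'
  have hsecond : ∑ n ∈ A0, f n ^ 2 ≤ K * (π * (ν ^ 2 + ν)) := by
    have h1 : ∑ n ∈ A0, f n ^ 2 ≤ ∑ n ∈ A0, (∑ j ∈ J, ok 0 y j n) ^ 2 := by
      apply sum_le_sum
      intro n _
      apply pow_le_pow_left₀ (hfnn n)
      rw [hf]
      apply cJ_le_ok
      rw [← hYp]
      exact hSc.ylt.trans_le (Real.rpow_le_rpow_of_exponent_le
        (by exact_mod_cast (by omega : 1 ≤ Y)) hε₁ζ)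
    have h2 := mul_le_mul_of_nonneg_left (add_le_add hVV2 hVV3) hπ0.le
    have h3 : 0 ≤ π * ν := by positivity
    have e : K * (π * (ν ^ 2 + ν)) = 2 * (π * (C2 * ν + C2 * ν ^ 2)) + π * ν ^ 2 + π * ν := by rw [hK]; ring
    rw [e]
    linarith only [h1, h2, key2, r2, h3]
  have hq : 0 < K * (π * (ν ^ 2 + ν)) := by positivity
  have hmany := manyS A0 f (g / 32 * (π * ν)) _ (g / 32 * ν) hq (by positivity) (by positivity) hfirst hsecond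
  -- conclusion
  obtain ⟨c, hc⟩ : ∃ c : ℝ, c = min (g / 32 * κ) (g ^ 2 / (2048 * K) * min κ 1) := ⟨_, rfl⟩
  rw [← hc]
  have hc1 : c ≤ g / 32 * κ := by rw [hc]; exact min_le_left _ _
  have hc2' : c ≤ g ^ 2 / (2048 * K) * min κ 1 := by rw [hc]; exact min_le_right _ _
  have hsub : A0.filter (fun n => 0 < f n ∧ g / 32 * ν ≤ f n) ⊆
      (Icc 1 X).filter (fun n => n.Prime ∧ 1 ≤ cn r ((X : ℝ) ^ (2 * ζ)) T n ∧
        c * T / l ≤ (cn r ((X : ℝ) ^ (2 * ζ)) T n : ℝ)) := by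
    intro n hn
    rw [mem_filter] at hn
    obtain ⟨h1, h2, h3⟩ := hn
    rw [hA0, mem_filter] at h1
    rw [hf] at h2 h3
    simp only at h2 h3
    have hcJ := cJ_le_cn r ((X : ℝ) ^ (2 * ζ)) J T n hJT
    have hcJr : (cJ r ((X : ℝ) ^ (2 * ζ)) J n : ℝ) ≤ (cn r ((X : ℝ) ^ (2 * ζ)) T n : ℝ) := by exact_mod_cast hcJ
    rw [mem_filter]
    refine ⟨h1.1, h1.2, ?_, ?_⟩
    · have : 0 < cJ r ((X : ℝ) ^ (2 * ζ)) J n := by exact_mod_cast h2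
      omega
    · refine le_trans ?_ (h3.trans hcJr)
      calc c * T / l ≤ (g / 32 * κ) * T / l := by gcongr
        _ = g / 32 * (κ * T / l) := by ring
        _ ≤ g / 32 * ν := mul_le_mul_of_nonneg_left hνge (by positivity)
  have hfinal := e4P X T l κ g K π ν _ hX0 hT0r hl0 hκp hg0 hK0 vpi hνge
    (hmany.trans (Nat.cast_le.2 (card_le_card hsub)))
  refine le_trans ?_ hfinal
  gcongr

end Pool.Agent.H37PS
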