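import Pool.Agent.H37PS.Stm

/-!
# Project PS, stub REGP: regularity of the densities over primes (helper8)
-/

set_option autoImplicit false

namespace Pool.Agent.H37PS.REGP

open Finset Filter Pool.Agent.H373R2.T7 Pool.Agent.Y862.SQ Pool.Agent.Y486.SQ Pool.Agent.Y882 Pool.Agent.W23.DC
open Pool.Agent.H37SQ

lemma rS_eq (j p : ℕ) (hj : ¬ p ∣ j) : rS {j} p = rH {j} p := by
  classical
  unfold rS nS rH
  congr 1
  ext r
  simp only [mem_filter, mem_range, Qz, mem_singleton, exists_eq_left, add_zero]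
  constructor
  · rintro ⟨h1, _, h3⟩
    exact ⟨h1, h3⟩
  · rintro ⟨h1, h3⟩
    refine ⟨h1, ?_, h3⟩
    rintro rfl
    apply hj
    simpa using h3

theorem t : Pool.Agent.H37PS.REGP := by
  classical
  intro ε₁ υ η hε hευ hυ hη
  set η' : ℝ := min η 1 / 2 with hη'
  have hmin : 0 < min η 1 := lt_min hη one_pos
  have hη'0 : 0 < η' := by positivity
  obtain ⟨Y1, hY1⟩ := reg ε₁ υ η' hε hυ hη'0
  have ev1 : ∀ᶠ Y : ℕ in atTop, (2 / η' : ℝ) + 3 ≤ (Y : ℝ) ^ ε₁ :=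
    ((tendsto_rpow_atTop hε).comp tendsto_natCast_atTop_atTop).eventually_ge_atTop _
  have ev2 : ∀ᶠ Y : ℕ in atTop, Real.log Y ^ 50 < (Y : ℝ) ^ ε₁ := by
    have h1 := (isLittleO_log_rpow_rpow_atTop (50 : ℝ) hε).bound (show (0 : ℝ) < 1 / 2 by norm_num)
    have h2 := tendsto_natCast_atTop_atTop.eventually h1
    filter_upwards [h2, eventually_ge_atTop 1] with Y h3 h4
    have hY : (1 : ℝ) ≤ Y := by exact_mod_cast h4
    have hl : 0 ≤ Real.log Y := Real.log_nonneg hY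
    have h5 : (0 : ℝ) < (Y : ℝ) ^ ε₁ := by positivity
    rw [Real.norm_of_nonneg (Real.rpow_nonneg hl _), Real.norm_of_nonneg h5.le] at h3
    have h6 : Real.log Y ^ (50 : ℝ) = Real.log Y ^ 50 := by
      rw [← Real.rpow_natCast]
      norm_num
    rw [h6] at h3
    linarith
  obtain ⟨Y2, hY2⟩ := eventually_atTop.1 (ev1.and (ev2.and (eventually_ge_atTop 3)))
  refine ⟨max Y1 Y2, fun Y hY j hj1 hjY => ?_⟩
  obtain ⟨e1, e2, e3⟩ := hY2 Y ((le_max_right _ _).trans hY)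
  have hR := hY1 Y ((le_max_left _ _).trans hY) j hj1 hjY
  have hp : ∀ p ∈ pr Y ε₁ υ, p.Prime ∧ (Y : ℝ) ^ ε₁ ≤ p := fun p hp =>
    ⟨(Pool.Agent.Y882.PX.pr_mem Y p ε₁ υ (by omega) hp).1,
      (Pool.Agent.Y882.PX.pr_mem Y p ε₁ υ (by omega) hp).2.1⟩
  have h2η : 0 < 2 / η' := by positivity
  -- the difference of the densities
  have hD : ∀ p ∈ pr Y ε₁ υ, 0 ≤ (rS {j} p : ℝ) / ((p : ℝ) - 1) - (rH {j} p : ℝ) / p ∧
      (rS {j} p : ℝ) / ((p : ℝ) - 1) - (rH {j} p : ℝ) / p ≤ 2 * (1 / ((p : ℝ) - 1) - 1 / (p : ℝ)) := by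
    intro p hpp
    obtain ⟨h1, h2⟩ := hp p hpp
    have h3 : (3 : ℝ) ≤ p := by linarith
    have h3' : 3 ≤ p := by exact_mod_cast h3
    have h4 : ¬ p ∣ j := by
      intro h
      have h5 : p ≤ j := Nat.le_of_dvd (by omega) h
      have h6 : (p : ℝ) ≤ j := by exact_mod_cast h5
      linarith
    rw [rS_eq j p h4]
    have h5 : (rH {j} p : ℝ) ≤ 2 := Pool.Agent.Y420.SQ.rH_single_le j p h1 (by omega)
    have h6 : (0 : ℝ) ≤ rH {j} p := Nat.cast_nonneg _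
    have h7 : (0 : ℝ) ≤ 1 / ((p : ℝ) - 1) - 1 / (p : ℝ) := by
      rw [sub_nonneg]
      apply one_div_le_one_div_of_le <;> linarith
    have h8 : (rH {j} p : ℝ) / ((p : ℝ) - 1) - (rH {j} p : ℝ) / p =
        rH {j} p * (1 / ((p : ℝ) - 1) - 1 / (p : ℝ)) := by ring
    rw [h8]
    exact ⟨mul_nonneg h6 h7, mul_le_mul_of_nonneg_right h5 h7⟩
  -- the sum of the differences
  have hsum : ∑ p ∈ pr Y ε₁ υ, (1 / ((p : ℝ) - 1) - 1 / (p : ℝ)) ≤ η' / 2 := by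
    rw [Pool.Agent.W378.DC.TMP.pr_eq (by omega) hυ]
    have hY1r : (1 : ℝ) < Y := by exact_mod_cast (by omega : 1 < Y)
    have hmono : (Y : ℝ) ^ ε₁ ≤ (Y : ℝ) ^ υ := Real.rpow_le_rpow_of_exponent_le hY1r.le hευ
    have hAB : ⌈(Y : ℝ) ^ ε₁⌉₊ - 1 ≤ ⌈(Y : ℝ) ^ υ⌉₊ - 1 := Nat.sub_le_sub_right (Nat.ceil_mono hmono) 1
    have hAl : (Y : ℝ) ^ ε₁ - 1 ≤ ((⌈(Y : ℝ) ^ ε₁⌉₊ - 1 : ℕ) : ℝ) := by
      have h1 := Nat.le_ceil ((Y : ℝ) ^ ε₁)
      have h2 : 1 ≤ ⌈(Y : ℝ) ^ ε₁⌉₊ := Nat.ceil_pos.2 (by positivity)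
      rw [Nat.cast_sub h2]
      push_cast
      linarith
    set A := ⌈(Y : ℝ) ^ ε₁⌉₊ - 1 with hA
    have hA2 : 2 / η' ≤ A := by linarith
    have hA0 : (0 : ℝ) < A := by linarith
    have hA1 : 1 ≤ A := by exact_mod_cast hA0
    refine (Pool.Agent.W378.DC.TMP.shift_prime hA1 hAB).2.trans ?_
    rw [div_le_iff₀ hA0]
    rw [div_le_iff₀ hη'0] at hA2
    linarith
  have hF : ∀ F ⊆ pr Y ε₁ υ, |∑ p ∈ F, (rS {j} p : ℝ) / ((p : ℝ) - 1) - ∑ p ∈ F, (rH {j} p : ℝ) / p| ≤ η' := by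
    intro F hFs
    rw [← sum_sub_distrib, abs_of_nonneg (sum_nonneg fun p h => (hD p (hFs h)).1)]
    calc ∑ p ∈ F, ((rS {j} p : ℝ) / ((p : ℝ) - 1) - (rH {j} p : ℝ) / p)
        ≤ ∑ p ∈ pr Y ε₁ υ, ((rS {j} p : ℝ) / ((p : ℝ) - 1) - (rH {j} p : ℝ) / p) :=
          sum_le_sum_of_subset_of_nonneg hFs fun p h _ => (hD p h).1
      _ ≤ ∑ p ∈ pr Y ε₁ υ, 2 * (1 / ((p : ℝ) - 1) - 1 / (p : ℝ)) := sum_le_sum fun p h => (hD p h).2
      _ = 2 * ∑ p ∈ pr Y ε₁ υ, (1 / ((p : ℝ) - 1) - 1 / (p : ℝ)) := by rw [mul_sum]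
      _ ≤ η' := by linarith
  have hM : Mer (pr Y ε₁ υ) (tt Y) (fun p => (rS {j} p : ℝ) / ((p : ℝ) - 1)) ε₁ υ (min η 1) := by
    intro a b ha hab hb
    have h1 := hR a b ha hab hb
    have h2 := hF ((pr Y ε₁ υ).filter (fun p => a ≤ tt Y p ∧ tt Y p < b)) (filter_subset _ _)
    have h3 : η' + η' = min η 1 := by
      rw [hη']
      ring
    rw [abs_le] at h1 h2 ⊢
    constructor <;> linarith [h1.1, h1.2, h2.1, h2.2]
  constructor
  · intro a b ha hab hb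
    exact (hM a b ha hab hb).trans (min_le_left _ _)
  · have h1 := hM ε₁ υ le_rfl hευ le_rfl
    have hset : (pr Y ε₁ υ).filter (fun p => ε₁ ≤ tt Y p ∧ tt Y p < υ) = pr Y ε₁ υ := by
      apply filter_true_of_mem
      intro p hp
      unfold Pool.Agent.W23.DC.pr at hp
      exact ⟨(mem_filter.1 hp).2.2.1, (mem_filter.1 hp).2.2.2⟩
    rw [hset] at h1
    have h2 := (abs_le.1 h1).2
    have hυ0 : 0 < υ := hε.trans_le hευ
    have h3 : Real.log (υ / ε₁) ≤ Real.log (1 / ε₁) := by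
      apply Real.log_le_log (by positivity)
      exact div_le_div_of_nonneg_right hυ hε.le
    have h4 : min η 1 ≤ 1 := min_le_right _ _
    have hnn : ∀ p ∈ pr Y ε₁ υ, 0 ≤ (rS {j} p : ℝ) / ((p : ℝ) - 1) := by
      intro p hpp
      have h5 : (1 : ℝ) ≤ p := by exact_mod_cast (hp p hpp).1.one_lt.le
      exact div_nonneg (Nat.cast_nonneg _) (by linarith)
    unfold PiS
    calc ∏ p ∈ pr Y ε₁ υ, (1 + (rS {j} p : ℝ) / ((p : ℝ) - 1))
        ≤ ∏ p ∈ pr Y ε₁ υ, Real.exp ((rS {j} p : ℝ) / ((p : ℝ) - 1)) := by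
          apply Finset.prod_le_prod
          · intro p hpp
            have := hnn p hpp
            linarith
          · intro p _
            have := Real.add_one_le_exp ((rS {j} p : ℝ) / ((p : ℝ) - 1))
            linarith
      _ = Real.exp (∑ p ∈ pr Y ε₁ υ, (rS {j} p : ℝ) / ((p : ℝ) - 1)) := by rw [Real.exp_sum]
      _ ≤ Real.exp (Real.log (1 / ε₁) + 1) := Real.exp_le_exp.2 (by linarith)
      _ = 1 / ε₁ * Real.exp 1 := by rw [Real.exp_add, Real.exp_log (by positivity)]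
      _ ≤ 1 / ε₁ * 3 := by
          apply mul_le_mul_of_nonneg_left _ (by positivity)
          linarith [Real.exp_one_lt_d9]
      _ = 3 / ε₁ := by ring

end Pool.Agent.H37PS.REGP
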