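import Pool.Agent.H37PS.Stm

/-!
# SYS: fundamental lemma for primes with additional conditions at large primes (project PS, helper37; written by helper95)
-/

set_option autoImplicit false

namespace Pool.Agent.H37PS.SYS

open Finset Pool.Agent.H373R2.T7 Pool.Agent.H37SQ

theorem sqf (S : Finset ℕ) (hS : ∀ p ∈ S, p.Prime) : Squarefree (∏ p ∈ S, p) := by
  refine Finset.squarefree_prod_of_pairwise_isCoprime (fun p hp q hq hpq => ?_) fun p hp => (hS p hp).squarefree
  simp only [Function.onFun, ← Nat.coprime_iff_isRelPrime]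
  exact (Nat.coprime_primes (hS p hp) (hS q hq)).mpr hpq

theorem nS_le_nuB (Q : ℕ → ℕ → Prop) (p : ℕ) : nS Q p ≤ nuB Q p := by
  classical
  unfold nS nuB
  apply card_le_card
  intro r hr
  rw [mem_filter] at hr ⊢
  exact ⟨hr.1, hr.2.2⟩

theorem nS_compl (Q : ℕ → ℕ → Prop) (p : ℕ) (hp : 1 ≤ p) :
    nS Q p + nS (fun p a => ¬ Q p a) p = p - 1 := by
  classical
  unfold nS
  have h4 := card_filter_add_card_filter_not (s := (range p).filter (fun r => r ≠ 0)) (fun a => Q p a)
  rw [filter_filter, filter_filter] at h4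
  have h5 : ((range p).filter (fun r => r ≠ 0)).card = p - 1 := by
    have h6 : (range p).filter (fun r => r ≠ 0) = Ico 1 p := by
      ext r
      rw [mem_filter, mem_range, mem_Ico]
      omega
    rw [h6, Nat.card_Ico]
  rw [h5] at h4
  convert h4

theorem nS_le_pred (Q : ℕ → ℕ → Prop) (p : ℕ) (hp : 1 ≤ p) : nS Q p ≤ p - 1 := by
  have := nS_compl Q p hp
  omega

theorem nS_congr (R Q : ℕ → ℕ → Prop) (p : ℕ) (h : ∀ a, R p a ↔ Q p a) : nS R p = nS Q p := by
  classical
  unfold nS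
  congr 1
  apply filter_congr
  intro r _
  rw [h r]

theorem nuB_congr (R Q : ℕ → ℕ → Prop) (p : ℕ) (h : ∀ a, R p a ↔ Q p a) : nuB R p = nuB Q p := by
  classical
  unfold nuB
  congr 1
  apply filter_congr
  intro r _
  rw [h r]

set_option maxHeartbeats 1000000 in
open Classical in
theorem t (hCNT : CNT) : SYS := by
  intro c hc
  obtain ⟨C0, hC0, hFL⟩ := Pool.Agent.H20R2.fLem c
  set z0 := C0 + c with hz0
  set K0 : ℕ := ∏ p ∈ pz z0, p with hK0
  have hK01 : 1 ≤ K0 := Nat.pos_of_ne_zero (prod_ne_zero_iff.2 fun p hp => (mem_pz.1 hp).2.ne_zero)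
  refine ⟨16 * C0 + 5 * K0, max (2 * K0) (z0 + 3), by omega, fun b hb16 y x hy hyx Q hQ G hG B X Mf hMf hEQ => ?_⟩
  have hbC : C0 ≤ b := by omega
  have hb1' : 1 ≤ b := hC0.trans hbC
  have hCb : 1 ≤ C0 * b := Nat.mul_pos hC0 hb1'
  have hyK : 2 * K0 ≤ y := le_trans (le_max_left _ _) hy
  have hyz : z0 + 3 ≤ y := le_trans (le_max_right _ _) hy
  set J := JJ y with hJ
  set Y : ℕ := 2 ^ 2 ^ J with hY
  have hyY : y < Y := JJ_lt y
  have hYy : Y ≤ y ^ 2 := JJ_le y (by omega)
  set D : ℕ := Y ^ (C0 * b) with hD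
  set P : Finset ℕ := (pz y).filter (fun p => z0 < p) with hP
  have hPp : ∀ p ∈ P, p.Prime ∧ z0 < p ∧ p ≤ Y := by
    intro p hp
    rw [hP, mem_filter] at hp
    exact ⟨(mem_pz.1 hp.1).2, hp.2, ((mem_pz.1 hp.1).1.trans hyY.le)⟩
  have hpzy : pz y = pz z0 ∪ P := by
    ext p
    rw [mem_union, hP, mem_filter, mem_pz, mem_pz]
    constructor
    · rintro ⟨h1, h2⟩
      rcases Nat.lt_or_ge z0 p with h | h
      · exact Or.inr ⟨⟨h1, h2⟩, h⟩
      · exact Or.inl ⟨h, h2⟩
    · rintro (⟨h1, h2⟩ | ⟨h1, _⟩)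
      · exact ⟨by omega, h2⟩
      · exact h1
  have hdisj : Disjoint (pz z0) P := by
    rw [disjoint_left]
    intro p hp hp'
    rw [hP, mem_filter] at hp'
    have := (mem_pz.1 hp).1
    omega
  have hpz0 : ∀ p ∈ pz z0, p.Prime := fun p hp => (mem_pz.1 hp).2
  set A0 : ℝ := ∏ p ∈ pz z0, (1 - (nS Q p : ℝ) / ((p : ℝ) - 1)) with hA0
  have hfac : ∀ p : ℕ, p.Prime → 0 ≤ 1 - (nS Q p : ℝ) / ((p : ℝ) - 1) := by
    intro p hp
    have hp0 : (0 : ℝ) < (p : ℝ) - 1 := by
      have : (1 : ℝ) < p := by exact_mod_cast hp.one_lt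
      linarith
    have h1 : (nS Q p : ℝ) / ((p : ℝ) - 1) ≤ 1 := by
      rw [div_le_one hp0]
      have h2 := nS_compl Q p hp.one_lt.le
      have h3 : nS Q p + 1 ≤ p := by have := hp.one_lt; omega
      have h4 : (nS Q p : ℝ) + 1 ≤ p := by exact_mod_cast h3
      linarith
    linarith
  have hA00 : 0 ≤ A0 := prod_nonneg fun p hp => hfac p (hpz0 p hp)
  set g1 : ℝ := ∏ p ∈ G, ((nS B p : ℝ) / ((p : ℝ) - 1)) with hg1
  set g2 : ℝ := ∏ p ∈ G, (nuB B p : ℝ) with hg2
  have hg10 : 0 ≤ g1 := prod_nonneg fun p hp => by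
    have : (1 : ℝ) < p := by exact_mod_cast (hG p hp).1.one_lt
    apply div_nonneg (Nat.cast_nonneg _)
    linarith
  have hg20 : 0 ≤ g2 := prod_nonneg fun p _ => by positivity
  have hPy : ∀ p ∈ P, p ≤ y := by
    intro p hp
    rw [hP, mem_filter] at hp
    exact (mem_pz.1 hp.1).1
  have hz0y : z0 ≤ y := by omega
  set W : ℝ := H343E.pi1 X with hW
  have hW0 : 0 ≤ W := by
    rw [hW]
    unfold H343E.pi1
    exact Nat.cast_nonneg _
  have hxy1 : K0 * D ≤ x := by
    calc K0 * D ≤ y * (y ^ 2) ^ (C0 * b) := by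
          apply Nat.mul_le_mul (by omega)
          exact Nat.pow_le_pow_left hYy _
      _ = y ^ (2 * (C0 * b) + 1) := by rw [← pow_mul]; ring
      _ ≤ y ^ ((16 * C0 + 5 * K0) * b) := by
          apply Nat.pow_le_pow_right (by omega)
          nlinarith
      _ ≤ x := hyx
  -- the moduli
  have hmod : ∀ T ⊆ P, ∏ p ∈ T, p ≤ D → K0 * ∏ p ∈ T, p ∈ SQe y x := by
    intro T hT hTD
    have hdT : Disjoint (pz z0) T := disjoint_of_subset_right hT hdisj
    have hpr2 : ∀ p ∈ pz z0 ∪ T, p.Prime := by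
      intro p hp
      rcases mem_union.1 hp with h | h
      · exact hpz0 p h
      · exact (hPp p (hT h)).1
    have hprod : K0 * ∏ p ∈ T, p = ∏ p ∈ pz z0 ∪ T, p := by
      rw [prod_union hdT]
    have hpos : 0 < ∏ p ∈ pz z0 ∪ T, p := Nat.pos_of_ne_zero (prod_ne_zero_iff.2 fun p hp => (hpr2 p hp).ne_zero)
    have hsub : ∀ q : ℕ, q.Prime → q ∣ ∏ p ∈ pz z0 ∪ T, p → q ∈ pz z0 ∪ T := by
      intro q hq hd
      obtain ⟨p', hp', hd'⟩ := (Prime.dvd_finsetProd_iff hq.prime _).1 hd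
      rw [Nat.prime_dvd_prime_iff_eq hq (hpr2 p' hp')] at hd'
      rw [hd']
      exact hp'
    unfold SQe
    rw [mem_filter, mem_Icc, hprod]
    refine ⟨⟨hpos, ?_⟩, ?_, ?_⟩
    · rw [← hprod]
      exact (Nat.mul_le_mul_left _ hTD).trans hxy1
    · exact sqf _ hpr2
    · intro q hq
      rw [Nat.mem_primeFactors] at hq
      rcases mem_union.1 (hsub q hq.1 hq.2.1) with h | h
      · exact (mem_pz.1 h).1.trans hz0y
      · exact hPy q (hT h)
  have key := hFL b J z0 P (fun p => (nS Q p : ℝ) / ((p : ℝ) - 1)) hbC (by omega) hPp (fun p hp => by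
      have hp1 : (0 : ℝ) < (p : ℝ) - 1 := by
        have : (1 : ℝ) < p := by exact_mod_cast (hPp p hp).1.one_lt
        linarith
      refine ⟨div_nonneg (Nat.cast_nonneg _) hp1.le, ?_⟩
      apply div_le_div_of_nonneg_right _ hp1.le
      exact_mod_cast (nS_le_nuB Q p).trans (hQ.few p (hPp p hp).1))
    ((Icc 1 X).filter (fun n => n.Prime ∧ (∀ p ∈ pz z0, ¬ Q p n) ∧ ∀ p ∈ G, B p (n % p))) (fun _ => (1 : ℝ))
    (fun p n => Q p n) (W * A0 * g1)
    (fun T => (K0 : ℝ) * (c : ℝ) ^ T.card * g2 * (Mf (K0 * (∏ p ∈ T, p) * ∏ p ∈ G, p) + 1))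
    (fun _ _ => zero_le_one) (by positivity) (by
      intro T hT hTD
      have hTp : ∀ p ∈ T, p.Prime := fun p hp => (hPp p (hT hp)).1
      have hdT : Disjoint (pz z0) T := disjoint_of_subset_right hT hdisj
      have hdG : Disjoint (pz z0 ∪ T) G := by
        rw [disjoint_left]
        intro p hp hp'
        have h2 := (hG p hp').2
        rcases mem_union.1 hp with h | h
        · have := (mem_pz.1 h).1
          omega
        · have := hPy p (hT h)
          omega
      have hpr3 : ∀ p ∈ pz z0 ∪ T ∪ G, p.Prime := by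
        intro p hp
        rcases mem_union.1 hp with h | h
        · rcases mem_union.1 h with h | h
          · exact hpz0 p h
          · exact hTp p h
        · exact (hG p h).1
      obtain ⟨R, hR⟩ : ∃ R : ℕ → ℕ → Prop, R = fun p a =>
        (p ≤ z0 → ¬ Q p a) ∧ (z0 < p → p ≤ y → Q p a) ∧ (y < p → B p a) := ⟨_, rfl⟩
      have hq : ∏ p ∈ pz z0 ∪ T ∪ G, p = K0 * (∏ p ∈ T, p) * ∏ p ∈ G, p := by
        rw [prod_union hdG, prod_union hdT]
      have h3 := hCNT X (pz z0 ∪ T ∪ G) R (Mf (K0 * (∏ p ∈ T, p) * ∏ p ∈ G, p)) hpr3 (hMf _) (by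
        rw [hq]
        exact hEQ _ (hmod T hT hTD))
      have hTz : ∀ p ∈ T, z0 < p := fun p hp => (hPp p (hT hp)).2.1
      have hTy : ∀ p ∈ T, p ≤ y := fun p hp => hPy p (hT hp)
      have hGy : ∀ p ∈ G, y < p := fun p hp => (hG p hp).2
      have r1 : ∀ p ∈ pz z0, ∀ a, R p a ↔ ¬ Q p a := by
        intro p hp a
        have h1 := (mem_pz.1 hp).1
        simp only [hR]
        constructor
        · intro h
          exact h.1 h1
        · intro h
          exact ⟨fun _ => h, fun h2 => by omega, fun h2 => by omega⟩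
      have r2 : ∀ p ∈ T, ∀ a, R p a ↔ Q p a := by
        intro p hp a
        have h1 := hTz p hp
        have h2 := hTy p hp
        simp only [hR]
        constructor
        · intro h
          exact h.2.1 h1 h2
        · intro h
          exact ⟨fun h3 => by omega, fun _ _ => h, fun h3 => by omega⟩
      have r3 : ∀ p ∈ G, ∀ a, R p a ↔ B p a := by
        intro p hp a
        have h1 := hGy p hp
        simp only [hR]
        constructor
        · intro h
          exact h.2.2 h1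
        · intro h
          exact ⟨fun h3 => by omega, fun _ h3 => by omega, fun _ => h⟩
      have c1 : ∀ p ∈ pz z0, (nS R p : ℝ) = (p : ℝ) - 1 - nS Q p := by
        intro p hp
        rw [nS_congr R (fun p a => ¬ Q p a) p (r1 p hp)]
        have h4 := nS_compl Q p (hpz0 p hp).one_lt.le
        have h5 : nS Q p + nS (fun p a => ¬ Q p a) p + 1 = p := by
          have := (hpz0 p hp).one_lt
          omega
        have h6 : (nS Q p : ℝ) + (nS (fun p a => ¬ Q p a) p : ℝ) + 1 = p := by exact_mod_cast h5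
        linarith
      rw [prod_union hdG, prod_union hdG, prod_union hdT, prod_union hdT] at h3
      have e1 : ∏ p ∈ pz z0, ((nS R p : ℝ) / ((p : ℝ) - 1)) = A0 := by
        apply prod_congr rfl
        intro p hp
        rw [c1 p hp]
        have hp0 : ((p : ℝ) - 1) ≠ 0 := by
          have : (1 : ℝ) < p := by exact_mod_cast (hpz0 p hp).one_lt
          linarith
        field_simp
      have e2 : ∏ p ∈ T, ((nS R p : ℝ) / ((p : ℝ) - 1)) = ∏ p ∈ T, ((nS Q p : ℝ) / ((p : ℝ) - 1)) := by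
        apply prod_congr rfl
        intro p hp
        rw [nS_congr R Q p (r2 p hp)]
      have e2' : ∏ p ∈ G, ((nS R p : ℝ) / ((p : ℝ) - 1)) = g1 := by
        apply prod_congr rfl
        intro p hp
        rw [nS_congr R B p (r3 p hp)]
      have e3' : ∏ p ∈ G, (nuB R p : ℝ) = g2 := by
        apply prod_congr rfl
        intro p hp
        rw [nuB_congr R B p (r3 p hp)]
      have e3 : ∏ p ∈ pz z0, (nuB R p : ℝ) ≤ K0 := by
        rw [hK0]
        push_cast
        apply prod_le_prod (fun _ _ => Nat.cast_nonneg _)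
        intro p hp
        exact_mod_cast nuB_le R p
      have e4 : ∏ p ∈ T, (nuB R p : ℝ) ≤ (c : ℝ) ^ T.card := by
        rw [← prod_const]
        apply prod_le_prod (fun _ _ => Nat.cast_nonneg _)
        intro p hp
        rw [nuB_congr R Q p (r2 p hp)]
        exact_mod_cast hQ.few p (hTp p hp)
      rw [e1, e2, e2', e3', ← hW] at h3
      have e5 : ∑ m ∈ ((Icc 1 X).filter (fun n => n.Prime ∧ (∀ p ∈ pz z0, ¬ Q p n) ∧ ∀ p ∈ G, B p (n % p))).filter (fun m => ∀ p ∈ T, Q p m), (1 : ℝ) =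
          (((Icc 1 X).filter (fun n => n.Prime ∧ ∀ p ∈ pz z0 ∪ T ∪ G, R p (n % p))).card : ℝ) := by
        rw [sum_const, nsmul_eq_mul, mul_one, filter_filter]
        congr 2
        apply filter_congr
        intro n _
        constructor
        · rintro ⟨⟨h4, h5, h5'⟩, h6⟩
          refine ⟨h4, fun p hp => ?_⟩
          rcases mem_union.1 hp with h | h
          · rcases mem_union.1 h with h | h
            · rw [r1 p h]
              exact fun h7 => h5 p h ((hQ.per p n).2 h7)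
            · rw [r2 p h]
              exact (hQ.per p n).1 (h6 p h)
          · rw [r3 p h]
            exact h5' p h
        · rintro ⟨h4, h5⟩
          refine ⟨⟨h4, ?_, ?_⟩, ?_⟩
          · intro p hp h7
            have h8 := h5 p (mem_union_left _ (mem_union_left _ hp))
            rw [r1 p hp] at h8
            exact h8 ((hQ.per p n).1 h7)
          · intro p hp
            have h8 := h5 p (mem_union_right _ hp)
            rw [r3 p hp] at h8
            exact h8
          · intro p hp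
            have h8 := h5 p (mem_union_left _ (mem_union_right _ hp))
            rw [r2 p hp] at h8
            exact (hQ.per p n).2 h8
      rw [e5]
      have e6 : W * A0 * g1 * ∏ p ∈ T, ((nS Q p : ℝ) / ((p : ℝ) - 1)) = W * (A0 * (∏ p ∈ T, ((nS Q p : ℝ) / ((p : ℝ) - 1))) * g1) := by ring
      rw [e6]
      refine h3.trans ?_
      apply mul_le_mul_of_nonneg_right _ (by have := hMf (K0 * (∏ p ∈ T, p) * ∏ p ∈ G, p); linarith)
      apply mul_le_mul_of_nonneg_right _ hg20
      exact mul_le_mul e3 e4 (prod_nonneg fun _ _ => Nat.cast_nonneg _) (Nat.cast_nonneg _))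
  have f1 : ∑ m ∈ ((Icc 1 X).filter (fun n => n.Prime ∧ (∀ p ∈ pz z0, ¬ Q p n) ∧ ∀ p ∈ G, B p (n % p))).filter (fun m => ∀ p ∈ P, ¬ Q p m), (1 : ℝ) =
      ((((Icc 1 X).filter (fun n : ℕ => n.Prime ∧ (∀ p ∈ pz y, ¬ Q p n) ∧ ∀ p ∈ G, B p (n % p))).card : ℕ) : ℝ) := by
    rw [sum_const, nsmul_eq_mul, mul_one, filter_filter]
    congr 2
    apply filter_congr
    intro n _
    rw [hpzy]
    constructor
    · rintro ⟨⟨h4, h5, h5'⟩, h6⟩
      refine ⟨h4, fun p hp => ?_, h5'⟩
      rcases mem_union.1 hp with h | h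
      · exact h5 p h
      · exact h6 p h
    · rintro ⟨h4, h, h'⟩
      exact ⟨⟨h4, fun p hp => h p (mem_union_left _ hp), h'⟩, fun p hp => h p (mem_union_right _ hp)⟩
  have f2 : W * A0 * g1 * ∏ p ∈ P, (1 - (nS Q p : ℝ) / ((p : ℝ) - 1)) = W * g1 * ∏ p ∈ pz y, (1 - (nS Q p : ℝ) / ((p : ℝ) - 1)) := by
    rw [hpzy, prod_union hdisj]
    ring
  rw [f1, f2] at key
  refine key.trans ?_
  apply add_le_add le_rfl
  -- the error
  set Gp : ℕ := ∏ p ∈ G, p with hGp
  have hc1 : (1 : ℝ) ≤ c := by exact_mod_cast hc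
  set F : ℕ → ℝ := fun e => (c : ℝ) ^ e.primeFactors.card * (Mf (e * Gp) + 1) with hF
  have hF0 : ∀ e, 0 ≤ F e := fun e => by
    have := hMf (e * Gp)
    simp only [hF]
    positivity
  have herr : ∀ T ∈ P.powerset.filter (fun T : Finset ℕ => ∏ p ∈ T, p ≤ D),
      (K0 : ℝ) * (c : ℝ) ^ T.card * g2 * (Mf (K0 * (∏ p ∈ T, p) * Gp) + 1) ≤ (K0 * g2) * F (K0 * ∏ p ∈ T, p) := by
    intro T hT
    rw [mem_filter, mem_powerset] at hT
    have h1 : T.card ≤ (K0 * ∏ p ∈ T, p).primeFactors.card := by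
      apply card_le_card
      intro p hp
      have hpp := (hPp p (hT.1 hp)).1
      rw [Nat.mem_primeFactors]
      refine ⟨hpp, (dvd_prod_of_mem (fun p => p) hp).trans (Nat.dvd_mul_left _ _), ?_⟩
      have h2 : ∏ p ∈ T, p ≠ 0 := prod_ne_zero_iff.2 fun p hp => (hPp p (hT.1 hp)).1.ne_zero
      exact Nat.mul_ne_zero (by omega) h2
    have h2 : (c : ℝ) ^ T.card ≤ (c : ℝ) ^ (K0 * ∏ p ∈ T, p).primeFactors.card := pow_le_pow_right₀ hc1 h1
    have h3 : 0 ≤ Mf (K0 * (∏ p ∈ T, p) * Gp) + 1 := by have := hMf (K0 * (∏ p ∈ T, p) * Gp); linarith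
    simp only [hF]
    calc (K0 : ℝ) * (c : ℝ) ^ T.card * g2 * (Mf (K0 * (∏ p ∈ T, p) * Gp) + 1) =
          (K0 * g2) * ((c : ℝ) ^ T.card * (Mf (K0 * (∏ p ∈ T, p) * Gp) + 1)) := by ring
      _ ≤ _ := by
        apply mul_le_mul_of_nonneg_left _ (by positivity)
        exact mul_le_mul_of_nonneg_right h2 h3
  have hsum : ∑ T ∈ P.powerset.filter (fun T : Finset ℕ => ∏ p ∈ T, p ≤ D),
      (K0 : ℝ) * (c : ℝ) ^ T.card * g2 * (Mf (K0 * (∏ p ∈ T, p) * Gp) + 1) ≤ (K0 * g2) * ∑ e ∈ SQe y x, F e := by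
    refine (sum_le_sum herr).trans ?_
    rw [← mul_sum]
    apply mul_le_mul_of_nonneg_left _ (by positivity)
    have hinj : ∀ T ∈ P.powerset.filter (fun T : Finset ℕ => ∏ p ∈ T, p ≤ D), ∀ T' ∈ P.powerset.filter (fun T : Finset ℕ => ∏ p ∈ T, p ≤ D),
        K0 * ∏ p ∈ T, p = K0 * ∏ p ∈ T', p → T = T' := by
      intro T hT T' hT' h
      rw [mem_filter, mem_powerset] at hT hT'
      exact prod_inj T T' (fun p hp => (hPp p (hT.1 hp)).1) (fun p hp => (hPp p (hT'.1 hp)).1)
        (Nat.eq_of_mul_eq_mul_left (by omega) h)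
    rw [← sum_image (f := F) (g := fun T : Finset ℕ => K0 * ∏ p ∈ T, p) hinj]
    apply sum_le_sum_of_subset_of_nonneg
    · intro e he
      rw [mem_image] at he
      obtain ⟨T, hT, rfl⟩ := he
      rw [mem_filter, mem_powerset] at hT
      exact hmod T hT.1 hT.2
    · intro e _ _
      exact hF0 e
  have hy3 : (3 : ℝ) ≤ y := by
    have : 3 ≤ y := by omega
    exact_mod_cast this
  have hly1 : 1 ≤ Real.log y := by
    rw [Real.le_log_iff_exp_le (by linarith)]
    have := Real.exp_one_lt_d9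
    linarith
  have hJl : (J : ℝ) + 2 ≤ 5 * Real.log y := by
    have h1 : J ≤ Nat.log 2 y + 1 := by
      rw [hJ]
      unfold JJ
      have := Nat.log_le_self 2 (Nat.log 2 y)
      omega
    have h2 : (J : ℝ) ≤ Nat.log 2 y + 1 := by exact_mod_cast h1
    have h3 : (2 : ℝ) ^ Nat.log 2 y ≤ y := by exact_mod_cast Nat.pow_log_le_self 2 (by omega)
    have h4 : (Nat.log 2 y : ℝ) * Real.log 2 ≤ Real.log y := by
      rw [← Real.log_pow]
      exact Real.log_le_log (by positivity) h3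
    have h5 : (1 : ℝ) / 2 ≤ Real.log 2 := by have := Real.log_two_gt_d9; linarith
    have h6 : (Nat.log 2 y : ℝ) * (1 / 2) ≤ Real.log y := by
      refine le_trans ?_ h4
      gcongr
    linarith
  set SS : ℝ := ∑ e ∈ SQe y x, F e with hSS
  have hSS0 : 0 ≤ SS := sum_nonneg fun e _ => hF0 e
  calc ((J : ℝ) + 2) * ∑ T ∈ P.powerset.filter (fun T : Finset ℕ => ∏ p ∈ T, p ≤ D),
        (K0 : ℝ) * (c : ℝ) ^ T.card * g2 * (Mf (K0 * (∏ p ∈ T, p) * Gp) + 1)
      ≤ (5 * Real.log y) * ((K0 * g2) * SS) := by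
        apply mul_le_mul hJl hsum _ (by linarith)
        apply sum_nonneg
        intro T _
        have := hMf (K0 * (∏ p ∈ T, p) * Gp)
        positivity
    _ = g2 * ((5 * K0) * Real.log y * SS) := by ring
    _ ≤ g2 * (((16 * C0 + 5 * K0 : ℕ) : ℝ) * Real.log y * SS) := by
        apply mul_le_mul_of_nonneg_left _ hg20
        apply mul_le_mul_of_nonneg_right _ hSS0
        apply mul_le_mul_of_nonneg_right _ (by linarith)
        push_cast
        have : (0 : ℝ) ≤ C0 := Nat.cast_nonneg _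
        linarith

end Pool.Agent.H37PS.SYS
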