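import Pool.Agent.H37SQ.First
import Pool.Agent.Y862.SQ.Main1
import Pool.Agent.H96R2.EQP.A

/-!
# Project PS: integers with few prime factors above the squares of primes. Statements of the jobs

Notation of the files `Pool/Agent/H37SQ/*.lean` (`Fund`, `Pair`, `Mom`, `First`, `Reg`) and `Pool/Agent/Y862/SQ/Stm.lean`
(`V1`, `V1t`, `Ff`, `Dd`, `leg`, `rH`, `S_FM`, `S_COLL`), where the same is done for all integers `n` instead of primes.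
-/

set_option autoImplicit false

namespace Pool.Agent.H37PS

open Finset Pool.Agent.H373R2.T7 Pool.Agent.Y862.SQ Pool.Agent.Y486.SQ Pool.Agent.Y882 Pool.Agent.W23.DC
open Pool.Agent.H37SQ

open Classical in
/-- the number of the nonzero classes -/
noncomputable def nS (Q : ℕ → ℕ → Prop) (p : ℕ) : ℕ := ((range p).filter (fun r => r ≠ 0 ∧ Q p r)).card

/-- the number of the nonzero classes `r` modulo `p` with `p ∣ r ^ 2 + h` for some `h` in `H` -/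
noncomputable def rS (H : Finset ℕ) (p : ℕ) : ℕ := nS (Qz 0 H) p

/-- the density of the primes `n` such that no `n ^ 2 + h`, `h ∈ H`, has a prime factor up to `y` -/
noncomputable def VS (H : Finset ℕ) (y : ℕ) : ℝ := ∏ p ∈ pz y, (1 - (rS H p : ℝ) / ((p : ℝ) - 1))

/-- the primes up to `X` are distributed in the reduced residue classes modulo `q` with error at most `m` -/
def EQ (X : ℕ) (m : ℝ) (q : ℕ) : Prop := ∀ a : ℕ, a.Coprime q →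
  |H343E.piAP X q a - H343E.pi1 X / (Nat.totient q : ℝ)| ≤ m

/-- the squarefree integers up to `D` without prime factor above `y` -/
def SQe (y D : ℕ) : Finset ℕ := (Icc 1 D).filter (fun e => Squarefree e ∧ ∀ p ∈ e.primeFactors, p ≤ y)

/-- the expected value of the weights -/
noncomputable def vS (P : Finset ℕ) (c : Finset ℕ → ℝ) (j : ℕ) : ℝ :=
  VV P c (fun p => (rS {j} p : ℝ) / ((p : ℝ) - 1))

/-- the product of `1 + ρ(p) / (p - 1)` -/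
noncomputable def PiS (P : Finset ℕ) (j : ℕ) : ℝ := ∏ p ∈ P, (1 + (rS {j} p : ℝ) / ((p : ℝ) - 1))

/-- the sum of the errors -/
noncomputable def ES (Mf : ℕ → ℝ) (D : ℕ) : ℝ := ∑ q ∈ Icc 1 D, (4 : ℝ) ^ q.primeFactors.card * (Mf q + 1)

/-- the values of `j` -/
noncomputable def JS (w T : ℕ) : Finset ℕ := (Icc 1 T).filter (fun j => 6 ∣ j ∧ Dd 8 w j ≤ 2)

open Classical in
/-- **CNT** (theorem `Pool.Agent.H37PS.CNT.t : CNT`, file `Pool/Agent/H37PS/CNT.lean`): counting primes with conditions.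

Proof. `q = ∏ A` is squarefree, `φ q = ∏ (p - 1)`. The count is the sum of `piAP X q a` over the `a < q` with
`R p (a % p)` for all `p ∈ A` (`n % q % p = n % p`). By the Chinese remainder theorem the number of these `a` is
`∏ nuB R p`, and the number of those coprime to `q` is `∏ nS R p` (`a` is coprime to `q` iff `a % p ≠ 0` for all
`p ∈ A`); induction on `A`, or the bijection `a ↦ (a % p)_p` from `range q` to `A.pi range`. For `a` coprime to `q` use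
`EQ`. For the other `a` (`g = gcd(a, q) > 1`): a prime `n ≡ a` mod `q` is divisible by `g`, so `n = g`: `piAP X q a ≤ 1`. -/
def CNT : Prop := ∀ (X : ℕ) (A : Finset ℕ) (R : ℕ → ℕ → Prop) (m : ℝ), (∀ p ∈ A, p.Prime) → 0 ≤ m →
  EQ X m (∏ p ∈ A, p) →
  |(((Icc 1 X).filter (fun n => n.Prime ∧ ∀ p ∈ A, R p (n % p))).card : ℝ) -
    H343E.pi1 X * ∏ p ∈ A, ((nS R p : ℝ) / ((p : ℝ) - 1))| ≤ (∏ p ∈ A, (nuB R p : ℝ)) * (m + 1)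

open Classical in
/-- **SYS** (theorem `Pool.Agent.H37PS.SYS.t (h : CNT) : SYS`, file `Pool/Agent/H37PS/SYS.lean`): the fundamental lemma
for primes.

Proof: copy the proof of `Pool.Agent.H37SQ.sysG` (file `Pool/Agent/H37SQ/Fund.lean`, 270 lines). Changes: the set is
`{n ∈ [1, X] prime, ¬ Q p n for p ≤ z0, B p (n % p) for p ∈ G}`, the densities are `nS Q p / (p - 1) ≤ c / (p - 1)`, the
count for `T` comes from `CNT` for `A = pz z0 ∪ T ∪ G` (modulus `e ∏ G` with `e = K0 ∏ T ∈ SQe y D`,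
`K0 = ∏ p ≤ z0`), whose error is `≤ K0 (∏ p ∈ T, nuB Q p) (∏ p ∈ G, nuB B p) (Mf (e ∏ G) + 1)`,
`∏ p ∈ T, nuB Q p ≤ c ^ |T| ≤ c ^ ω(e)`; the number of the nonzero classes of `¬ Q` modulo `p` is `p - 1 - nS Q p`. The
errors are summed over the different `e` (`T ↦ K0 ∏ T` is injective) instead of bounded one by one; the factor
`J + 2 ≤ 2 + log_2 log_2 y + 1` is `≤ C log y`. -/
def SYS : Prop := ∀ c : ℕ, 1 ≤ c → ∃ C x0 : ℕ, 1 ≤ C ∧ ∀ b : ℕ, C ≤ b → ∀ y D : ℕ, x0 ≤ y → y ^ (C * b) ≤ D →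
  ∀ Q : ℕ → ℕ → Prop, PerB Q c → ∀ G : Finset ℕ, (∀ p ∈ G, p.Prime ∧ y < p) → ∀ (B : ℕ → ℕ → Prop) (X : ℕ)
    (Mf : ℕ → ℝ), (∀ q, 0 ≤ Mf q) → (∀ e ∈ SQe y D, EQ X (Mf (e * ∏ p ∈ G, p)) (e * ∏ p ∈ G, p)) →
    |(((Icc 1 X).filter (fun n => n.Prime ∧ (∀ p ∈ pz y, ¬ Q p n) ∧ ∀ p ∈ G, B p (n % p))).card : ℝ) -
      H343E.pi1 X * (∏ p ∈ G, ((nS B p : ℝ) / ((p : ℝ) - 1))) * ∏ p ∈ pz y, (1 - (nS Q p : ℝ) / ((p : ℝ) - 1))| ≤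
      (1 / 2 : ℝ) ^ b * (H343E.pi1 X * (∏ p ∈ G, ((nS B p : ℝ) / ((p : ℝ) - 1))) *
        ∏ p ∈ pz y, (1 - (nS Q p : ℝ) / ((p : ℝ) - 1))) +
      (∏ p ∈ G, (nuB B p : ℝ)) * (C * Real.log y *
        ∑ e ∈ SQe y D, (c : ℝ) ^ e.primeFactors.card * (Mf (e * ∏ p ∈ G, p) + 1))

/-- **M1P** (theorem `Pool.Agent.H37PS.M1P.t (h : SYS) : M1P`, file `Pool/Agent/H37PS/M1P.lean`): the first moment of the
weights over primes.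

Proof: as `E1` and `M1` in `Pool/Agent/H37SQ/First.lean`, with `SYS` for `c = 4` (`Q = Qz 0 {j}` has at most `2` classes,
`Qz_perB`, `card`), `G = E ⊆ P`, `B p a = (p ∣ a ^ 2 + j)`; for `p > y` (`nS B p = rS {j} p`, `nuB B p ≤ 2`). For one `j`:
`∑ n, ok w = ∑ E, c E #{n : ok, E ∣ n ^ 2 + j} ≥ π VS (vS - a1 2 ^ (-b) PiS) - a1 ∑ E, 2 ^ |E| C log y ∑ e, 4 ^ ω(e) (Mf (e ∏ E) + 1)`
and the double sum over `(E, e)`, `∏ E ≤ L`, `e ∈ SQe y D`, is at most `ES Mf (D * L)`, because `(E, e) ↦ e ∏ E` is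
injective (`e` has only prime factors `≤ y`, those of `∏ E` are `> y`) and `2 ^ |E| 4 ^ ω(e) ≤ 4 ^ ω(e ∏ E)`. -/
def M1P : Prop := ∃ C x0 : ℕ, 1 ≤ C ∧ ∀ b : ℕ, C ≤ b → ∀ y D : ℕ, x0 ≤ y → y ^ (C * b) ≤ D →
  ∀ (X : ℕ) (Mf : ℕ → ℝ), (∀ q, 0 ≤ Mf q) →
    ∀ (S P : Finset ℕ) (c : Finset ℕ → ℝ) (a1 : ℝ) (L : ℕ) (Pb G0 : ℝ),
      (∀ p ∈ P, p.Prime ∧ y < p) → (∀ E, |c E| ≤ a1) → (∀ E ⊆ P, c E ≠ 0 → ∏ p ∈ E, p ≤ L) →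
      (∀ q ∈ Icc 1 (D * L), Squarefree q → EQ X (Mf q) q) →
      (∀ j ∈ S, PiS P j ≤ Pb) → (∀ j ∈ S, G0 ≤ vS P c j) → 0 ≤ G0 → a1 * (1 / 2 : ℝ) ^ b * Pb ≤ G0 / 2 →
      G0 / 2 * (H343E.pi1 X * ∑ j ∈ S, VS {j} y) - S.card * (a1 * (C * Real.log y * ES Mf (D * L))) ≤
        ∑ n ∈ (Icc 1 X).filter Nat.Prime, ∑ j ∈ S, ok 0 y j n * wj P c 0 j n

/-- **M2P** (theorem `Pool.Agent.H37PS.M2P.t (h : SYS) : M2P`, file `Pool/Agent/H37PS/M2P.lean`): the second moment of the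
numbers of the sifted integers over primes, upper bound.

Proof: expand the square; for `j = k` use `ok ^ 2 = ok`; `ok 0 y j n * ok 0 y k n = 1` iff `¬ Qz 0 {j, k} p n` for all
`p ∈ pz y` (`Sf_sum` in `Pool/Agent/H37SQ/Mom.lean`), and `SYS` for `c = 4`, `G = ∅`, `b = C` bounds the number of these
primes by `2 π VS {j, k} y + C log y ∑ e, 4 ^ ω(e) (Mf e + 1)`, the last sum at most `ES Mf D`. -/
def M2P : Prop := ∃ C x0 : ℕ, 1 ≤ C ∧ ∀ y D : ℕ, x0 ≤ y → y ^ C ≤ D → ∀ (X : ℕ) (Mf : ℕ → ℝ), (∀ q, 0 ≤ Mf q) →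
  (∀ q ∈ Icc 1 D, Squarefree q → EQ X (Mf q) q) → ∀ S : Finset ℕ,
    ∑ n ∈ (Icc 1 X).filter Nat.Prime, (∑ j ∈ S, ok 0 y j n) ^ 2 ≤
      2 * (H343E.pi1 X * (∑ j ∈ S, VS {j} y + ∑ j ∈ S, ∑ k ∈ S.erase j, VS {j, k} y)) +
        (S.card : ℝ) ^ 2 * (C * Real.log y * ES Mf D)

/-- **REGP** (theorem `Pool.Agent.H37PS.REGP.t : REGP`, file `Pool/Agent/H37PS/REGP.lean`): regularity.

Proof: from `Pool.Agent.H37SQ.reg` with `η / 2`: for `p ∈ pr Y ε₁ υ` (`p ≥ Y ^ ε₁ > log ^ 50 Y ≥ j` for large `Y`, so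
`p ∤ j` and `0` is not a root) `rS {j} p = rH {j} p ≤ 2`, and `|rS / (p - 1) - rH / p| ≤ 2 / (p (p - 1)) ≤ 4 / p ^ 2`,
`∑ p ≥ Y ^ ε₁, 4 / p ^ 2 ≤ 8 / Y ^ ε₁ ≤ η / 2`. The product: as `Pi'_le`. -/
def REGP : Prop := ∀ ε₁ υ η : ℝ, 0 < ε₁ → ε₁ ≤ υ → υ ≤ 1 → 0 < η → ∃ Y0 : ℕ, ∀ Y : ℕ, Y0 ≤ Y →
    ∀ j : ℕ, 1 ≤ j → (j : ℝ) ≤ Real.log Y ^ 50 →
      Mer (pr Y ε₁ υ) (tt Y) (fun p => (rS {j} p : ℝ) / ((p : ℝ) - 1)) ε₁ υ η ∧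
      PiS (pr Y ε₁ υ) j ≤ 3 / ε₁

/-- **VPT** (theorem `Pool.Agent.H37PS.VPT.t : VPT`, file `Pool/Agent/H37PS/VPT.lean`): pointwise bounds for the densities.

Proof. Split the primes at `w` (`w0 = 100`). For `p ≤ w` in (a): the factor of `p = 2, 3` is `1` (`6 ∣ j`, `r ≠ 0`), for
`5 ≤ p ≤ w` it is `≥ 1 - 2 / (p - 1) ≥ 1 / 2`; in (b), (c) it is at most `1`, and `V1 y = V1 w * V1t w y`. For `p > w`,
`l = leg j p` (`rS {j} p = 1 + l` if `p ∤ j`, `0` if `p ∣ j`, where `l = 0`): `p ∤ j`: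
`1 - (1 + l) / (p - 1) ≤ (1 - 1 / p) (1 - l / (p - 1))` with equality for `l = -1`, and for `l = 1` the ratio is
`1 - 2 / ((p - 1) (p - 2)) ≥ 1 - 4 / p ^ 2`; `p ∣ j`: the factor is `1`, between `1 - 1 / p` and `(1 - 1 / p) (1 + 8 / p)`.
(c): `p ∤ j k (j - k)`: `rS {j, k} p = (1 + l) + (1 + l')` and
`1 - (2 + l + l') / (p - 1) ≤ (1 - 1 / p) ^ 2 (1 - l / (p - 1)) (1 - l' / (p - 1))` (four cases); otherwise one of the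
three factors `1 + 8 / p` of the `Dd` occurs: `p ∣ j`, `p ∤ k`: `1 - (1 + l') / (p - 1) ≤ (1 - 1 / p) (1 - l' / (p - 1))` and
`1 ≤ (1 - 1 / p) (1 + 8 / p)`; `p ∣ j - k`, `p ∤ j`: `l = l'`, `rS = 1 + l`, `(p - 3) / (p - 1) ≤ ((p - 2) / p) ^ 2 (1 + 8 / p)`;
`p ∣ j, k`: `1 ≤ (1 - 1 / p) ^ 2 (1 + 8 / p) ^ 3`. -/
def VPT : Prop := ∃ w0 : ℕ, ∀ w : ℕ, w0 ≤ w → ∃ c C : ℝ, 0 < c ∧ 0 < C ∧ ∀ y : ℕ, w ≤ y →
  (∀ j : ℕ, 1 ≤ j → 6 ∣ j → c * (V1 y * Ff w y j) ≤ VS {j} y) ∧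
  (∀ j : ℕ, 1 ≤ j → VS {j} y ≤ C * (V1 y * Ff w y j * Dd 8 w j)) ∧
  (∀ j k : ℕ, 1 ≤ j → 1 ≤ k → j ≠ k → VS {j, k} y ≤
    C * (V1 y ^ 2 * (Ff w y j * Ff w y k) * (Dd 8 w j * Dd 8 w k * Dd 8 w (max j k - min j k))))

/-- **VAV** (theorem `Pool.Agent.H37PS.VAV.t (h : VPT) : VAV`, file `Pool/Agent/H37PS/VAV.lean`): averages.

Proof. `S_FM` (`∑ j ≤ T, (Ff w y j - 1) ^ 2 ≤ T / √w`; proof term in `Pool.Agent.Y862.SQ.t_AVG`, file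
`Pool/Agent/Y862/SQ/Main1.lean`) and `Pool.Agent.Y606.SQ.t_COLL : S_COLL` (`∑ t ≤ T, (Dd 8 w t - 1) ≤ C0 T / w`).
(1) The `j ≤ T` with `Dd 8 w j > 2` are at most `C0 T / w`; `∑ j ∈ JS w T, Ff ≥ |JS| - √(|JS| T / √w)` (Cauchy) and
`|JS| ≥ T / 6 - 1 - C0 T / w`, so `∑ Ff ≥ T / 12` for `w` large, then `T` large; with (a) of `VPT` and
`V1_bounds` (`Pool.Agent.Y810.SQ.V1_bounds`: `c1 / log y ≤ V1 y ≤ C1 / log y`). (2) (b) with `Dd 8 w j ≤ 2` on `JS` and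
`Ff ≤ 1 + Ff ^ 2`, `∑ Ff ^ 2 ≤ 2 ∑ (Ff - 1) ^ 2 + 2 T ≤ 4 T`. (3) (c) with `Dd 8 w j, Dd 8 w k ≤ 2`,
`Ff_j Ff_k ≤ (Ff_j ^ 2 + Ff_k ^ 2) / 2`, and for fixed `j`: `∑ k ≠ j, Dd 8 w |j - k| ≤ 2 ∑ t ≤ T, Dd 8 w t ≤ 2 (1 + C0) T`. -/
def VAV : Prop := ∃ w : ℕ, ∃ c C : ℝ, 0 < c ∧ 0 < C ∧ ∃ T0 y0 : ℕ, ∀ T y : ℕ, T0 ≤ T → y0 ≤ y →
  c * (T / Real.log y) ≤ ∑ j ∈ JS w T, VS {j} y ∧
  ∑ j ∈ JS w T, VS {j} y ≤ C * (T / Real.log y) ∧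
  ∑ j ∈ JS w T, ∑ k ∈ (JS w T).erase j, VS {j, k} y ≤ C * (T / Real.log y) ^ 2

/-- **BVS** (theorem `Pool.Agent.H37PS.BVS.t : BVS`, file `Pool/Agent/H37PS/BVS.lean`): Bombieri-Vinogradov in the form
used here.

Proof: `Pool.Agent.H96R2.EQP.weighted` with `K = 4` and `U + 1`; for `D ≤ X ^ β`, `β < 1 / 2`, and `q ≤ D` the condition
`log ^ B X * q ^ 2 < X` holds for large `X`; and `∑ q ≤ D, 4 ^ ω(q) ≤ D ∑ q ≤ D, 4 ^ ω(q) / φ(q) ≤ D (1 + log D) ^ k` by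
`Pool.Agent.H398R2.BV.sum_pow_omega_div_totient` (used in the proof of `weighted`), which is `≤ X ^ (1 / 2)` for large `X`. -/
def BVS : Prop := ∀ (β : ℝ) (U : ℕ), 0 < β → β < 1 / 2 → ∃ X0 : ℕ, ∀ X : ℕ, X0 ≤ X → ∃ Mf : ℕ → ℝ, (∀ q, 0 ≤ Mf q) ∧
  ∀ D : ℕ, (D : ℝ) ≤ (X : ℝ) ^ β → (∀ q ∈ Icc 1 D, EQ X (Mf q) q) ∧ ES Mf D ≤ X / Real.log X ^ U

end Pool.Agent.H37PS
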