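import Pool.Agent.H37PS.Stm

/-!
# Project PS, part VAV: averages of the densities
-/

set_option autoImplicit false
set_option linter.all false

namespace Pool.Agent.H37PS.VAV

open Finset Pool.Agent.H373R2.T7 Pool.Agent.Y862.SQ Pool.Agent.Y486.SQ Pool.Agent.Y882 Pool.Agent.W23.DC
open Pool.Agent.H37SQ Pool.Agent.H37PS

theorem fm : S_FM :=
  Pool.Agent.Y117.SQ.t_FM t_MERT (Pool.Agent.Y286.SQ.t_F1 (Pool.Agent.Y756.SQ.t_BR2 t_MERT))
    (Pool.Agent.Y436.SQ.t_EXC Pool.Agent.Y779.SQ.t_ELS) Pool.Agent.Y848.SQ.t_SW3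

theorem dd_ge (K w t : ℕ) : 1 ≤ Dd K w t := Pool.Agent.Y420.SQ.Dd_ge K w t

theorem ff_nn (w y j : ℕ) : 0 ≤ Ff w y j := Pool.Agent.Y61.SQ.Ff_nonneg w y j

/-- the multiples of six -/
theorem six (T : ℕ) : (T : ℝ) / 6 - 1 ≤ (((Icc 1 T).filter (fun j => 6 ∣ j)).card : ℝ) := by
  have h1 : ((Icc 1 T).filter (fun j => 6 ∣ j)).card = T / 6 := by
    have : Icc 1 T = Ioc 0 T := by
      ext x
      rw [mem_Icc, mem_Ioc]
      omega
    rw [this, Nat.Ioc_filter_dvd_card_eq_div]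
  rw [h1]
  have h2 : T ≤ 6 * (T / 6) + 5 := by omega
  have h3 : (T : ℝ) ≤ 6 * ((T / 6 : ℕ) : ℝ) + 5 := by exact_mod_cast h2
  linarith

theorem js_sub (w T : ℕ) : JS w T ⊆ Icc 1 T := filter_subset _ _

theorem js_card {C0 : ℝ} {w T : ℕ}
    (hC : ∑ t ∈ Icc 1 T, (Dd 8 w t - 1) ≤ C0 * (T : ℝ) / w) :
    (T : ℝ) / 6 - 1 - C0 * T / w ≤ ((JS w T).card : ℝ) := by
  classical
  set Bd : Finset ℕ := (Icc 1 T).filter (fun j => ¬ Dd 8 w j ≤ 2) with hB
  have hBc : (Bd.card : ℝ) ≤ C0 * T / w := by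
    refine le_trans ?_ hC
    calc (Bd.card : ℝ) = ∑ t ∈ Bd, (1 : ℝ) := by simp
      _ ≤ ∑ t ∈ Bd, (Dd 8 w t - 1) := by
          refine sum_le_sum fun t ht => ?_
          have := (mem_filter.1 ht).2
          push Not at this
          linarith
      _ ≤ _ := sum_le_sum_of_subset_of_nonneg (filter_subset _ _) fun t _ _ => by
          have := dd_ge 8 w t
          linarith
  have hsub : (Icc 1 T).filter (fun j => 6 ∣ j) ⊆ JS w T ∪ Bd := by
    intro j hj
    rw [mem_filter] at hj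
    by_cases h : Dd 8 w j ≤ 2
    · exact mem_union_left _ (mem_filter.2 ⟨hj.1, hj.2, h⟩)
    · exact mem_union_right _ (mem_filter.2 ⟨hj.1, h⟩)
  have h1 := (card_le_card hsub).trans (card_union_le _ _)
  have h2 : (((Icc 1 T).filter (fun j => 6 ∣ j)).card : ℝ) ≤ (JS w T).card + Bd.card := by
    exact_mod_cast h1
  have h3 := six T
  linarith

theorem dist_sum {w T : ℕ} {S : Finset ℕ} (hS : S ⊆ Icc 1 T) (j : ℕ) (hj : j ∈ S) :
    ∑ k ∈ S.erase j, Dd 8 w (max j k - min j k) ≤ 2 * ∑ t ∈ Icc 1 T, Dd 8 w t := by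
  classical
  have hnn : ∀ t, 0 ≤ Dd 8 w t := fun t => zero_le_one.trans (dd_ge 8 w t)
  rw [← sum_filter_add_sum_filter_not (S.erase j) (fun k => k < j), two_mul]
  refine add_le_add ?_ ?_
  · calc ∑ k ∈ (S.erase j).filter (fun k => k < j), Dd 8 w (max j k - min j k) =
        ∑ k ∈ (S.erase j).filter (fun k => k < j), Dd 8 w (j - k) := by
          refine sum_congr rfl fun k hk => ?_
          have := (mem_filter.1 hk).2
          rw [max_eq_left this.le, min_eq_right this.le]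
      _ = ∑ t ∈ ((S.erase j).filter (fun k => k < j)).image (fun k => j - k), Dd 8 w t := by
          rw [sum_image]
          intro a ha b hb hab
          have h1 : a < j := (mem_filter.1 (mem_coe.1 ha)).2
          have h2 : b < j := (mem_filter.1 (mem_coe.1 hb)).2
          have h3 : j - a = j - b := hab
          omega
      _ ≤ _ := by
          refine sum_le_sum_of_subset_of_nonneg ?_ fun t _ _ => hnn t
          intro t ht
          obtain ⟨k, hk, rfl⟩ := mem_image.1 ht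
          have h1 := (mem_filter.1 hk).2
          have h2 := mem_Icc.1 (hS hj)
          rw [mem_Icc]
          omega
  · calc ∑ k ∈ (S.erase j).filter (fun k => ¬ k < j), Dd 8 w (max j k - min j k) =
        ∑ k ∈ (S.erase j).filter (fun k => ¬ k < j), Dd 8 w (k - j) := by
          refine sum_congr rfl fun k hk => ?_
          have := (mem_filter.1 hk).2
          push Not at this
          rw [max_eq_right this, min_eq_left this]
      _ = ∑ t ∈ ((S.erase j).filter (fun k => ¬ k < j)).image (fun k => k - j), Dd 8 w t := by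
          rw [sum_image]
          intro a ha b hb hab
          have h1 : ¬ a < j := (mem_filter.1 (mem_coe.1 ha)).2
          have h2 : ¬ b < j := (mem_filter.1 (mem_coe.1 hb)).2
          have h3 : a - j = b - j := hab
          omega
      _ ≤ _ := by
          refine sum_le_sum_of_subset_of_nonneg ?_ fun t _ _ => hnn t
          intro t ht
          obtain ⟨k, hk, rfl⟩ := mem_image.1 ht
          obtain ⟨hk1, h1⟩ := mem_filter.1 hk
          obtain ⟨hk2, hk3⟩ := mem_erase.1 hk1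
          have h2 := mem_Icc.1 (hS hj)
          have h3 := mem_Icc.1 (hS hk3)
          rw [mem_Icc]
          omega

/-- sums over pairs -/
theorem pair_sum (S : Finset ℕ) (F : ℕ → ℝ) (A : ℕ → ℕ → ℝ) (M K : ℝ)
    (hA : ∀ j k, A j k = A k j) (hA0 : ∀ j k, 0 ≤ A j k) (hM : ∀ j ∈ S, ∑ k ∈ S.erase j, A j k ≤ M)
    (hM0 : 0 ≤ M) (hK : ∑ j ∈ S, F j ^ 2 ≤ K) :
    ∑ j ∈ S, ∑ k ∈ S.erase j, (F j * F k) * A j k ≤ K * M := by
  have e : ∑ j ∈ S, ∑ k ∈ S.erase j, F k ^ 2 * A j k = ∑ j ∈ S, ∑ k ∈ S.erase j, F j ^ 2 * A j k := by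
    rw [sum_comm' (t' := S) (s' := fun k => S.erase k)]
    · refine sum_congr rfl fun j _ => sum_congr rfl fun k _ => ?_
      rw [hA]
    · intro j k
      simp only [mem_erase]
      constructor
      · rintro ⟨a, b, c⟩
        exact ⟨⟨fun h => b h.symm, a⟩, c⟩
      · rintro ⟨⟨a, b⟩, c⟩
        exact ⟨b, fun h => a h.symm, c⟩
  have h1 : ∑ j ∈ S, ∑ k ∈ S.erase j, F j ^ 2 * A j k ≤ K * M := by
    calc ∑ j ∈ S, ∑ k ∈ S.erase j, F j ^ 2 * A j k ≤ ∑ j ∈ S, F j ^ 2 * M := by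
          refine sum_le_sum fun j hj => ?_
          rw [← mul_sum]
          exact mul_le_mul_of_nonneg_left (hM j hj) (sq_nonneg _)
      _ = (∑ j ∈ S, F j ^ 2) * M := by rw [sum_mul]
      _ ≤ K * M := mul_le_mul_of_nonneg_right hK hM0
  have h2 : ∑ j ∈ S, ∑ k ∈ S.erase j, (F j * F k) * A j k ≤
      ∑ j ∈ S, ∑ k ∈ S.erase j, (1 / 2 * (F j ^ 2 * A j k) + 1 / 2 * (F k ^ 2 * A j k)) := by
    refine sum_le_sum fun j _ => sum_le_sum fun k _ => ?_
    have h3 : F j * F k ≤ 1 / 2 * F j ^ 2 + 1 / 2 * F k ^ 2 := by nlinarith [sq_nonneg (F j - F k)]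
    have h4 := mul_le_mul_of_nonneg_right h3 (hA0 j k)
    linarith
  have h3 : ∑ j ∈ S, ∑ k ∈ S.erase j, (1 / 2 * (F j ^ 2 * A j k) + 1 / 2 * (F k ^ 2 * A j k)) =
      1 / 2 * (∑ j ∈ S, ∑ k ∈ S.erase j, F j ^ 2 * A j k) +
        1 / 2 * (∑ j ∈ S, ∑ k ∈ S.erase j, F k ^ 2 * A j k) := by
    simp only [mul_sum, sum_add_distrib]
  rw [h3, e] at h2
  linarith

theorem t (h : VPT) : VAV := by
  obtain ⟨w1, h1⟩ := h
  obtain ⟨w2, h2⟩ := fm
  obtain ⟨C0, hC0, h3⟩ := Pool.Agent.Y606.SQ.t_COLL 8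
  obtain ⟨c1, C1, hc1, hC1, h4⟩ := Pool.Agent.Y810.SQ.V1_bounds
  obtain ⟨w3, hw3⟩ := exists_nat_ge (64 * C0)
  obtain ⟨w, hw1, hw2, hw3', hw4⟩ : ∃ w : ℕ, w1 ≤ w ∧ w2 ≤ w ∧ w3 ≤ w ∧ 512 ^ 2 ≤ w :=
    ⟨w1 + w2 + w3 + 512 ^ 2, by omega, by omega, by omega, by omega⟩
  have hw0 : 1 ≤ w := by omega
  have hwR : (0 : ℝ) < w := by exact_mod_cast hw0
  have hwC : 64 * C0 ≤ (w : ℝ) := hw3.trans (by exact_mod_cast hw3')
  have hsq : (512 : ℝ) ≤ √(w : ℝ) := by
    rw [Real.le_sqrt (by norm_num) hwR.le]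
    exact_mod_cast hw4
  obtain ⟨c, C, hc, hC, hV⟩ := h1 w hw1
  obtain ⟨T0, hT0⟩ := h2 w hw2
  refine ⟨w, c * c1 / 12, 6 * C * C1 + 32 * C * C1 ^ 2 * (1 + C0), by positivity, by positivity,
    max T0 64, w + 3, ?_⟩
  intro T y hT hy
  have hT1 : T0 ≤ T := (le_max_left _ _).trans hT
  have hT2 : (64 : ℝ) ≤ T := by exact_mod_cast (le_max_right _ _).trans hT
  have hyw : w ≤ y := by omega
  have hlog : 0 < Real.log y := Real.log_pos (by
    have : 1 < y := by omega
    exact_mod_cast this)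
  obtain ⟨v1, v2⟩ := h4 y (by omega)
  have hV1 : 0 < V1 y := lt_of_lt_of_le (by positivity) v1
  obtain ⟨ha, hb, hcc⟩ := hV y hyw
  have hF : ∑ j ∈ Icc 1 T, (Ff w y j - 1) ^ 2 ≤ (T : ℝ) / 512 := by
    refine (hT0 T hT1 y).trans ?_
    exact div_le_div_of_nonneg_left (by linarith) (by norm_num) hsq
  have hD0 := h3 w T hw0
  have hD : C0 * (T : ℝ) / w ≤ T / 64 := by
    rw [div_le_div_iff₀ hwR (by norm_num)]
    nlinarith
  have hJc := js_card hD0
  set J := JS w T with hJ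
  have hJs : J ⊆ Icc 1 T := js_sub w T
  have hJmem : ∀ j ∈ J, 1 ≤ j ∧ 6 ∣ j ∧ Dd 8 w j ≤ 2 := by
    intro j hj
    obtain ⟨a, b, d⟩ := mem_filter.1 hj
    exact ⟨(mem_Icc.1 a).1, b, d⟩
  have hJT : (J.card : ℝ) ≤ T := by
    have := card_le_card hJs
    rw [Nat.card_Icc] at this
    have h5 : J.card ≤ T := by omega
    exact_mod_cast h5
  have hFJ : ∑ j ∈ J, (Ff w y j - 1) ^ 2 ≤ (T : ℝ) / 512 :=
    (sum_le_sum_of_subset_of_nonneg hJs fun _ _ _ => sq_nonneg _).trans hF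
  -- the sums of `Ff`
  have hlow : (T : ℝ) / 12 ≤ ∑ j ∈ J, Ff w y j := by
    have h5 : ∑ j ∈ J, (31 / 32 - 8 * (Ff w y j - 1) ^ 2) ≤ ∑ j ∈ J, Ff w y j := by
      refine sum_le_sum fun j _ => ?_
      nlinarith [sq_nonneg (16 * (Ff w y j - 1) + 1)]
    rw [sum_sub_distrib, ← mul_sum, sum_const, nsmul_eq_mul] at h5
    linarith
  have hup1 : ∑ j ∈ J, Ff w y j ≤ 3 * T := by
    have h5 : ∑ j ∈ J, Ff w y j ≤ ∑ j ∈ J, (2 + (Ff w y j - 1) ^ 2) := by
      refine sum_le_sum fun j _ => ?_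
      nlinarith [sq_nonneg (Ff w y j - 1 - 1 / 2)]
    rw [sum_add_distrib, sum_const, nsmul_eq_mul] at h5
    linarith
  have hup2 : ∑ j ∈ J, Ff w y j ^ 2 ≤ 4 * T := by
    have h5 : ∑ j ∈ J, Ff w y j ^ 2 ≤ ∑ j ∈ J, (2 + 2 * (Ff w y j - 1) ^ 2) := by
      refine sum_le_sum fun j _ => ?_
      nlinarith [sq_nonneg (Ff w y j - 2)]
    rw [sum_add_distrib, ← mul_sum, sum_const, nsmul_eq_mul] at h5
    linarith
  have hTl : 0 ≤ (T : ℝ) / Real.log y := by positivity
  refine ⟨?_, ?_, ?_⟩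
  · calc c * c1 / 12 * (T / Real.log y) = c * (c1 / Real.log y) * (T / 12) := by ring
      _ ≤ c * V1 y * ∑ j ∈ J, Ff w y j := by
          refine mul_le_mul (mul_le_mul_of_nonneg_left v1 hc.le) hlow (by positivity) (by positivity)
      _ = ∑ j ∈ J, c * (V1 y * Ff w y j) := by
          rw [mul_sum]
          exact sum_congr rfl fun j _ => by ring
      _ ≤ _ := sum_le_sum fun j hj => ha j (hJmem j hj).1 (hJmem j hj).2.1
  · calc ∑ j ∈ J, VS {j} y ≤ ∑ j ∈ J, C * (V1 y * Ff w y j * 2) := by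
          refine sum_le_sum fun j hj => (hb j (hJmem j hj).1).trans ?_
          refine mul_le_mul_of_nonneg_left ?_ hC.le
          exact mul_le_mul_of_nonneg_left (hJmem j hj).2.2 (mul_nonneg hV1.le (ff_nn _ _ _))
      _ = 2 * C * V1 y * ∑ j ∈ J, Ff w y j := by
          rw [mul_sum]
          exact sum_congr rfl fun j _ => by ring
      _ ≤ 2 * C * (C1 / Real.log y) * (3 * T) := by
          refine mul_le_mul (mul_le_mul_of_nonneg_left v2 (by positivity)) hup1
            (sum_nonneg fun j _ => ff_nn _ _ _) (by positivity)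
      _ = 6 * C * C1 * (T / Real.log y) := by ring
      _ ≤ _ := mul_le_mul_of_nonneg_right (by
          have : 0 ≤ 32 * C * C1 ^ 2 * (1 + C0) := by positivity
          linarith) hTl
  · have hM0 : (0 : ℝ) ≤ 2 * (1 + C0) * T := by positivity
    have hDs : ∀ j ∈ J, ∑ k ∈ J.erase j, Dd 8 w (max j k - min j k) ≤ 2 * (1 + C0) * T := by
      intro j hj
      refine (dist_sum hJs j hj).trans ?_
      have h5 : ∑ t ∈ Icc 1 T, Dd 8 w t = ∑ t ∈ Icc 1 T, (Dd 8 w t - 1) + T := by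
        rw [sum_sub_distrib, sum_const, Nat.card_Icc, nsmul_eq_mul]
        push_cast
        simp
      rw [h5]
      have h6 : C0 * (T : ℝ) / w ≤ C0 * T := div_le_self (by positivity) (by exact_mod_cast hw0)
      nlinarith
    have hps := pair_sum J (fun j => Ff w y j) (fun j k => Dd 8 w (max j k - min j k))
      (2 * (1 + C0) * T) (4 * T) (fun j k => by
        rw [max_comm, min_comm]) (fun j k => zero_le_one.trans (dd_ge _ _ _)) hDs hM0 hup2
    calc ∑ j ∈ J, ∑ k ∈ J.erase j, VS {j, k} y ≤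
        ∑ j ∈ J, ∑ k ∈ J.erase j, 4 * C * V1 y ^ 2 * ((Ff w y j * Ff w y k) *
          Dd 8 w (max j k - min j k)) := by
          refine sum_le_sum fun j hj => sum_le_sum fun k hk => ?_
          obtain ⟨hk1, hk2⟩ := mem_erase.1 hk
          obtain ⟨a1, -, a3⟩ := hJmem j hj
          obtain ⟨b1, -, b3⟩ := hJmem k hk2
          refine (hcc j k a1 b1 (Ne.symm hk1)).trans ?_
          have d1 := dd_ge 8 w j
          have d2 := dd_ge 8 w k
          have d3 := dd_ge 8 w (max j k - min j k)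
          have d4 : Dd 8 w j * Dd 8 w k ≤ 2 * 2 := mul_le_mul a3 b3 (by linarith) (by norm_num)
          have d5 : 0 ≤ V1 y ^ 2 * (Ff w y j * Ff w y k) :=
            mul_nonneg (sq_nonneg _) (mul_nonneg (ff_nn _ _ _) (ff_nn _ _ _))
          calc C * (V1 y ^ 2 * (Ff w y j * Ff w y k) *
                (Dd 8 w j * Dd 8 w k * Dd 8 w (max j k - min j k))) ≤
              C * (V1 y ^ 2 * (Ff w y j * Ff w y k) * (2 * 2 * Dd 8 w (max j k - min j k))) := by
                refine mul_le_mul_of_nonneg_left ?_ hC.le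
                refine mul_le_mul_of_nonneg_left ?_ d5
                exact mul_le_mul_of_nonneg_right d4 (by linarith)
            _ = _ := by ring
      _ = 4 * C * V1 y ^ 2 * ∑ j ∈ J, ∑ k ∈ J.erase j, ((Ff w y j * Ff w y k) *
          Dd 8 w (max j k - min j k)) := by
          rw [mul_sum]
          refine sum_congr rfl fun j _ => ?_
          rw [mul_sum]
      _ ≤ 4 * C * (C1 / Real.log y) ^ 2 * (4 * T * (2 * (1 + C0) * T)) := by
          refine mul_le_mul (mul_le_mul_of_nonneg_left (pow_le_pow_left₀ hV1.le v2 2)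
            (by positivity)) hps ?_ (by positivity)
          exact sum_nonneg fun j _ => sum_nonneg fun k _ => mul_nonneg
            (mul_nonneg (ff_nn _ _ _) (ff_nn _ _ _)) (zero_le_one.trans (dd_ge _ _ _))
      _ = 32 * C * C1 ^ 2 * (1 + C0) * (T / Real.log y) ^ 2 := by ring
      _ ≤ _ := mul_le_mul_of_nonneg_right (by
          have : 0 ≤ 6 * C * C1 := by positivity
          linarith) (sq_nonneg _)

end Pool.Agent.H37PS.VAV
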