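import Pool.Agent.H37PS.Stm
import Pool.Agent.Y420.SQ.Tail
import Pool.Agent.Y286.SQ.F1

/-! Project PS, stub VPT: pointwise bounds for the densities. -/

set_option autoImplicit false

namespace Pool.Agent.H37PS.VPT

open Finset Pool.Agent.H373R2.T7 Pool.Agent.Y862.SQ Pool.Agent.Y486.SQ Pool.Agent.H37PS

/-! ### the numbers of classes -/

theorem rS_le (H : Finset ℕ) (p : ℕ) (hp : 0 < p) : rS H p ≤ p - 1 := by
  classical
  unfold rS nS
  calc _ ≤ ((range p).erase 0).card := card_le_card (fun r hr => by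
        rw [mem_filter] at hr
        exact mem_erase.2 ⟨hr.2.1, hr.1⟩)
    _ = p - 1 := by rw [card_erase_of_mem (mem_range.2 hp), card_range]

theorem rS_mono {H H' : Finset ℕ} (h : H ⊆ H') (p : ℕ) : rS H p ≤ rS H' p := by
  classical
  unfold rS nS
  refine card_le_card fun r hr => ?_
  rw [mem_filter] at hr ⊢
  obtain ⟨h1, h2, j, hj, hd⟩ := hr
  exact ⟨h1, h2, j, h hj, hd⟩

theorem rS_eq (H : Finset ℕ) (p : ℕ) (h : ∀ j ∈ H, ¬ p ∣ j) : rS H p = rH H p := by
  classical
  unfold rS nS rH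
  refine congrArg Finset.card (Finset.ext fun r => ?_)
  rw [mem_filter, mem_filter]
  constructor
  · rintro ⟨h1, h2, j, hj, hd⟩
    exact ⟨h1, j, hj, hd⟩
  · rintro ⟨h1, j, hj, hd⟩
    refine ⟨h1, ?_, j, hj, hd⟩
    rintro rfl
    exact h j hj (by simpa using hd)

theorem rS_dvd (j p : ℕ) (hp : p.Prime) (h : p ∣ j) : rS {j} p = 0 := by
  classical
  unfold rS nS
  rw [card_eq_zero, filter_eq_empty_iff]
  rintro r hr ⟨h1, i, hi, hd⟩
  rw [mem_singleton] at hi
  rw [hi, add_zero] at hd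
  have h2 : p ∣ r ^ 2 := (Nat.dvd_add_left h).1 hd
  have h3 : p ∣ r := hp.dvd_of_dvd_pow h2
  have h4 := Nat.le_of_dvd (Nat.pos_of_ne_zero h1) h3
  rw [mem_range] at hr
  omega

theorem leg_dvd (j p : ℕ) (hp : p.Prime) (h : p ∣ j) : leg j p = 0 := by
  have : Fact p.Prime := ⟨hp⟩
  rw [Pool.Agent.Y286.SQ.leg_eq]
  have : (j : ZMod p) = 0 := (ZMod.natCast_eq_zero_iff j p).2 h
  rw [this, neg_zero, MulChar.map_zero]

theorem leg_pm (j p : ℕ) (hp : p.Prime) (h : ¬ p ∣ j) : leg j p = 1 ∨ leg j p = -1 := by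
  have : Fact p.Prime := ⟨hp⟩
  rw [Pool.Agent.Y286.SQ.leg_eq]
  refine quadraticChar_dichotomy ?_
  rw [neg_ne_zero, Ne, ZMod.natCast_eq_zero_iff]
  exact h

theorem leg_congr (j k p : ℕ) (h : p ∣ max j k - min j k) : leg j p = leg k p := by
  have key : ∀ a b : ℕ, a ≤ b → p ∣ b - a → leg a p = leg b p := by
    intro a b hab hd
    obtain ⟨m, hm⟩ := hd
    have e : b = a + p * m := by omega
    unfold leg
    rw [jacobiSym.mod_left, jacobiSym.mod_left (-(b : ℤ))]
    congr 1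
    rw [e]
    push_cast
    rw [show -((a : ℤ) + p * m) = -(a : ℤ) + p * (-m) by ring, Int.add_mul_emod_self_left]
  rcases le_total j k with h1 | h1
  · rw [max_eq_right h1, min_eq_left h1] at h
    exact key j k h1 h
  · rw [max_eq_left h1, min_eq_right h1] at h
    exact (key k j h1 h).symm

theorem rS_single (j p : ℕ) (hp : p.Prime) (hp2 : p ≠ 2) (h : ¬ p ∣ j) :
    (rS {j} p : ℝ) = (leg j p : ℝ) + 1 := by
  rw [rS_eq {j} p (by intro i hi; rw [mem_singleton] at hi; rwa [hi])]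
  have := Pool.Agent.Y420.SQ.rH_single j p hp hp2
  exact_mod_cast this

theorem rS_pair (j k p : ℕ) (hjk : j ≠ k) (hj : ¬ p ∣ j) (hk : ¬ p ∣ k)
    (ht : ¬ p ∣ max j k - min j k) : rS {j, k} p = rS {j} p + rS {k} p := by
  rw [rS_eq {j, k} p (by
      intro i hi
      rw [mem_insert, mem_singleton] at hi
      rcases hi with rfl | rfl
      · exact hj
      · exact hk),
    rS_eq {j} p (by intro i hi; rw [mem_singleton] at hi; rwa [hi]),
    rS_eq {k} p (by intro i hi; rw [mem_singleton] at hi; rwa [hi]),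
    Pool.Agent.Y420.SQ.rH_eq, sum_pair hjk]
  rintro ⟨a, ha, b, hb, hab, hd⟩
  rw [mem_insert, mem_singleton] at ha hb
  apply ht
  rcases ha with rfl | rfl <;> rcases hb with rfl | rfl
  · omega
  · rwa [max_eq_right hab.le, min_eq_left hab.le]
  · rwa [max_eq_left hab.le, min_eq_right hab.le]
  · omega

/-! ### elementary inequalities -/

theorem i0 {q : ℝ} (hq : 50 ≤ q) : 0 < (1 - 1 / (q + 1)) * (1 - 1 / q) := by
  have h1 : 1 / (q + 1) < 1 := by rw [div_lt_one (by linarith)]; linarith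
  have h2 : 1 / q < 1 := by rw [div_lt_one (by linarith)]; linarith
  exact mul_pos (by linarith) (by linarith)

theorem i1 {q : ℝ} (hq : 50 ≤ q) : 1 ≤ (1 - 1 / (q + 1)) * (1 + 8 / (q + 1)) := by
  have h0 : 0 < q + 1 := by linarith
  have e : (1 - 1 / (q + 1)) * (1 + 8 / (q + 1)) - 1 = (7 * (q + 1) - 8) / (q + 1) ^ 2 := by
    field_simp
    ring
  have : 0 ≤ (7 * (q + 1) - 8) / (q + 1) ^ 2 := div_nonneg (by linarith) (by positivity)
  linarith

theorem i2 {q : ℝ} (hq : 50 ≤ q) : 1 - 2 / q ≤ (1 - 1 / (q + 1)) * (1 - 1 / q) := by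
  have h0 : 0 < q + 1 := by linarith
  have h1 : 0 < q := by linarith
  have e : (1 - 1 / (q + 1)) * (1 - 1 / q) - (1 - 2 / q) = 2 / (q * (q + 1)) := by
    field_simp
    ring
  have : 0 ≤ 2 / (q * (q + 1)) := by positivity
  linarith

theorem i2' {q : ℝ} (hq : 50 ≤ q) : (1 - 1 / (q + 1)) * (1 - (-1) / q) = 1 := by
  have h0 : q + 1 ≠ 0 := by linarith
  have h1 : q ≠ 0 := by linarith
  field_simp
  ring

theorem i3 {q : ℝ} (hq : 50 ≤ q) :
    1 - 2 / q ≤ ((1 - 1 / (q + 1)) * (1 - 1 / q)) ^ 2 * (1 + 8 / (q + 1)) := by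
  have h0 : 0 < q + 1 := by linarith
  have h1 : 0 < q := by linarith
  have e : ((1 - 1 / (q + 1)) * (1 - 1 / q)) ^ 2 * (1 + 8 / (q + 1)) - (1 - 2 / q)
      = (6 * q ^ 3 - 14 * q ^ 2 + 14 * q + 2) / (q * (q + 1) ^ 3) := by
    field_simp
    ring
  have : 0 ≤ (6 * q ^ 3 - 14 * q ^ 2 + 14 * q + 2) / (q * (q + 1) ^ 3) := by
    refine div_nonneg ?_ (by positivity)
    nlinarith [mul_nonneg (mul_nonneg h1.le h1.le) (by linarith : 0 ≤ q - 50)]
  linarith

theorem i4 {q : ℝ} (hq : 50 ≤ q) : 1 - 4 / q ≤ ((1 - 1 / (q + 1)) * (1 - 1 / q)) ^ 2 := by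
  have h0 : 0 < q + 1 := by linarith
  have h1 : 0 < q := by linarith
  have e : ((1 - 1 / (q + 1)) * (1 - 1 / q)) ^ 2 - (1 - 4 / q)
      = (8 * q + 4) / (q * (q + 1) ^ 2) := by
    field_simp
    ring
  have : 0 ≤ (8 * q + 4) / (q * (q + 1) ^ 2) := by positivity
  linarith

theorem i5 {q : ℝ} (hq : 50 ≤ q) :
    (1 - 4 / (q + 1) ^ 2) * ((1 - 1 / (q + 1)) * (1 - 1 / q)) ≤ 1 - 2 / q := by
  have h0 : 0 < q + 1 := by linarith
  have h1 : 0 < q := by linarith
  have e : (1 - 2 / q) - (1 - 4 / (q + 1) ^ 2) * ((1 - 1 / (q + 1)) * (1 - 1 / q))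
      = (2 * q ^ 2 - 8 * q - 2) / (q * (q + 1) ^ 3) := by
    field_simp
    ring
  have : 0 ≤ (2 * q ^ 2 - 8 * q - 2) / (q * (q + 1) ^ 3) := by
    refine div_nonneg ?_ (by positivity)
    nlinarith
  linarith

/-- the factor of a prime -/
noncomputable def AA (j p : ℕ) : ℝ := (1 - 1 / (p : ℝ)) * (1 - (leg j p : ℝ) / ((p : ℝ) - 1))

/-- the collision factor of a prime -/
noncomputable def ee (t p : ℕ) : ℝ := if p ∣ t then 1 + 8 / (p : ℝ) else 1

theorem ee_one (t p : ℕ) : 1 ≤ ee t p := by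
  unfold ee
  split_ifs
  · have : (0 : ℝ) ≤ 8 / (p : ℝ) := by positivity
    linarith
  · exact le_rfl

theorem q_of (p : ℕ) (h : 100 < p) : ∃ q : ℝ, 50 ≤ q ∧ (p : ℝ) = q + 1 := by
  refine ⟨(p : ℝ) - 1, ?_, by ring⟩
  have : (100 : ℝ) < p := by exact_mod_cast h
  linarith

theorem AA_pos (j p : ℕ) (hp : p.Prime) (h : 100 < p) : 0 < AA j p := by
  obtain ⟨q, hq, e⟩ := q_of p h
  unfold AA
  rw [e, show q + 1 - 1 = q by ring]
  have h1 : 1 / (q + 1) < 1 := by rw [div_lt_one (by linarith)]; linarith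
  by_cases hd : p ∣ j
  · rw [leg_dvd j p hp hd]
    push_cast
    rw [zero_div, sub_zero, mul_one]
    linarith
  · rcases leg_pm j p hp hd with h2 | h2
    · rw [h2]
      push_cast
      exact i0 hq
    · rw [h2]
      push_cast
      rw [i2' hq]
      exact one_pos

/-- the upper bound for one element -/
theorem up1 (j p : ℕ) (hp : p.Prime) (h : 100 < p) :
    1 - (rS {j} p : ℝ) / ((p : ℝ) - 1) ≤ AA j p * ee j p := by
  obtain ⟨q, hq, e⟩ := q_of p h
  unfold AA ee
  by_cases hd : p ∣ j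
  · rw [if_pos hd, rS_dvd j p hp hd, leg_dvd j p hp hd, e]
    push_cast
    rw [zero_div, sub_zero, mul_one]
    exact i1 hq
  · rw [if_neg hd, rS_single j p hp (by omega) hd, e, show q + 1 - 1 = q by ring, mul_one]
    rcases leg_pm j p hp hd with h2 | h2
    · rw [h2]
      push_cast
      have := i2 hq
      norm_num at this ⊢
      linarith
    · rw [h2]
      push_cast
      rw [i2' hq]
      norm_num

/-- the lower bound for one element -/
theorem lo1 (j p : ℕ) (hp : p.Prime) (h : 100 < p) :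
    (1 - 4 / (p : ℝ) ^ 2) * AA j p ≤ 1 - (rS {j} p : ℝ) / ((p : ℝ) - 1) := by
  obtain ⟨q, hq, e⟩ := q_of p h
  unfold AA
  have h4 : 0 ≤ 4 / (q + 1) ^ 2 := by positivity
  have h5 : 4 / (q + 1) ^ 2 ≤ 1 := by
    rw [div_le_one (by positivity)]
    nlinarith
  by_cases hd : p ∣ j
  · rw [rS_dvd j p hp hd, leg_dvd j p hp hd, e]
    push_cast
    rw [zero_div, sub_zero, mul_one]
    have h1 : 0 ≤ 1 / (q + 1) := by positivity
    have h2 : 1 / (q + 1) ≤ 1 := by rw [div_le_one (by linarith)]; linarith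
    nlinarith
  · rw [rS_single j p hp (by omega) hd, e, show q + 1 - 1 = q by ring]
    rcases leg_pm j p hp hd with h2 | h2
    · rw [h2]
      push_cast
      have := i5 hq
      norm_num at this ⊢
      linarith
    · rw [h2]
      push_cast
      rw [i2' hq]
      norm_num
      linarith

/-- the upper bound for two elements -/
theorem up2 (j k p : ℕ) (hjk : j ≠ k) (hp : p.Prime) (h : 100 < p) :
    1 - (rS {j, k} p : ℝ) / ((p : ℝ) - 1)
      ≤ AA j p * AA k p * (ee j p * ee k p * ee (max j k - min j k) p) := by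
  have hj1 := up1 j p hp h
  have hk1 := up1 k p hp h
  have A0 := AA_pos j p hp h
  have B0 := AA_pos k p hp h
  obtain ⟨q, hq, e⟩ := q_of p h
  have hq0 : 0 < q := by linarith
  have m1 : (rS {j} p : ℝ) ≤ rS {j, k} p := by exact_mod_cast rS_mono (by simp) p
  have m2 : (rS {k} p : ℝ) ≤ rS {j, k} p := by exact_mod_cast rS_mono (by simp) p
  have hpq : (p : ℝ) - 1 = q := by rw [e]; ring
  rw [hpq] at hj1 hk1 ⊢
  have n1 : 1 - (rS {j, k} p : ℝ) / q ≤ 1 - (rS {j} p : ℝ) / q := by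
    have := div_le_div_of_nonneg_right m1 hq0.le
    linarith
  have n2 : 1 - (rS {j, k} p : ℝ) / q ≤ 1 - (rS {k} p : ℝ) / q := by
    have := div_le_div_of_nonneg_right m2 hq0.le
    linarith
  have e1 := ee_one j p
  have e2 := ee_one k p
  have e3 := ee_one (max j k - min j k) p
  have hAdvd : ∀ i : ℕ, p ∣ i → 1 ≤ AA i p * ee i p := by
    intro i hi
    have := up1 i p hp h
    rw [rS_dvd i p hp hi] at this
    simpa using this
  by_cases hj : p ∣ j
  · -- the factor of `j` is at least one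
    have h1 := hAdvd j hj
    have h2 : 0 ≤ AA k p * ee k p := mul_nonneg B0.le (by linarith)
    have h3 : 0 ≤ AA j p * ee j p := by linarith
    calc 1 - (rS {j, k} p : ℝ) / q ≤ AA k p * ee k p := n2.trans hk1
      _ ≤ (AA j p * ee j p) * (AA k p * ee k p) := by nlinarith
      _ ≤ (AA j p * ee j p) * (AA k p * ee k p) * ee (max j k - min j k) p := by
          have := mul_nonneg h3 h2
          nlinarith
      _ = _ := by ring
  by_cases hk : p ∣ k
  · have h1 := hAdvd k hk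
    have h2 : 0 ≤ AA j p * ee j p := mul_nonneg A0.le (by linarith)
    have h3 : 0 ≤ AA k p * ee k p := by linarith
    calc 1 - (rS {j, k} p : ℝ) / q ≤ AA j p * ee j p := n1.trans hj1
      _ ≤ (AA k p * ee k p) * (AA j p * ee j p) := by nlinarith
      _ ≤ (AA k p * ee k p) * (AA j p * ee j p) * ee (max j k - min j k) p := by
          have := mul_nonneg h3 h2
          nlinarith
      _ = _ := by ring
  have ej : ee j p = 1 := if_neg hj
  have ek : ee k p = 1 := if_neg hk
  rw [ej, ek, one_mul, one_mul]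
  by_cases ht : p ∣ max j k - min j k
  · have hl := leg_congr j k p ht
    have hAA : AA k p = AA j p := by unfold AA; rw [hl]
    have et : ee (max j k - min j k) p = 1 + 8 / (q + 1) := by
      unfold ee; rw [if_pos ht, e]
    rw [et, hAA]
    refine n1.trans ?_
    rw [rS_single j p hp (by omega) hj]
    unfold AA
    rw [e, show q + 1 - 1 = q by ring]
    rcases leg_pm j p hp hj with h2 | h2
    · rw [h2]
      push_cast
      have := i3 hq
      norm_num at this ⊢
      rw [sq] at this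
      linarith
    · rw [h2]
      push_cast
      rw [i2' hq]
      have : 0 ≤ 8 / (q + 1) := by positivity
      norm_num
      positivity
  · have et : ee (max j k - min j k) p = 1 := if_neg ht
    rw [et, mul_one, rS_pair j k p hjk hj hk ht]
    push_cast
    rw [rS_single j p hp (by omega) hj, rS_single k p hp (by omega) hk]
    unfold AA
    rw [e, show q + 1 - 1 = q by ring]
    rcases leg_pm j p hp hj with h2 | h2 <;> rcases leg_pm k p hp hk with h3 | h3 <;> rw [h2, h3]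
    · push_cast
      have := i4 hq
      norm_num at this ⊢
      rw [sq] at this
      linarith
    · push_cast
      rw [i2' hq]
      have := i2 hq
      norm_num at this ⊢
      linarith
    · push_cast
      rw [i2' hq]
      have := i2 hq
      norm_num at this ⊢
      linarith
    · push_cast
      rw [i2' hq]
      norm_num

/-! ### products -/

/-- the primes in `(w, y]` -/
noncomputable def big (w y : ℕ) : Finset ℕ := (pr y).filter (fun p => w < p)

theorem mem_big {w y p : ℕ} : p ∈ big w y ↔ p ≤ y ∧ p.Prime ∧ w < p := by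
  unfold big
  rw [mem_filter, Pool.Agent.Y420.SQ.mem_pr]
  tauto

theorem split (w y : ℕ) (hwy : w ≤ y) (f : ℕ → ℝ) :
    ∏ p ∈ pr y, f p = (∏ p ∈ pr w, f p) * ∏ p ∈ big w y, f p := by
  unfold big
  rw [← prod_filter_mul_prod_filter_not (pr y) (fun p => w < p), mul_comm]
  congr 1
  refine prod_congr ?_ fun _ _ => rfl
  ext p
  rw [mem_filter, Pool.Agent.Y420.SQ.mem_pr, Pool.Agent.Y420.SQ.mem_pr]
  constructor
  · rintro ⟨⟨_, h2⟩, h3⟩
    exact ⟨by omega, h2⟩
  · rintro ⟨h1, h2⟩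
    exact ⟨⟨h1.trans hwy, h2⟩, by omega⟩

theorem prod_AA (w y j : ℕ) : ∏ p ∈ big w y, AA j p = V1t w y * Ff w y j := by
  unfold V1t Ff AA
  rw [prod_mul_distrib]
  rfl

theorem prod_ee (w y t : ℕ) (ht : t ≠ 0) : ∏ p ∈ big w y, ee t p ≤ Dd 8 w t := by
  unfold ee Dd
  rw [← prod_filter]
  refine prod_le_prod_of_subset_of_one_le ?_ ?_ ?_
  · intro p hp
    rw [mem_filter, mem_big] at hp
    rw [mem_filter, Nat.mem_primeFactors]
    exact ⟨⟨hp.1.2.1, hp.2, ht⟩, hp.1.2.2⟩
  · intro p hp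
    positivity
  · intro p hp _
    have : (0 : ℝ) ≤ (8 : ℕ) / (p : ℝ) := by positivity
    push_cast at this ⊢
    linarith

theorem fac_nonneg (H : Finset ℕ) (p : ℕ) (hp : p.Prime) :
    0 ≤ 1 - (rS H p : ℝ) / ((p : ℝ) - 1) := by
  have h1 := rS_le H p hp.pos
  have h2 : (1 : ℝ) < p := by exact_mod_cast hp.one_lt
  have h3 : (rS H p : ℝ) ≤ (p : ℝ) - 1 := by
    have : rS H p + 1 ≤ p := by have := hp.one_lt; omega
    have : (rS H p : ℝ) + 1 ≤ p := by exact_mod_cast this
    linarith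
  have : (rS H p : ℝ) / ((p : ℝ) - 1) ≤ 1 := by
    rw [div_le_one (by linarith)]
    exact h3
  linarith

theorem fac_le_one (H : Finset ℕ) (p : ℕ) (hp : p.Prime) :
    1 - (rS H p : ℝ) / ((p : ℝ) - 1) ≤ 1 := by
  have h2 : (1 : ℝ) < p := by exact_mod_cast hp.one_lt
  have : 0 ≤ (rS H p : ℝ) / ((p : ℝ) - 1) := div_nonneg (Nat.cast_nonneg _) (by linarith)
  linarith

theorem V1_pos (w : ℕ) : 0 < V1 w := by
  unfold V1
  refine prod_pos fun p hp => ?_
  rw [Pool.Agent.Y420.SQ.mem_pr] at hp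
  have h2 : (1 : ℝ) < p := by exact_mod_cast hp.2.one_lt
  have : 1 / (p : ℝ) < 1 := by rw [div_lt_one (by linarith)]; exact h2
  linarith

theorem V1_le (w : ℕ) : V1 w ≤ 1 := by
  unfold V1
  refine prod_le_one (fun p hp => ?_) (fun p hp => ?_)
  · rw [Pool.Agent.Y420.SQ.mem_pr] at hp
    have h2 : (1 : ℝ) < p := by exact_mod_cast hp.2.one_lt
    have : 1 / (p : ℝ) < 1 := by rw [div_lt_one (by linarith)]; exact h2
    linarith
  · have : 0 ≤ 1 / (p : ℝ) := by positivity
    linarith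

theorem V1_split (w y : ℕ) (hwy : w ≤ y) : V1 y = V1 w * V1t w y := split w y hwy _

theorem VS_split (H : Finset ℕ) (w y : ℕ) (hwy : w ≤ y) :
    VS H y = (∏ p ∈ pr w, (1 - (rS H p : ℝ) / ((p : ℝ) - 1))) *
      ∏ p ∈ big w y, (1 - (rS H p : ℝ) / ((p : ℝ) - 1)) := split w y hwy _

theorem small_le (H : Finset ℕ) (w : ℕ) :
    ∏ p ∈ pr w, (1 - (rS H p : ℝ) / ((p : ℝ) - 1)) ≤ 1 :=
  prod_le_one (fun p hp => fac_nonneg H p (Pool.Agent.Y420.SQ.mem_pr.1 hp).2)
    (fun p hp => fac_le_one H p (Pool.Agent.Y420.SQ.mem_pr.1 hp).2)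

theorem big_nonneg (H : Finset ℕ) (w y : ℕ) :
    0 ≤ ∏ p ∈ big w y, (1 - (rS H p : ℝ) / ((p : ℝ) - 1)) :=
  prod_nonneg fun p hp => fac_nonneg H p (mem_big.1 hp).2.1

/-- the small primes, lower bound -/
theorem small_ge (j w : ℕ) (hj : 6 ∣ j) :
    (1 / 2 : ℝ) ^ (pr w).card ≤ ∏ p ∈ pr w, (1 - (rS {j} p : ℝ) / ((p : ℝ) - 1)) := by
  rw [← prod_const]
  refine prod_le_prod (fun _ _ => by norm_num) fun p hp => ?_
  rw [Pool.Agent.Y420.SQ.mem_pr] at hp
  by_cases h5 : p < 5
  · have h23 : p ∣ j := by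
      have : p = 2 ∨ p = 3 ∨ p = 4 := by
        have := hp.2.two_le
        omega
      rcases this with rfl | rfl | rfl
      · exact (by norm_num : 2 ∣ 6).trans hj
      · exact (by norm_num : 3 ∣ 6).trans hj
      · exact absurd hp.2 (by norm_num)
    rw [rS_dvd j p hp.2 h23]
    norm_num
  · have h2 : rS {j} p ≤ 2 := by
      by_cases hd : p ∣ j
      · rw [rS_dvd j p hp.2 hd]; norm_num
      · have := rS_single j p hp.2 (by omega) hd
        have h3 : (rS {j} p : ℝ) ≤ 2 := by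
          rw [this]
          rcases leg_pm j p hp.2 hd with h4 | h4 <;> rw [h4] <;> norm_num
        exact_mod_cast h3
    have h6 : (5 : ℝ) ≤ p := by exact_mod_cast (by omega : 5 ≤ p)
    have h7 : (rS {j} p : ℝ) ≤ 2 := by exact_mod_cast h2
    have : (rS {j} p : ℝ) / ((p : ℝ) - 1) ≤ 1 / 2 := by
      rw [div_le_iff₀ (by linarith)]
      linarith
    linarith

theorem sq_prod (w y : ℕ) (hw : 100 ≤ w) :
    (1 / 2 : ℝ) ≤ ∏ p ∈ big w y, (1 - 4 / (p : ℝ) ^ 2) := by
  have h1 := Pool.Agent.Y420.SQ.prod_one_sub_ge (big w y) (fun p => 4 / (p : ℝ) ^ 2)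
    (fun p _ => by positivity) (fun p hp => by
      rw [mem_big] at hp
      have h6 : (100 : ℝ) ≤ p := by exact_mod_cast (by omega : 100 ≤ p)
      rw [div_le_one (by positivity)]
      nlinarith)
  have h2 : ∑ p ∈ big w y, 4 / (p : ℝ) ^ 2 ≤ 4 / (w : ℝ) := by
    have h3 := Pool.Agent.Y420.SQ.sum_inv_sq w y (by omega)
    have h4 : ∑ p ∈ big w y, 1 / (p : ℝ) ^ 2 ≤
        ∑ n ∈ (Icc 1 y).filter (fun n => w < n), 1 / (n : ℝ) ^ 2 := by
      refine sum_le_sum_of_subset_of_nonneg ?_ (fun _ _ _ => by positivity)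
      intro p hp
      rw [mem_big] at hp
      rw [mem_filter, mem_Icc]
      have := hp.2.1.one_lt
      exact ⟨⟨this.le, hp.1⟩, hp.2.2⟩
    have h5 : ∑ p ∈ big w y, 4 / (p : ℝ) ^ 2 = 4 * ∑ p ∈ big w y, 1 / (p : ℝ) ^ 2 := by
      rw [mul_sum]
      refine sum_congr rfl fun p _ => ?_
      ring
    rw [h5]
    calc 4 * ∑ p ∈ big w y, 1 / (p : ℝ) ^ 2 ≤ 4 * (1 / (w : ℝ)) := by linarith
      _ = 4 / (w : ℝ) := by ring
  have h3 : 4 / (w : ℝ) ≤ 1 / 2 := by
    have h6 : (100 : ℝ) ≤ w := by exact_mod_cast hw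
    rw [div_le_iff₀ (by linarith)]
    linarith
  linarith

theorem Ff_pos (w y j : ℕ) (hw : 100 ≤ w) : 0 < V1t w y * Ff w y j := by
  rw [← prod_AA]
  refine prod_pos fun p hp => ?_
  rw [mem_big] at hp
  exact AA_pos j p hp.2.1 (by omega)

theorem t : VPT := by
  refine ⟨100, fun w hw => ?_⟩
  have hV0 := V1_pos w
  have hV1 := V1_le w
  refine ⟨(1 / 2 : ℝ) ^ (pr w).card * (1 / 2), 1 / V1 w + 1 / V1 w ^ 2, by positivity,
    by positivity, fun y hwy => ⟨?_, ?_, ?_⟩⟩
  · intro j hj1 hj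
    rw [VS_split {j} w y hwy, V1_split w y hwy]
    have a1 := small_ge j w hj
    have a2 : (1 / 2 : ℝ) * (V1t w y * Ff w y j) ≤
        ∏ p ∈ big w y, (1 - (rS {j} p : ℝ) / ((p : ℝ) - 1)) := by
      calc (1 / 2 : ℝ) * (V1t w y * Ff w y j)
          ≤ (∏ p ∈ big w y, (1 - 4 / (p : ℝ) ^ 2)) * (V1t w y * Ff w y j) :=
            mul_le_mul_of_nonneg_right (sq_prod w y hw) (Ff_pos w y j hw).le
        _ = ∏ p ∈ big w y, ((1 - 4 / (p : ℝ) ^ 2) * AA j p) := by
            rw [← prod_AA, prod_mul_distrib]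
        _ ≤ _ := by
            refine prod_le_prod (fun p hp => ?_) (fun p hp => ?_)
            · rw [mem_big] at hp
              have h6 : (100 : ℝ) ≤ p := by exact_mod_cast (by omega : 100 ≤ p)
              refine mul_nonneg ?_ (AA_pos j p hp.2.1 (by omega)).le
              have : 4 / (p : ℝ) ^ 2 ≤ 1 := by
                rw [div_le_one (by positivity)]
                nlinarith
              linarith
            · rw [mem_big] at hp
              exact lo1 j p hp.2.1 (by omega)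
    have a3 := (Ff_pos w y j hw).le
    calc (1 / 2 : ℝ) ^ (pr w).card * (1 / 2) * (V1 w * V1t w y * Ff w y j)
        = (1 / 2 : ℝ) ^ (pr w).card * ((1 / 2) * (V1t w y * Ff w y j)) * V1 w := by ring
      _ ≤ (1 / 2 : ℝ) ^ (pr w).card * ((1 / 2) * (V1t w y * Ff w y j)) * 1 :=
          mul_le_mul_of_nonneg_left hV1 (by positivity)
      _ = (1 / 2 : ℝ) ^ (pr w).card * ((1 / 2) * (V1t w y * Ff w y j)) := mul_one _
      _ ≤ _ := mul_le_mul a1 a2 (by positivity) (le_trans (by positivity) a1)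
  · intro j hj1
    rw [VS_split {j} w y hwy]
    have a1 := small_le {j} w
    have a2 : ∏ p ∈ big w y, (1 - (rS {j} p : ℝ) / ((p : ℝ) - 1)) ≤
        V1t w y * Ff w y j * Dd 8 w j := by
      calc _ ≤ ∏ p ∈ big w y, (AA j p * ee j p) :=
            prod_le_prod (fun p hp => fac_nonneg _ p (mem_big.1 hp).2.1)
              (fun p hp => up1 j p (mem_big.1 hp).2.1 (by have := (mem_big.1 hp).2.2; omega))
        _ = V1t w y * Ff w y j * ∏ p ∈ big w y, ee j p := by
            rw [prod_mul_distrib, prod_AA]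
        _ ≤ _ := mul_le_mul_of_nonneg_left (prod_ee w y j (by omega)) (Ff_pos w y j hw).le
    have a3 := (Ff_pos w y j hw).le
    have a4 := big_nonneg {j} w y
    have hD : 0 ≤ Dd 8 w j := by
      unfold Dd
      exact prod_nonneg fun p _ => by positivity
    calc _ ≤ 1 * ∏ p ∈ big w y, (1 - (rS {j} p : ℝ) / ((p : ℝ) - 1)) :=
          mul_le_mul_of_nonneg_right a1 a4
      _ ≤ V1t w y * Ff w y j * Dd 8 w j := by rw [one_mul]; exact a2
      _ = 1 / V1 w * (V1 w * V1t w y * Ff w y j * Dd 8 w j) := by field_simp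
      _ ≤ (1 / V1 w + 1 / V1 w ^ 2) * (V1 w * V1t w y * Ff w y j * Dd 8 w j) := by
          refine mul_le_mul_of_nonneg_right ?_ ?_
          · have : 0 ≤ 1 / V1 w ^ 2 := by positivity
            linarith
          · have : V1 w * V1t w y * Ff w y j * Dd 8 w j
                = V1 w * (V1t w y * Ff w y j) * Dd 8 w j := by ring
            rw [this]
            positivity
      _ = _ := by rw [V1_split w y hwy]
  · intro j k hj1 hk1 hjk
    rw [VS_split {j, k} w y hwy]
    have a1 := small_le {j, k} w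
    have hD : ∀ t, 0 ≤ Dd 8 w t := by
      intro t
      unfold Dd
      exact prod_nonneg fun p _ => by positivity
    have ht0 : max j k - min j k ≠ 0 := by
      rcases lt_or_gt_of_ne hjk with h | h
      · rw [max_eq_right h.le, min_eq_left h.le]; omega
      · rw [max_eq_left h.le, min_eq_right h.le]; omega
    have ee0 : ∀ t, 0 ≤ ∏ p ∈ big w y, ee t p := fun t =>
      prod_nonneg fun p _ => le_trans zero_le_one (ee_one t p)
    have a2 : ∏ p ∈ big w y, (1 - (rS {j, k} p : ℝ) / ((p : ℝ) - 1)) ≤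
        (V1t w y * Ff w y j) * (V1t w y * Ff w y k) *
          (Dd 8 w j * Dd 8 w k * Dd 8 w (max j k - min j k)) := by
      calc _ ≤ ∏ p ∈ big w y,
              (AA j p * AA k p * (ee j p * ee k p * ee (max j k - min j k) p)) :=
            prod_le_prod (fun p hp => fac_nonneg _ p (mem_big.1 hp).2.1)
              (fun p hp => up2 j k p hjk (mem_big.1 hp).2.1
                (by have := (mem_big.1 hp).2.2; omega))
        _ = (V1t w y * Ff w y j) * (V1t w y * Ff w y k) * ((∏ p ∈ big w y, ee j p) *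
              (∏ p ∈ big w y, ee k p) * ∏ p ∈ big w y, ee (max j k - min j k) p) := by
            rw [prod_mul_distrib, prod_mul_distrib, prod_mul_distrib, prod_mul_distrib, prod_AA,
              prod_AA]
        _ ≤ _ := by
            refine mul_le_mul_of_nonneg_left ?_
              (mul_nonneg (Ff_pos w y j hw).le (Ff_pos w y k hw).le)
            exact mul_le_mul (mul_le_mul (prod_ee w y j (by omega)) (prod_ee w y k (by omega))
              (ee0 k) (hD j)) (prod_ee w y _ ht0) (ee0 _) (mul_nonneg (hD j) (hD k))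
    have a4 := big_nonneg {j, k} w y
    have b1 := (Ff_pos w y j hw).le
    have b2 := (Ff_pos w y k hw).le
    calc _ ≤ 1 * ∏ p ∈ big w y, (1 - (rS {j, k} p : ℝ) / ((p : ℝ) - 1)) :=
          mul_le_mul_of_nonneg_right a1 a4
      _ ≤ (V1t w y * Ff w y j) * (V1t w y * Ff w y k) *
          (Dd 8 w j * Dd 8 w k * Dd 8 w (max j k - min j k)) := by rw [one_mul]; exact a2
      _ = 1 / V1 w ^ 2 * (V1 w ^ 2 * ((V1t w y * Ff w y j) * (V1t w y * Ff w y k)) *
          (Dd 8 w j * Dd 8 w k * Dd 8 w (max j k - min j k))) := by field_simp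
      _ ≤ (1 / V1 w + 1 / V1 w ^ 2) * (V1 w ^ 2 * ((V1t w y * Ff w y j) * (V1t w y * Ff w y k)) *
          (Dd 8 w j * Dd 8 w k * Dd 8 w (max j k - min j k))) := by
          refine mul_le_mul_of_nonneg_right ?_ ?_
          · have : 0 ≤ 1 / V1 w := by positivity
            linarith
          · exact mul_nonneg (mul_nonneg (by positivity) (mul_nonneg b1 b2))
              (mul_nonneg (mul_nonneg (hD j) (hD k)) (hD _))
      _ = _ := by rw [V1_split w y hwy]; ring

end Pool.Agent.H37PS.VPT
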